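import Pool.Agent.Lib.MP_7c4eee_pr.H32Final

/-!
Every limit point in law of the tested height along odd meshes has a characteristic function with
a real zero.
-/

namespace Pool.Agent.Lib.MP_7c4eee_pr

open Finset MeasureTheory ProbabilityTheory Filter Topology BoundedContinuousFunction Classical
open scoped NNReal ContDiff

/-- The test function `sin (t y)`. -/
noncomputable def sinB (t : ℝ) : ℝ →ᵇ ℝ :=
  ofNormedAddCommGroup (fun y => Real.sin (t * y)) (by fun_prop) 1 fun _ => Real.abs_sin_le_one _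

lemma cos_le_cap {u t η : ℝ} (h : |u - t| ≤ η) (y : ℝ) : cosB u y ≤ cosB t y + capB η y := by
  have f := Real.abs_cos_sub_cos_le (u * y) (t * y)
  rw [← sub_mul, abs_mul] at f
  have k := mul_le_mul_of_nonneg_right h (abs_nonneg y)
  show Real.cos _ ≤ Real.cos _ + min 2 _
  rw [abs_mul, abs_of_nonneg ((abs_nonneg _).trans h), ← sub_le_iff_le_add', le_min_iff]
  constructor <;> linarith [le_abs_self (Real.cos (u * y) - Real.cos (t * y)),
    Real.cos_le_one (u * y), Real.neg_one_le_cos (t * y)]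

lemma cap_lim (ν : Measure ℝ) [IsProbabilityMeasure ν] :
    Tendsto (fun η : ℝ => ∫ y, capB η y ∂ν) (𝓝[>] 0) (𝓝 0) := by
  have a : Continuous fun η : ℝ => ∫ y, min 2 |η * y| ∂ν :=
    continuous_of_dominated (bound := fun _ => 2) (fun _ => by fun_prop)
      (fun η => .of_forall fun y => (abs_of_nonneg (le_min zero_le_two (abs_nonneg _))).le.trans
        (min_le_left _ _)) (integrable_const _) (.of_forall fun y => by fun_prop)
  have b := (a.tendsto 0).mono_left (nhdsWithin_le_nhds (s := Set.Ioi 0))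
  rw [show ∫ y, min 2 |(0 : ℝ) * y| ∂ν = 0 by simp] at b
  exact b

lemma char_zero (E : ℕ → (ℝ →ᵇ ℝ) → ℝ)
    (hE : ∀ᶠ k in atTop, (∀ φ1 φ2 φ3 : ℝ →ᵇ ℝ, (∀ y, φ1 y ≤ φ2 y + φ3 y) →
      E k φ1 ≤ E k φ2 + E k φ3) ∧ ∃ t ∈ Set.Icc 0 Real.pi, E k (cosB t) = 0)
    (hs : ∀ k t, E k (sinB t) = 0) (ν : Measure ℝ) [IsProbabilityMeasure ν]
    (h : ∀ φ, Tendsto (fun k => E k φ) atTop (𝓝 (∫ y, φ y ∂ν))) : ∃ t, charFun ν t = 0 := by
  obtain ⟨k0, a⟩ := eventually_atTop.1 hE
  choose t t1 t2 using fun k => (a (k + k0) (by omega)).2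
  obtain ⟨u, -, ψ, b1, b2⟩ := isCompact_Icc.tendsto_subseq t1
  have b3 : Tendsto (fun j => ψ j + k0) atTop atTop :=
    (tendsto_add_atTop_nat k0).comp b1.tendsto_atTop
  have c1 : ∀ η > 0, ∫ y, cosB u y ∂ν ≤ ∫ y, capB η y ∂ν := fun η e =>
    le_of_tendsto_of_tendsto ((h (cosB u)).comp b3) ((h (capB η)).comp b3) (by
      filter_upwards [b2.eventually (Metric.ball_mem_nhds u e)] with j d
      have e := (a (ψ j + k0) (by omega)).1 (cosB u) (cosB (t (ψ j))) (capB η)
        (cos_le_cap (by rw [abs_sub_comm]; exact le_of_lt d))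
      rwa [t2, zero_add] at e)
  have c2 : ∀ η > 0, 0 ≤ ∫ y, cosB u y ∂ν + ∫ y, capB η y ∂ν := fun η e =>
    ge_of_tendsto (((h (cosB u)).add (h (capB η))).comp b3) (by
      filter_upwards [b2.eventually (Metric.ball_mem_nhds u e)] with j d
      have e := (a (ψ j + k0) (by omega)).1 (cosB (t (ψ j))) (cosB u) (capB η)
        (cos_le_cap (le_of_lt d))
      rwa [t2] at e)
  have c3 : ∫ y, cosB u y ∂ν ≤ 0 := ge_of_tendsto (cap_lim ν) (by
    filter_upwards [self_mem_nhdsWithin] with η e using c1 η e)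
  have c4 : 0 ≤ ∫ y, cosB u y ∂ν + 0 := ge_of_tendsto ((cap_lim ν).const_add _) (by
    filter_upwards [self_mem_nhdsWithin] with η e using c2 η e)
  have c5 : ∫ y, sinB u y ∂ν = 0 :=
    tendsto_nhds_unique (h (sinB u)) (by simp only [hs]; exact tendsto_const_nhds)
  have c6 : ∫ y, cosB u y ∂ν = 0 := le_antisymm c3 (by linarith)
  refine ⟨u, ?_⟩
  have d : ∀ y : ℝ, Complex.exp (u * y * Complex.I) =
      ((cosB u y : ℝ) : ℂ) + ((sinB u y : ℝ) : ℂ) * Complex.I := fun y => by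
    rw [← Complex.ofReal_mul, Complex.exp_mul_I, ← Complex.ofReal_cos, ← Complex.ofReal_sin]
    rfl
  rw [charFun_apply_real, integral_congr_ae (.of_forall d), integral_add
    ((cosB u).integrable ν).ofReal (((sinB u).integrable ν).ofReal.mul_const _),
    integral_mul_const, integral_complex_ofReal, integral_complex_ofReal, c5, c6]
  simp

lemma expect_sin {Φ : ℝ → ℝ} (hΦ : ∀ t, Φ (-t) = Φ t) (V : Finset Pt) (x0 : Pt) (c : ℂ → Pt)
    (f : ℂ → ℝ) (t : ℝ) : expect Φ V x0 (fun H => sinB t (pairing c f H)) = 0 := by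
  have a : ∀ h : V.erase x0 → ℝ, ext0 _ (-h) = -ext0 (V.erase x0) h := fun h => funext fun x => by
    by_cases b : x ∈ V.erase x0 <;> simp [ext0, b]
  have b : ∀ H, weight Φ V (-H) = weight Φ V H := fun H => prod_congr rfl fun e _ => by
    rw [← hΦ]; congr 1; simp only [Pi.neg_apply]; ring
  have d : ∀ H, pairing c f (-H) = -pairing c f H := fun H => by
    simp [pairing, integral_neg]
  have e := integral_neg_eq_self
    (fun h : V.erase x0 → ℝ => sinB t (pairing c f (ext0 _ h)) * weight Φ V (ext0 _ h)) volume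
  have g : ∀ y, sinB t (-y) = -sinB t y := fun y => by
    show Real.sin _ = -Real.sin _
    rw [mul_neg, Real.sin_neg]
  simp only [a, b, d, g, neg_mul, integral_neg] at e
  exact div_eq_zero_iff.2 (.inl (by linarith))

theorem counter_zero : ∃ (Φ : ℝ → ℝ) (f : ℂ → ℝ),
    (ContDiff ℝ ∞ Φ ∧ (∀ t, 0 ≤ Φ t) ∧ (∃ C, ∀ t, Φ t ≤ C) ∧ (∀ t, Φ (-t) = Φ t) ∧
      (∃ a, ∀ t, a ≤ |t| → Φ t = 0) ∧ ∃ c > 0, ∀ᶠ t in 𝓝 0, c ≤ Φ t) ∧
    (ContDiff ℝ ∞ f ∧ HasCompactSupport f ∧ tsupport f ⊆ {z | dfn z < 0} ∧ ∫ z, f z = 0) ∧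
    ∀ (x0 : ℝ → Pt) (c : ℝ → ℂ → Pt), (∀ᶠ δ in 𝓝[>] 0, pos δ (x0 δ) ∈ {z | dfn z < 0} ∧
      Measurable (c δ) ∧ ∀ z, ‖z - pos δ (c δ z)‖ ≤ 2 * δ) →
      ∀ κ : ℕ → ℕ, Tendsto κ atTop atTop → ∀ ν : Measure ℝ, IsProbabilityMeasure ν →
      (∀ φ : ℝ →ᵇ ℝ, Tendsto (fun j => let δ : ℝ := 1 / (2 * κ j + 1)
        expect Φ (vert {z | dfn z < 0} δ (x0 δ)) (x0 δ) fun H => φ (pairing (c δ) f H))
        atTop (𝓝 (∫ y, φ y ∂ν))) → ∃ t, charFun ν t = 0 := by
  obtain ⟨N, hN⟩ := exists_nat_ge (kap ^ 100000)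
  have N0 : 0 < N := by exact_mod_cast (pow_pos kap_pos _).trans_le hN
  obtain ⟨S, hS, hq⟩ := exists_sidon (N := 2 ^ 15 * N ^ 16) (by positivity)
    (show (0 : ℝ) < 1 / 100000 by norm_num)
  obtain ⟨s0, h0⟩ : (S.erase 0).Nonempty := card_pos.1 (by rw [hq]; positivity)
  obtain ⟨ε, ε0, hε⟩ := exists_gap S
  set w : ℝ := (((2 * N : ℝ) ^ 2) ^ (8 * 500))⁻¹ with hw
  have w0 : 0 < w := by positivity
  set φ : ContDiffBump (0 : ℝ) := ⟨ε / 2, ε, by linarith, by linarith⟩ with hφ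
  have φ0 : ∀ t, ε ≤ |t| → φ t = 0 := fun t a => φ.zero_of_le_dist (by simpa using a)
  have P1 : ContDiff ℝ ∞ (comb S w φ) :=
    ContDiff.sum fun s _ => contDiff_const.mul (φ.contDiff.comp (contDiff_id.sub contDiff_const))
  have P2 : ∀ s t, 0 ≤ (if s = 0 then w else 1) * φ (t - s) :=
    fun s t => mul_nonneg (by positivity) φ.nonneg
  have P3 : ∀ t, 2 + ε ≤ |t| → comb S w φ t = 0 := fun t a => sum_eq_zero fun s b => by
    have : |s| ≤ 2 := by
      by_cases c : s = 0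
      exacts [by simp [c], by linarith [(hS.size s b c).2]]
    rw [φ0 _ (by linarith [abs_sub_abs_le_abs_sub t s]), mul_zero]
  have B1 : ∀ u, Integrable (bump u) := fun u => ContDiffBump.integrable_normed _
  have B2 : ∀ u, ∫ z, bump u z = 1 := fun u => ContDiffBump.integral_normed _
  have B3 : ∀ u z, 0 ≤ bump u z := fun u => ContDiffBump.nonneg_normed _
  have B4 : ∀ u, ContDiff ℝ ∞ (bump u) := fun u => ContDiffBump.contDiff_normed _
  have B5 : HasCompactSupport (bump 2000 - bump (-2000)) :=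
    (ContDiffBump.hasCompactSupport_normed _).sub (ContDiffBump.hasCompactSupport_normed _)
  have B6 : Integrable (bump 2000 - bump (-2000)) := (B1 _).sub (B1 _)
  have P4 : ∀ t, comb S w φ (-t) = comb S w φ t := fun t => by
    refine sum_nbij' (-·) (-·) hS.neg hS.neg (fun _ _ => neg_neg _) (fun _ _ => neg_neg _)
      fun s _ => ?_
    rw [← φ.neg]
    simp [add_comm]
  refine ⟨comb S w φ, bump 2000 - bump (-2000), ⟨P1, fun t => sum_nonneg fun s _ => P2 s t,
    ⟨∑ s ∈ S, if s = 0 then w else 1, fun t => sum_le_sum fun s _ =>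
      mul_le_of_le_one_right (by positivity) φ.le_one⟩, P4, ⟨_, P3⟩, w, w0, ?_⟩,
    ⟨(B4 _).sub (B4 _), B5, (tsupport_sub _ _).trans ?_, ?_⟩, fun x0 c hc κ hκ ν hν h => ?_⟩
  · filter_upwards [Metric.closedBall_mem_nhds (0 : ℝ) (half_pos ε0)] with t a
    refine le_trans ?_ (single_le_sum (fun s _ => P2 s t) hS.zero)
    rw [if_pos rfl, sub_zero, φ.one_of_mem_closedBall a, mul_one]
  · rintro z (a | a)
    exacts [near_dom (.inr rfl) ((bump_supp a).trans (by norm_num)),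
      near_dom (.inl rfl) ((bump_supp a).trans (by norm_num))]
  · simp only [Pi.sub_apply, integral_sub (B1 _) (B1 _), B2, sub_self]
  obtain ⟨C, hC⟩ := ((B4 2000).sub (B4 (-2000))).continuous.bounded_above_of_compact_support B5
  have T1 : Tendsto (fun k : ℕ => 1 / ((2 * k + 1 : ℕ) : ℝ)) atTop (𝓝 0) :=
    tendsto_one_div_atTop_nhds_zero_nat.comp (tendsto_atTop_mono (f := id) (fun k => by
      dsimp only [id]; omega) tendsto_id)
  have T2 : Tendsto (fun k : ℕ => 1 / ((2 * k + 1 : ℕ) : ℝ)) atTop (𝓝[>] 0) :=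
    tendsto_nhdsWithin_iff.2 ⟨T1, .of_forall fun k => Set.mem_Ioi.2 (by positivity)⟩
  have T3 := (((T1.pow 2).const_mul 16).const_mul C).eventually
    (gt_mem_nhds (show _ < (1 / 3200 : ℝ) by norm_num))
  have T4 : ∀ j, (1 / (2 * κ j + 1) : ℝ) = 1 / ((2 * κ j + 1 : ℕ) : ℝ) := fun j => by push_cast; rfl
  simp only [T4] at h
  refine char_zero _ ?_ (fun j t => expect_sin P4 _ _ _ _ t) ν h
  filter_upwards [hκ.eventually (T2.eventually hc), hκ.eventually T3] with j ⟨a1, a2, a3⟩ a4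
  generalize κ j = k at *
  obtain ⟨b, m, g, hV⟩ := vert_geo (n := 2 * k + 1) (by omega) a1
  generalize hn : 2 * k + 1 = n at *
  generalize vert {z | dfn z < 0} (1 / n) (x0 (1 / n)) = V at *
  generalize x0 (1 / n) = y, c (1 / n) = d at *
  have V1 : ∀ x ∈ V, Rch V y x := fun x a => (g.conn ((hV y).2 a1)).symm.trans (g.conn a)
  set A := cel d (bump 2000 - bump (-2000)) with hA
  have V2 : ∀ h : V.erase y → ℝ, pairing d (bump 2000 - bump (-2000)) (ext0 _ h) =
      ∑ x ∈ V, A x * ext0 _ h x :=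
    fun h => pairing_eq a2 B6 fun x a => dif_neg fun e => a (mem_of_mem_erase e)
  refine ⟨expect_le P1.continuous (fun t => sum_nonneg fun s _ => P2 s t) P3 V1 (by
    simp only [V2]
    exact continuous_finsetSum _ fun x _ => continuous_const.mul (ext0_cont _ _)), ?_⟩
  have U1 := fun z => bump_cell (u := 2000) (z := z) (by omega) a3
  have U2 := fun z => bump_cell (u := -2000) (z := z) (by omega) a3
  simp only [Int.cast_neg, Int.cast_ofNat] at U1 U2
  have U3 := (sum_cel a2 (B1 _) fun z a => (hV _).2 (near_dom (.inr rfl) (U1 z a).1)).trans (B2 _)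
  have U4 := (sum_cel a2 (B1 _) fun z a => (hV _).2 (near_dom (.inl rfl) (U2 z a).1)).trans (B2 _)
  have U5 : ∀ x, A x = cel d (bump 2000) x - cel d (bump (-2000)) x :=
    fun x => integral_sub (B1 _).integrableOn (B1 _).integrableOn
  have U6 : ∀ x, cel d (bump 2000) x ≠ 0 → (x.1 - 2000 * n).natAbs + x.2.natAbs ≤ 503 * n :=
    fun x a => (cel_ne a).elim fun z e => e.1 ▸ (U1 z e.2).2
  have U7 : ∀ x, cel d (bump (-2000)) x ≠ 0 → (x.1 - -2000 * n).natAbs + x.2.natAbs ≤ 503 * n :=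
    fun x a => (cel_ne a).elim fun z e => e.1 ▸ (U2 z e.2).2
  have U8 : ∀ x : Pt, x.1 < 0 → cel d (bump 2000) x = 0 :=
    fun x a => by_contra fun e => by have := U6 x e; omega
  have U9 : ∀ x : Pt, ¬x.1 < 0 → cel d (bump (-2000)) x = 0 :=
    fun x a => by_contra fun e => by have := U7 x e; omega
  have W1 : ∑ x ∈ V, |A x| ≤ 2 := by
    refine (sum_le_sum (g := fun x => cel d (bump 2000) x + cel d (bump (-2000)) x)
      fun x _ => ?_).trans (by rw [sum_add_distrib, U3, U4]; norm_num)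
    have e : ∀ u, 0 ≤ cel d (bump u) x := fun u => integral_nonneg (B3 u)
    rw [U5, abs_le]
    constructor <;> linarith [e 2000, e (-2000)]
  have W2 := g.main hS ⟨by norm_num, le_rfl⟩ h0 (ρ := 2 * N) (by linarith [Nat.cast_nonneg (α := ℝ) N])
    (by rw [hq]; push_cast; ring) w0.le (inv_mul_cancel₀ (by positivity)) (U := V) (a := A)
    (fun x _ a => by
      by_cases e : x.1 < 0
      · exact .inl (U7 x fun f => a (by rw [U5, U8 x e, f, sub_zero]))
      · exact .inr (U6 x fun f => a (by rw [U5, U9 x e, f, sub_zero])))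
    (by
      rw [← U4, ← sum_neg_distrib]
      exact sum_congr rfl fun x _ => by split_ifs with e <;> simp [U5, U8 x, U9 x, e])
    (by
      rw [← U3]
      exact sum_congr rfl fun x _ => by split_ifs with e <;> simp [U5, U8 x, U9 x, e]) W1
    ((sum_le_sum (g := fun x => 1 / 3200 * |A x|) fun x _ => by
      rw [← sq_abs, sq]
      exact mul_le_mul_of_nonneg_right ((cel_le hC (by positivity) a3 x).trans a4.le)
        (abs_nonneg _)).trans (by rw [← mul_sum]; linarith))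
  obtain ⟨t, t1, t2⟩ := intermediate_value_Icc' Real.pi_pos.le (f := fun t =>
    ∑ η ∈ Om V S, wgt w (edges V) η * Real.cos (t * ∑ x ∈ V, A x * pot η x)) (by fun_prop)
    ⟨W2, sum_nonneg fun η _ => by simpa using wgt_nonneg w0.le _ η⟩
  refine ⟨t, t1, div_eq_zero_iff.2 (.inl ?_)⟩
  simp only [V2]
  exact cos_zero g.dp hS φ.continuous φ0 hε V1
    (by simp only [U5, sum_sub_distrib, U3, U4, sub_self]) t2

end Pool.Agent.Lib.MP_7c4eee_pr
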