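import Pool.Agent.Lib.MP_7c4eee_pr.H32Plane

/-!
Pairing the four sides of each plaquette and counting the resulting classes of edges.
-/

namespace Pool.Agent.Lib.MP_7c4eee_pr

open Finset

/-- Side `k` (bottom, left, top, right) of the plaquette `p`, as an edge with a side. -/
def side (p : Pt) (k : Fin 4) : Ed × Bool :=
  ![((p, false), true), ((p, true), true), (((p.1, p.2 + 1), false), false),
    (((p.1 + 1, p.2), true), false)] k

/-- The plaquette on the given side of an edge. -/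
def plq (d : Ed × Bool) : Pt :=
  if d.2 then d.1.1 else if d.1.2 then (d.1.1.1 - 1, d.1.1.2) else (d.1.1.1, d.1.1.2 - 1)

/-- The position of an edge in the plaquette on its given side. -/
def slot (d : Ed × Bool) : Fin 4 := if d.2 then (if d.1.2 then 1 else 0) else (if d.1.2 then 3 else 2)

/-- The three pairings of four sides. -/
def mate (t : Fin 3) (k : Fin 4) : Fin 4 := ![![1, 0, 3, 2], ![3, 2, 1, 0], ![2, 3, 0, 1]] t k

lemma mate_mate (t : Fin 3) (k : Fin 4) : mate t (mate t k) = k := by revert t k; decide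
lemma mate_ne (t : Fin 3) (k : Fin 4) : mate t k ≠ k := by revert t k; decide
lemma plq_side (p : Pt) (k : Fin 4) : plq (side p k) = p := by fin_cases k <;> simp [plq, side]
lemma slot_side (p : Pt) (k : Fin 4) : slot (side p k) = k := by fin_cases k <;> simp [slot, side]
lemma side_plq (d : Ed × Bool) : side (plq d) (slot d) = d := by
  rcases d with ⟨⟨p, _ | _⟩, _ | _⟩ <;> simp [plq, side, slot]

/-- The partner of an edge across the plaquette on its given side. -/
def ptn (t : Pt → Fin 3) (d : Ed × Bool) : Ed × Bool := side (plq d) (mate (t (plq d)) (slot d))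

lemma plq_ptn (t : Pt → Fin 3) (d : Ed × Bool) : plq (ptn t d) = plq d := plq_side _ _

lemma ptn_ptn (t : Pt → Fin 3) (d : Ed × Bool) : ptn t (ptn t d) = d := by
  rw [ptn, plq_ptn, ptn, slot_side, mate_mate, side_plq]

lemma ptn_ne (t : Pt → Fin 3) (d : Ed × Bool) : ptn t d ≠ d := fun h => by
  have := congrArg slot h
  rw [ptn, slot_side] at this
  exact mate_ne _ _ this

/-- Both plaquettes at the edge are present. -/
def Inn (P : Pt → Prop) (e : Ed) : Prop := P (plq (e, true)) ∧ P (plq (e, false))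

/-- The two plaquettes at the edge have their centre at the same end of it. -/
def Agr (t : Pt → Fin 3) (e : Ed) : Prop := (t (plq (e, true)) : ℕ) + t (plq (e, false)) = 1

/-- Defect edges. -/
def Dfc (P : Pt → Prop) (t : Pt → Fin 3) (e : Ed) : Prop :=
  Inn P e ∧ (¬Agr t e ∨ ∃ s, ¬Inn P (ptn t (e, s)).1)

/-- A linear form of the doubled midpoint. -/
def mid (a b : ℤ) (e : Ed) : ℤ :=
  a * (2 * e.1.1 + if e.2 then 0 else 1) + b * (2 * e.1.2 + if e.2 then 1 else 0)

lemma extreme_loc {a b : ℤ} {c : Bool}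
    (h : ((a = 1 ∨ a = -1) ∧ b = 0 ∧ c = false) ∨ (a = 0 ∧ (b = 1 ∨ b = -1) ∧ c = true))
    (t : Pt → Fin 3) (e : Ed) (h1 : ∀ s, mid a b (ptn t (e, s)).1 ≤ mid a b e) :
    e.2 = c ∧ (Agr t e ∨ ∃ s, (ptn t (e, s)).1 ≠ e ∧ mid a b (ptn t (e, s)).1 = mid a b e) := by
  have h2 := h1 true
  have h3 := h1 false
  simp only [Bool.exists_bool, Agr, ptn] at h2 h3 ⊢
  generalize t (plq (e, true)) = u, t (plq (e, false)) = v at h2 h3 ⊢
  rcases e with ⟨⟨i, j⟩, d⟩
  rcases h with ⟨rfl | rfl, rfl, rfl⟩ | ⟨rfl, rfl | rfl, rfl⟩ <;> cases d <;> fin_cases u <;>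
    fin_cases v <;> simp [mid, side, plq, slot, mate] at h2 h3 ⊢ <;> omega

open Classical in
/-- The weight of an edge in the count of classes. -/
noncomputable def wt (P : Pt → Prop) (t : Pt → Fin 3) (e : Ed) : ℕ :=
  4 * (∑ s, if P (plq (e, s)) then 0 else 1) + if Inn P e then (if Dfc P t e then 1 else 2) else 0

lemma extreme {a b : ℤ} {c : Bool}
    (h : ((a = 1 ∨ a = -1) ∧ b = 0 ∧ c = false) ∨ (a = 0 ∧ (b = 1 ∨ b = -1) ∧ c = true))
    {P : Pt → Prop} {t : Pt → Fin 3} {C : Finset Ed} (hne : C.Nonempty) (hin : ∀ e ∈ C, Inn P e)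
    (hcl : ∀ d : Ed × Bool, d.1 ∈ C → (ptn t d).1 ∈ C) :
    ∃ e ∈ C, (∀ f ∈ C, mid a b f ≤ mid a b e) ∧ (∀ f ∈ C, mid a b f = mid a b e → f.2 = c) ∧
      2 ≤ ∑ f ∈ C, if mid a b f = mid a b e then wt P t f else 0 := by
  classical
  obtain ⟨e, he, hm⟩ := exists_max_image C (mid a b) hne
  refine ⟨e, he, hm, fun f hf h1 =>
    (extreme_loc h t f fun s => h1 ▸ hm _ (hcl (f, s) hf)).1, ?_⟩
  have h1 : ∀ f ∈ C, 1 ≤ wt P t f := fun f hf => by
    unfold wt; rw [if_pos (hin f hf)]; split_ifs <;> omega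
  rcases (extreme_loc h t e fun s => hm _ (hcl (e, s) he)).2 with h2 | ⟨s, h2, h3⟩
  · refine le_trans ?_ (single_le_sum (f := fun f => if mid a b f = mid a b e then wt P t f else 0)
      (fun _ _ => Nat.zero_le _) he)
    have : ¬Dfc P t e := by
      rintro ⟨-, h3 | ⟨s, h3⟩⟩
      exacts [h3 h2, h3 (hin _ (hcl (e, s) he))]
    simp only [if_true, wt, if_pos (hin e he), if_neg this]
    omega
  · have h4 := hcl (e, s) he
    refine le_trans ?_ (sum_le_sum_of_subset (s := {(ptn t (e, s)).1, e}) (by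
      intro f hf; simp only [mem_insert, mem_singleton] at hf; rcases hf with rfl | rfl <;> assumption))
    rw [sum_pair h2, if_pos h3, if_pos rfl]
    have := h1 _ he
    have := h1 _ h4
    omega

lemma class_wt {P : Pt → Prop} {t : Pt → Fin 3} {C : Finset Ed} (hne : C.Nonempty)
    (hcl : ∀ d : Ed × Bool, d.1 ∈ C → P (plq d) → (ptn t d).1 ∈ C) : 8 ≤ ∑ e ∈ C, wt P t e := by
  classical
  by_cases hin : ∀ e ∈ C, Inn P e
  · have hc : ∀ d : Ed × Bool, d.1 ∈ C → (ptn t d).1 ∈ C := by
      rintro ⟨e, _ | _⟩ h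
      exacts [hcl _ h (hin e h).2, hcl _ h (hin e h).1]
    obtain ⟨e1, a1, b1, c1, d1⟩ := extreme (a := 1) (b := 0) (c := false) (by simp) hne hin hc
    obtain ⟨e2, a2, b2, c2, d2⟩ := extreme (a := -1) (b := 0) (c := false) (by simp) hne hin hc
    obtain ⟨e3, a3, b3, c3, d3⟩ := extreme (a := 0) (b := 1) (c := true) (by simp) hne hin hc
    obtain ⟨e4, a4, b4, c4, d4⟩ := extreme (a := 0) (b := -1) (c := true) (by simp) hne hin hc
    have h1 : mid 1 0 e3 < mid 1 0 e1 := lt_of_le_of_ne (b1 _ a3) fun h => by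
      simpa [c3 _ a3 rfl] using c1 _ a3 h
    have h2 : mid (-1) 0 e3 < mid (-1) 0 e2 := lt_of_le_of_ne (b2 _ a3) fun h => by
      simpa [c3 _ a3 rfl] using c2 _ a3 h
    have h3 : mid 0 1 e1 < mid 0 1 e3 := lt_of_le_of_ne (b3 _ a1) fun h => by
      simpa [c1 _ a1 rfl] using c3 _ a1 h
    have h4 : mid 0 (-1) e1 < mid 0 (-1) e4 := lt_of_le_of_ne (b4 _ a1) fun h => by
      simpa [c1 _ a1 rfl] using c4 _ a1 h
    refine le_trans (add_le_add (add_le_add d1 d2) (add_le_add d3 d4)) ?_
    simp only [← sum_add_distrib]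
    refine sum_le_sum fun f hf => ?_
    have g1 := c1 f hf
    have g2 := c2 f hf
    have g3 := c3 f hf
    have g4 := c4 f hf
    have g5 : ∀ f, mid (-1) 0 f = -mid 1 0 f := fun f => by simp [mid]
    have g6 : ∀ f, mid 0 (-1) f = -mid 0 1 f := fun f => by simp [mid]
    simp only [g5, g6] at *
    split_ifs <;> first | omega | simp_all
  · push Not at hin
    obtain ⟨e, he, hin⟩ := hin
    set M := (C ×ˢ (univ : Finset Bool)).filter fun d => ¬P (plq d) with hM
    have h1 : ∑ _d ∈ (C ×ˢ (univ : Finset Bool)).filter fun d => P (plq d), (1 : ZMod 2) = 0 := by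
      refine sum_involution (fun d _ => ptn t d) (fun _ _ => rfl) (fun d _ _ => ptn_ne t d)
        (fun d hd => ?_) fun d _ => ptn_ptn t d
      simp only [mem_filter, mem_product, mem_univ, and_true, plq_ptn] at hd ⊢
      exact ⟨hcl d hd.1 hd.2, hd.2⟩
    have h2 := card_filter_add_card_filter_not (s := C ×ˢ (univ : Finset Bool)) fun d => P (plq d)
    simp only [sum_const, nsmul_eq_mul, mul_one, ZMod.natCast_eq_zero_iff] at h1
    have h3 : 0 < #M := by
      refine card_pos.2 ?_
      by_cases h : P (plq (e, true))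
      · exact ⟨(e, false), by simpa [hM, he] using fun h' => hin ⟨h, h'⟩⟩
      · exact ⟨(e, true), by simpa [hM, he] using h⟩
    have h4 : #M = ∑ e ∈ C, ∑ s, if P (plq (e, s)) then 0 else 1 := by
      rw [hM, card_filter, sum_product]
      simp only [ite_not]
    rw [card_product, card_univ, Fintype.card_bool, ← hM] at h2
    calc 8 ≤ 4 * #M := by omega
      _ ≤ _ := by
        rw [h4, mul_sum]
        exact sum_le_sum fun f _ => by unfold wt; exact Nat.le_add_right _ _

open Classical in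
lemma class_count {P : Pt → Prop} {t : Pt → Fin 3} {G : Finset Ed}
    (hG : ∀ d : Ed × Bool, d.1 ∈ G → P (plq d) → (ptn t d).1 ∈ G) :
    ∃ R ⊆ G, 8 * #R + #(G.filter (Dfc P t)) ≤
        4 * #((G ×ˢ (univ : Finset Bool)).filter fun d => ¬P (plq d)) + 2 * #(G.filter (Inn P)) ∧
      ∀ Q : Ed → Prop, (∀ e ∈ R, Q e) →
        (∀ d : Ed × Bool, d.1 ∈ G → P (plq d) → Q d.1 → Q (ptn t d).1) → ∀ e ∈ G, Q e := by
  set st : Ed → Ed → Prop := fun e f => e ∈ G ∧ ∃ s, P (plq (e, s)) ∧ f = (ptn t (e, s)).1 with hst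
  have h1 : ∀ e f, st e f → st f e := by
    rintro e _ ⟨a, s, b, rfl⟩
    exact ⟨hG (e, s) a b, (ptn t (e, s)).2, by rwa [plq_ptn], by rw [ptn_ptn]⟩
  set rel := Relation.ReflTransGen st with hrel
  have h2 : ∀ e f, rel e f → rel f e := by
    intro e f h
    induction h with
    | refl => exact .refl
    | tail _ h ih => exact .head (h1 _ _ h) ih
  have h3 : ∀ e f, rel e f → e ∈ G → f ∈ G := by
    intro e f h he
    induction h with
    | refl => exact he
    | tail _ h _ => exact (h1 _ _ h).1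
  set rep : Ed → Ed := fun e => Classical.epsilon (rel e) with hrep
  have h4 : ∀ e, rel e (rep e) := fun e => Classical.epsilon_spec ⟨e, .refl⟩
  have h5 : ∀ e f, rel e f → rep e = rep f := fun e f h => by
    simp only [hrep]
    congr 1
    ext g
    exact ⟨fun a => (h2 _ _ h).trans a, fun a => h.trans a⟩
  refine ⟨G.image rep, fun r hr => ?_, ?_, fun Q hQ hs e he => ?_⟩
  · obtain ⟨e, he, rfl⟩ := mem_image.1 hr
    exact h3 _ _ (h4 e) he
  · have a1 : 8 * #(G.image rep) ≤ ∑ e ∈ G, wt P t e := by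
      rw [← sum_fiberwise_of_maps_to (g := rep) (t := G.image rep) fun e he => mem_image_of_mem _ he,
        mul_comm, ← smul_eq_mul, ← sum_const]
      refine sum_le_sum fun r hr => class_wt ?_ fun d hd hp => ?_
      · obtain ⟨e, he, rfl⟩ := mem_image.1 hr
        exact ⟨e, by simpa using he⟩
      · rw [mem_filter] at hd ⊢
        exact ⟨hG d hd.1 hp, (h5 _ _ (.single ⟨hd.1, d.2, hp, rfl⟩)).symm.trans hd.2⟩
    refine (Nat.add_le_add_right a1 _).trans (le_of_eq ?_)
    rw [card_filter, card_filter, card_filter, sum_product, mul_sum, mul_sum, ← sum_add_distrib,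
      ← sum_add_distrib]
    refine sum_congr rfl fun e _ => ?_
    simp only [wt, ite_not]
    by_cases b1 : Dfc P t e
    · simp [b1, b1.1]
    · by_cases b2 : Inn P e <;> simp [b1, b2]
  · have a1 : ∀ f g, rel f g → Q f → Q g := by
      intro f g h hf
      induction h with
      | refl => exact hf
      | tail _ h ih =>
        obtain ⟨a, s, b, rfl⟩ := h
        exact hs (_, s) a b ih
    exact a1 _ _ (h2 _ _ (h4 e)) (hQ _ (mem_image_of_mem _ he))

end Pool.Agent.Lib.MP_7c4eee_pr
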