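import Pool.Agent.Lib.MP_7c4eee_pr.H32Shape

/-!
Clean sites, clusters of unclean sites, labels and levels of the components of their complement.
-/

namespace Pool.Agent.Lib.MP_7c4eee_pr

open Finset Classical

/-- The domain `V` and its deep part `D`. -/
structure Dp (V : Finset Pt) (D : Set Pt) : Prop where
  conv : ∀ i j j', (i, j) ∈ V → (0 ≤ j' ∧ j' ≤ j ∨ j ≤ j' ∧ j' ≤ 0) → (i, j') ∈ V
  edge : ∀ x ∈ V, ∃ e ∈ edges V, e.1 = x ∨ tip e = x
  deep : ∀ x, lf x ∈ D → ∀ p, Cor p x ∨ Cor p (lf x) → Pl V p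
  zero : (0, 0) ∉ D
  conn : ∀ x ∉ D, Rch Dᶜ (0, 0) x

/-- Clean sites. -/
def Cln (D : Set Pt) (η : Ed → ℝ) (x : Pt) : Prop :=
  x ∈ D ∧ ∀ e ∈ star x, Agr (ty η) e ∧ η e ≠ 0

/-- The cluster of unclean sites grown from `s`. -/
def Clu (D : Set Pt) (η : Ed → ℝ) (s : Pt) : Set Pt := {x | Rch {y | ¬Cln D η y} s x}

/-- The parity of the centres of a plaquette. -/
def lab (t : Pt → Fin 3) (p : Pt) : ℤ := (p.1 + p.2 + (t p : ℕ)) % 2

/-- The common height of the two corners of a plaquette that are not centres. -/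
noncomputable def lev (η : Ed → ℝ) (p : Pt) : ℝ :=
  if ty η p = 0 then pot η (p.1 + 1, p.2) else pot η p

/-- Label and level. -/
noncomputable def LL (η : Ed → ℝ) (p : Pt) : ℤ × ℝ := (lab (ty η) p, lev η p)

/-- The centres of the components of the complement of `G`. -/
def ctr (G : Set Pt) (t : Pt → Fin 3) : Set Pt := {x | x ∉ G ∧ (x.1 + x.2) % 2 = lab t (bd G x)}

variable {V : Finset Pt} {D : Set Pt} {S : Finset ℝ} {η : Ed → ℝ} {s : Pt}

lemma Dp.pl (h : Dp V D) {x p : Pt} (hx : x ∈ D) (hp : Cor p x) : Pl V p :=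
  h.deep (x.1 + 1, x.2) (by simpa [lf] using hx) p (.inr (by simpa [lf] using hp))

lemma Dp.star (h : Dp V D) {x : Pt} (hx : x ∈ D) {e : Ed} (he : e ∈ star x) :
    e ∈ edges V ∧ Inn (Pl V) e := pl_of_cor (fun _ => h.pl hx) (mem_star.1 he)

lemma Dp.mem (h : Dp V D) {x : Pt} (hx : x ∈ D) : x ∈ V := (h.pl hx ⟨.inl rfl, .inl rfl⟩).1

lemma Dp.adj (h : Dp V D) {x y : Pt} (hx : x ∈ D) (hy : Adj x y) : y ∈ V := by
  obtain ⟨e, ⟨a, rfl⟩ | ⟨rfl, a⟩⟩ := hy.edge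
  exacts [(mem_edges.1 (h.star hx (mem_star.2 (.inl a))).1).2,
    (mem_edges.1 (h.star hx (mem_star.2 (.inr a))).1).1]

lemma Dp.pot (h : Dp V D) (hη : η ∈ Om V S) {e : Ed} (he : e ∈ edges V) :
    pot η (tip e) = pot η e.1 + η e :=
  pot_tip (I := (· ∈ V)) h.conv (fun p a b c d => (mem_Om.1 hη).2.2 p ⟨a, b, c, d⟩) e
    (mem_edges.1 he).1 (mem_edges.1 he).2

lemma pot_zero (h : Dp V D) (hη : η ∈ Om V S) {p : Pt} (hp : Pl V p) (ht : ty η p = 0) :
    pot η (p.1 + 1, p.2) = pot η (p.1, p.2 + 1) := by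
  have a := h.pot hη (e := (p, false)) (mem_edges.2 ⟨hp.1, hp.2.1⟩)
  have b := h.pot hη (e := (p, true)) (mem_edges.2 ⟨hp.1, hp.2.2.1⟩)
  simp only [tip_true, tip_false] at a b
  rw [a, b, (ty_zero ht).1]

lemma pot_one (h : Dp V D) (hη : η ∈ Om V S) {p : Pt} (hp : Pl V p) (ht : ty η p = 1) :
    pot η (p.1 + 1, p.2 + 1) = pot η p := by
  have a := h.pot hη (e := (p, false)) (mem_edges.2 ⟨hp.1, hp.2.1⟩)
  have b := h.pot hη (e := ((p.1 + 1, p.2), true)) (mem_edges.2 ⟨hp.2.1, hp.2.2.2⟩)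
  simp only [tip_true, tip_false] at a b
  rw [b, a, (ty_one ht).1]; ring

lemma agr_LL (h : Dp V D) (hη : η ∈ Om V S) {e : Ed} (h1 : Inn (Pl V) e) (h2 : Agr (ty η) e) :
    LL η (plq (e, false)) = LL η e.1 ∧ ty η e.1 ≠ 2 ∧ ty η (plq (e, false)) ≠ 2 := by
  have a1 := pot_zero h hη h1.1
  have a2 := pot_one h hη h1.1
  have a3 := pot_zero h hη h1.2
  have a4 := pot_one h hη h1.2
  have a5 : plq (e, true) = e.1 := rfl
  simp only [Agr, LL, lab, lev, a5, Prod.mk.injEq] at *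
  generalize ty η e.1 = u, ty η (plq (e, false)) = v at *
  rcases e with ⟨⟨i, j⟩, _ | _⟩ <;> fin_cases u <;> fin_cases v <;> simp_all [plq] <;> omega

lemma Cln.LL (h : Dp V D) (hη : η ∈ Om V S) {x p : Pt} (hx : Cln D η x) (hp : Cor p x) :
    LL η p = LL η x ∧ ty η p ≠ 2 := by
  have a := fun e (he : e ∈ star x) => agr_LL h hη (h.star hx.1 he).2 (hx.2 e he).1
  have a1 := a (x, false) (by simp [star])
  have a2 := a (x, true) (by simp [star])
  have a3 := a ((x.1 - 1, x.2), false) (by simp [star])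
  rcases p with ⟨i, j⟩
  rcases x with ⟨k, l⟩
  simp only [plq, Cor, Bool.false_eq_true, if_false, if_true] at *
  obtain ⟨rfl | rfl, rfl | rfl⟩ := hp <;> simp_all

lemma clu_nb (hs : ¬Cln D η s) {x : Pt} (hx : Nb (Clu D η s) x) : Cln D η x := by
  obtain ⟨a, g, b, c⟩ := hx
  exact by_contra fun d => a (Rch.trans b (.step c.symm (Rch.mem b hs) d))

lemma clu_conn {g : Pt} (hg : g ∈ Clu D η s) : Rch (Clu D η s) s g := Rch.sub hg fun _ h => h

lemma clu_self : s ∈ Clu D η s := Rch.refl s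

lemma clu_bd (h : Dp V D) (hη : η ∈ Om V S) (hs : ¬Cln D η s) {x y : Pt} (hx : x ∉ Clu D η s)
    (hxy : Rch (Clu D η s)ᶜ x y) (hy : Nb (Clu D η s) y) : LL η (bd (Clu D η s) x) = LL η y :=
  bd_eq clu_self (fun _ => clu_conn) (LL η) (fun _ _ _ a b c d =>
    ((clu_nb hs c).LL h hη a).1.symm.trans ((clu_nb hs d).LL h hη b).1) hx hxy hy

lemma clu_rch (h : Dp V D) (hη : η ∈ Om V S) (hs : ¬Cln D η s) {x y : Pt} (hx : x ∉ Clu D η s)
    (hxy : Rch (Clu D η s)ᶜ x y) : LL η (bd (Clu D η s) x) = LL η (bd (Clu D η s) y) :=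
  have a := bd_spec ⟨s, clu_self⟩ (hxy.mem hx)
  clu_bd h hη hs hx (hxy.trans a.1) a.2

lemma clu_adj (h : Dp V D) (hη : η ∈ Om V S) (hs : ¬Cln D η s) {x y : Pt} (hx : x ∉ Clu D η s)
    (hy : y ∉ Clu D η s) (hxy : Adj x y) :
    LL η (bd (Clu D η s) x) = LL η (bd (Clu D η s) y) := clu_rch h hη hs hx (.step hxy hx hy)

lemma clu_eff (h : Dp V D) (hη : η ∈ Om V S) (hs : ¬Cln D η s) {x g p : Pt} (hx : x ∉ Clu D η s)
    (hg : g ∈ Clu D η s) (h1 : Cor p x) (h2 : Cor p g) :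
    LL η p = LL η (bd (Clu D η s) x) ∧ ty η p ≠ 2 := by
  obtain ⟨y, a, b, c⟩ : ∃ y, Cor p y ∧ Rch (Clu D η s)ᶜ x y ∧ Nb (Clu D η s) y := by
    by_cases a : Adj x g
    · exact ⟨x, h1, .refl _, hx, g, hg, a⟩
    have b : x ≠ g := fun b => hx (b ▸ hg)
    have c : Adj x (g.1, x.2) ∧ Adj (g.1, x.2) g := by
      simp only [Adj, Cor, Ne, Prod.ext_iff] at *; omega
    by_cases d : (g.1, x.2) ∈ Clu D η s
    · exact ⟨x, h1, .refl _, hx, _, d, c.1⟩
    · exact ⟨(g.1, x.2), ⟨h2.1, h1.2⟩, .step c.1 hx d, d, g, hg, c.2⟩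
  exact ((clu_nb hs c).LL h hη a).imp (fun d => d.trans (clu_bd h hη hs hx b c).symm) id

lemma ctr_ind (h : Dp V D) (hη : η ∈ Om V S) (hs : ¬Cln D η s) (x y : Pt) (a : Adj x y)
    (hx : x ∈ ctr (Clu D η s) (ty η)) : y ∉ ctr (Clu D η s) (ty η) := fun hy => by
  have := congrArg Prod.fst (clu_adj h hη hs hx.1 hy.1 a)
  have := hx.2
  have := hy.2
  simp only [LL, Adj] at *
  omega

lemma ctr_cen (h : Dp V D) (hη : η ∈ Om V S) (hs : ¬Cln D η s) (p : Pt) :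
    Cen (ctr (Clu D η s) (ty η)) (ty η) p := by
  have a : ∀ x y, Cor p x → Cor p y → x.1 ≠ y.1 → x.2 ≠ y.2 → x ∈ ctr (Clu D η s) (ty η) →
      y ∉ ctr (Clu D η s) (ty η) → (x.1 + x.2) % 2 = lab (ty η) p ∧ ty η p ≠ 2 := by
    intro x y b c d e f g
    obtain ⟨z, k, l⟩ : ∃ z ∈ Clu D η s, Cor p z := by
      by_contra! k
      have l := clu_adj h hη hs f.1 (fun l => k (y.1, x.2) l ⟨c.1, b.2⟩) (by
        simp only [Adj, Cor] at *; omega)
      have m := clu_adj h hη hs (fun l => k (y.1, x.2) l ⟨c.1, b.2⟩) (fun l => k y l c) (by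
        simp only [Adj, Cor] at *; omega)
      refine g ⟨fun l => k y l c, ?_⟩
      have := congrArg Prod.fst (l.trans m)
      have := f.2
      simp only [LL, Cor] at *
      omega
    exact (clu_eff h hη hs f.1 k b l).imp (fun m => f.2.trans (congrArg Prod.fst m).symm) id
  constructor <;> intro b
  · have : (p.1 + p.2) % 2 = lab (ty η) p ∧ ty η p ≠ 2 := by
      by_cases c : p ∈ ctr (Clu D η s) (ty η)
      · exact a p (p.1 + 1, p.2 + 1) (by simp [Cor]) (by simp [Cor]) (by simp) (by simp) c (by tauto)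
      · exact (a (p.1 + 1, p.2 + 1) p (by simp [Cor]) (by simp [Cor]) (by simp) (by simp) (by tauto)
          c).imp (fun _ => by dsimp only at *; omega) id
    unfold lab at this
    omega
  · have : (p.1 + p.2 + 1) % 2 = lab (ty η) p ∧ ty η p ≠ 2 := by
      by_cases c : (p.1 + 1, p.2) ∈ ctr (Clu D η s) (ty η)
      · exact (a _ (p.1, p.2 + 1) (by simp [Cor]) (by simp [Cor]) (by simp) (by simp) c
          (by tauto)).imp (fun _ => by dsimp only at *; omega) id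
      · exact (a (p.1, p.2 + 1) _ (by simp [Cor]) (by simp [Cor]) (by simp) (by simp) (by tauto)
          c).imp (fun _ => by dsimp only at *; omega) id
    unfold lab at this
    omega

lemma rest_clu (h : Dp V D) (hη : η ∈ Om V S) (hs : ¬Cln D η s) {e : Ed}
    (he : e ∈ rest V (ctr (Clu D η s) (ty η))) : e.1 ∈ Clu D η s ∨ tip e ∈ Clu D η s := by
  by_contra! a
  have b := congrArg Prod.fst (clu_adj h hη hs a.1 a.2 (adj_tip e))
  have c := adj_tip e
  have d := (mem_rest.1 he).2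
  simp only [ctr, Set.mem_ofPred_eq, a.1, a.2, not_false_eq_true, true_and, LL, lab, Adj] at b c d
  omega

lemma bad_edge (h : Dp V D) (hs : ¬Cln D η s) {x : Pt} (hx : x ∈ Clu D η s) (hd : x ∈ D) :
    ∃ e ∈ star x, e ∈ rest V (ctr (Clu D η s) (ty η)) ∧ (Dfc (Pl V) (ty η) e ∨ η e = 0) := by
  have a : ¬Cln D η x := Rch.mem hx hs
  simp only [Cln, hd, true_and, not_forall] at a
  obtain ⟨e, b, c⟩ := a
  have d := h.star hd b
  have f : ∀ y, e.1 = y ∨ tip e = y → y ∉ ctr (Clu D η s) (ty η) := fun y k l => by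
    refine c ((clu_nb hs ⟨l.1, x, hx, ?_⟩).2 e (mem_star.2 k))
    have m : y ≠ x := fun m => l.1 (m ▸ hx)
    have n := adj_tip e
    rcases mem_star.1 b with rfl | rfl <;> rcases k with rfl | rfl
    exacts [absurd rfl m, n.symm, n, absurd rfl m]
  refine ⟨e, b, mem_filter.2 ⟨d.1, f _ (.inl rfl), f _ (.inr rfl)⟩, ?_⟩
  by_cases k : η e = 0
  exacts [.inr k, .inl ⟨d.2, .inl fun l => c ⟨l, k⟩⟩]

lemma card_deep (h : Dp V D) (hs : ¬Cln D η s) {A : ℕ} (hA : 1 ≤ A) :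
    #(V.filter fun x => x ∈ Clu D η s ∧ x ∈ D) ≤ 2 * enr V (ctr (Clu D η s) (ty η)) A η := by
  set G := rest V (ctr (Clu D η s) (ty η))
  have a : (V.filter fun x => x ∈ Clu D η s ∧ x ∈ D) ⊆ (G.filter (Dfc (Pl V) (ty η)) ∪
      G.filter fun e => η e = 0).biUnion fun e => {e.1, tip e} := fun x hx => by
    obtain ⟨e, b, c, d⟩ := bad_edge h hs (mem_filter.1 hx).2.1 (mem_filter.1 hx).2.2
    refine mem_biUnion.2 ⟨e, by simpa [← filter_or] using ⟨c, d⟩, ?_⟩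
    rcases mem_star.1 b with rfl | rfl <;> simp
  have b := (card_le_card a).trans (card_biUnion_le_card_mul _ _ 2 fun _ _ => card_le_two)
  have c := card_union_le (G.filter (Dfc (Pl V) (ty η))) (G.filter fun e => η e = 0)
  unfold enr
  nlinarith

end Pool.Agent.Lib.MP_7c4eee_pr
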