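import Pool.Agent.Lib.MP_7c4eee_pr.H32Class

/-!
Curl free configurations with values in a Sidon set, and the types of their plaquettes.
-/

namespace Pool.Agent.Lib.MP_7c4eee_pr

open Finset

section fns

variable {α β : Type*} [DecidableEq α] [Zero β]

/-- Extension by zero. -/
def ext0 (A : Finset α) (p : A → β) (a : α) : β := if h : a ∈ A then p ⟨a, h⟩ else 0

lemma ext0_inj (A : Finset α) : Function.Injective (ext0 A : (A → β) → α → β) :=
  fun p q h => funext fun a => by simpa [ext0, a.2] using congrFun h a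

/-- Functions supported in `A` with values in `S` on `A`. -/
def fns (A : Finset α) (S : Finset β) : Finset (α → β) :=
  (Fintype.piFinset fun _ : A => S).map ⟨ext0 A, ext0_inj A⟩

lemma mem_fns {A : Finset α} {S : Finset β} {η : α → β} :
    η ∈ fns A S ↔ (∀ a ∈ A, η a ∈ S) ∧ ∀ a ∉ A, η a = 0 := by
  simp only [fns, mem_map, Fintype.mem_piFinset, Function.Embedding.coeFn_mk]
  constructor
  · rintro ⟨p, hp, rfl⟩
    exact ⟨fun a ha => by simpa [ext0, ha] using hp ⟨a, ha⟩, fun a ha => by simp [ext0, ha]⟩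
  · rintro ⟨h1, h2⟩
    refine ⟨fun a => η a, fun a => h1 a a.2, funext fun a => ?_⟩
    unfold ext0
    split_ifs with h
    exacts [rfl, (h2 a h).symm]

lemma card_fns (A : Finset α) (S : Finset β) : #(fns A S) = #S ^ #A := by
  simp [fns, Fintype.card_piFinset]

lemma prod_sum_fns (A : Finset α) (S : Finset β) (f : α → β → ℝ) :
    ∏ a ∈ A, ∑ s ∈ S, f a s = ∑ η ∈ fns A S, ∏ a ∈ A, f a (η a) := by
  rw [fns, sum_map, ← prod_coe_sort A, prod_univ_sum]
  refine sum_congr rfl fun p _ => ?_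
  rw [← prod_coe_sort A]
  exact prod_congr rfl fun a _ => by simp [ext0, a.2]

end fns

/-- Edges with both ends in `V`. -/
def edges (V : Finset Pt) : Finset Ed := (V ×ˢ univ).filter fun e => tip e ∈ V

lemma mem_edges {V : Finset Pt} {e : Ed} : e ∈ edges V ↔ e.1 ∈ V ∧ tip e ∈ V := by
  simp [edges]

/-- Plaquettes with all corners in `V`. -/
def Pl (V : Finset Pt) (p : Pt) : Prop :=
  p ∈ V ∧ (p.1 + 1, p.2) ∈ V ∧ (p.1, p.2 + 1) ∈ V ∧ (p.1 + 1, p.2 + 1) ∈ V

open Classical in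
/-- Curl free configurations on the edges of `V` with values in `S`. -/
noncomputable def Om (V : Finset Pt) (S : Finset ℝ) : Finset (Ed → ℝ) :=
  (fns (edges V) S).filter fun η => ∀ p, Pl V p → Curl η p

lemma mem_Om {V : Finset Pt} {S : Finset ℝ} {η : Ed → ℝ} : η ∈ Om V S ↔
    (∀ e ∈ edges V, η e ∈ S) ∧ (∀ e ∉ edges V, η e = 0) ∧ ∀ p, Pl V p → Curl η p := by
  simp only [Om, mem_filter, mem_fns, and_assoc]

/-- The properties of the set of allowed increments. -/
structure Sidon (S : Finset ℝ) (τ : ℝ) : Prop where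
  zero : 0 ∈ S
  neg : ∀ s ∈ S, -s ∈ S
  size : ∀ s ∈ S, s ≠ 0 → 1 ≤ |s| ∧ |s| ≤ 1 + τ
  tri : ∀ a ∈ S, ∀ b ∈ S, ∀ c ∈ S, ∀ d ∈ S, a + b = c + d →
    (a = c ∧ b = d) ∨ (a = -b ∧ c = -d) ∨ (a = d ∧ b = c)

open Classical in
/-- The type of a plaquette. -/
noncomputable def ty (η : Ed → ℝ) (p : Pt) : Fin 3 :=
  if η (p, false) = η (p, true) ∧ η ((p.1 + 1, p.2), true) = η ((p.1, p.2 + 1), false) then 0
  else if η (p, false) = -η ((p.1 + 1, p.2), true) ∧ η (p, true) = -η ((p.1, p.2 + 1), false) then 1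
  else 2

lemma ty_zero {η : Ed → ℝ} {p : Pt} (h : ty η p = 0) :
    η (p, false) = η (p, true) ∧ η ((p.1 + 1, p.2), true) = η ((p.1, p.2 + 1), false) := by
  unfold ty at h
  split_ifs at h with h1 h2
  exacts [h1, absurd h (by decide), absurd h (by decide)]

lemma ty_one {η : Ed → ℝ} {p : Pt} (h : ty η p = 1) :
    η (p, false) = -η ((p.1 + 1, p.2), true) ∧ η (p, true) = -η ((p.1, p.2 + 1), false) := by
  unfold ty at h
  split_ifs at h with h1 h2
  exacts [absurd h (by decide), h2, absurd h (by decide)]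

lemma ty_two {V : Finset Pt} {S : Finset ℝ} {τ : ℝ} (hS : Sidon S τ) {η : Ed → ℝ} (hη : η ∈ Om V S)
    {p : Pt} (hp : Pl V p) (h : ty η p = 2) :
    η (p, false) = η ((p.1, p.2 + 1), false) ∧ η ((p.1 + 1, p.2), true) = η (p, true) := by
  obtain ⟨h1, -, h2⟩ := mem_Om.1 hη
  have := hS.tri _ (h1 (p, false) (mem_edges.2 ⟨hp.1, hp.2.1⟩))
    _ (h1 ((p.1 + 1, p.2), true) (mem_edges.2 ⟨hp.2.1, hp.2.2.2⟩))
    _ (h1 (p, true) (mem_edges.2 ⟨hp.1, hp.2.2.1⟩))
    _ (h1 ((p.1, p.2 + 1), false) (mem_edges.2 ⟨hp.2.2.1, hp.2.2.2⟩)) (h2 p hp)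
  unfold ty at h
  split_ifs at h with h3 h4
  exacts [absurd h (by decide), absurd h (by decide), (this.resolve_left h3).resolve_left h4]

lemma ptn_val {V : Finset Pt} {S : Finset ℝ} {τ : ℝ} (hS : Sidon S τ) {η : Ed → ℝ}
    (hη : η ∈ Om V S) {d : Ed × Bool} (hd : Pl V (plq d)) :
    η (ptn (ty η) d).1 = (if ty η (plq d) = 1 then -1 else 1) * η d.1 := by
  have h0 := @ty_zero η (plq d)
  have h1 := @ty_one η (plq d)
  have h2 := ty_two hS hη hd
  conv_rhs => rw [← side_plq d, plq_side]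
  unfold ptn
  generalize plq d = p, slot d = k at *
  generalize ty η p = u at *
  fin_cases u <;> fin_cases k <;> simp_all [side, mate]

/-- An isolated diagonal corner in `K` is a centre of the plaquette. -/
def Cen (K : Set Pt) (t : Pt → Fin 3) (p : Pt) : Prop :=
  (¬(p ∈ K ↔ (p.1 + 1, p.2 + 1) ∈ K) → t p = 0) ∧
    (¬((p.1 + 1, p.2) ∈ K ↔ (p.1, p.2 + 1) ∈ K) → t p = 1)

open Classical in
/-- The edges of `V` with no end in `K`. -/
noncomputable def rest (V : Finset Pt) (K : Set Pt) : Finset Ed :=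
  (edges V).filter fun e => e.1 ∉ K ∧ tip e ∉ K

lemma mem_rest {V : Finset Pt} {K : Set Pt} {e : Ed} :
    e ∈ rest V K ↔ (e.1 ∈ V ∧ tip e ∈ V) ∧ e.1 ∉ K ∧ tip e ∉ K := by
  simp only [rest, mem_filter, mem_edges]

lemma rest_closed {V : Finset Pt} {K : Set Pt} {t : Pt → Fin 3} {d : Ed × Bool}
    (hd : d.1 ∈ rest V K) (hp : Pl V (plq d)) (h : Cen K t (plq d)) : (ptn t d).1 ∈ rest V K := by
  rw [← side_plq d] at hd
  unfold ptn
  unfold Cen at h
  generalize plq d = p, slot d = k at *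
  generalize t p = u at *
  obtain ⟨a, b, c, e⟩ := hp
  fin_cases u <;> fin_cases k <;> simp_all [side, mate, mem_rest]

/-- The four edges at a point. -/
def star (x : Pt) : Finset Ed :=
  {(x, false), (x, true), ((x.1 - 1, x.2), false), ((x.1, x.2 - 1), true)}

lemma mem_star {x : Pt} {e : Ed} : e ∈ star x ↔ e.1 = x ∨ tip e = x := by
  rcases e with ⟨⟨i, j⟩, _ | _⟩ <;> simp [star, Prod.ext_iff] <;> omega

lemma card_star (x : Pt) : #(star x) ≤ 4 := card_le_four

end Pool.Agent.Lib.MP_7c4eee_pr
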