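import Pool.Agent.Lib.MP_7c4eee_pr.H32Geo

/-!
The smooth dumbbell domain and its lattice approximations.
-/

namespace Pool.Agent.Lib.MP_7c4eee_pr

open Real Filter Topology
open scoped ContDiff

/-- A smooth version of the absolute value. -/
noncomputable def rho (y : ℝ) : ℝ :=
  y * (smoothTransition (y + 1 / 2) - smoothTransition (-y + 1 / 2))

lemma rho_neg (y : ℝ) : rho (-y) = rho y := by simp only [rho, neg_neg]; ring

lemma rho_abs (y : ℝ) : rho |y| = rho y := by
  rcases abs_choice y with h | h <;> rw [h]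
  exact rho_neg y

lemma rho_pos {y : ℝ} (h : 1 / 2 ≤ y) : rho y = y := by
  rw [rho, smoothTransition.one_of_one_le (by linarith),
    smoothTransition.zero_of_nonpos (by linarith)]
  ring

lemma rho_of_neg {y : ℝ} (h : y ≤ -1 / 2) : rho y = -y := by
  rw [← rho_neg, rho_pos (by linarith)]

lemma rho_mono {y z : ℝ} (h : |y| ≤ |z|) : rho y ≤ rho z := by
  rw [← rho_abs y, ← rho_abs z]
  have a := abs_nonneg y
  have b := smoothTransition.monotone (show -|y| + 1 / 2 ≤ |y| + 1 / 2 by linarith)
  have c := smoothTransition.monotone (show |y| + 1 / 2 ≤ |z| + 1 / 2 by linarith)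
  have d := smoothTransition.monotone (show -|z| + 1 / 2 ≤ -|y| + 1 / 2 by linarith)
  exact mul_le_mul h (by linarith) (by linarith) (abs_nonneg z)

lemma rho_zero : rho 0 = 0 := by simp [rho]

lemma rho_nonneg (y : ℝ) : 0 ≤ rho y := rho_zero.ge.trans (rho_mono (by simp))

lemma rho_le (y : ℝ) : rho y ≤ |y| := by
  rw [← rho_abs y]
  exact mul_le_of_le_one_right (abs_nonneg y) (by
    linarith [smoothTransition.le_one (|y| + 1 / 2), smoothTransition.nonneg (-|y| + 1 / 2)])

lemma rho_smooth : ContDiff ℝ ∞ rho :=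
  contDiff_id.mul ((smoothTransition.contDiff.comp (by fun_prop)).sub
    (smoothTransition.contDiff.comp (by fun_prop)))

/-- The profile of the dumbbell. -/
noncomputable def bet (x : ℝ) : ℝ := 8005 / 2 - rho (x + 2000) + rho (x + 1 / 2) - rho (x - 2000)

lemma bet_left {x : ℝ} (h : x ≤ -1) : bet x = 2002 - rho (x + 2000) := by
  rw [bet, rho_of_neg (y := x + 1 / 2) (by linarith), rho_of_neg (y := x - 2000) (by linarith)]
  ring

lemma bet_right {x : ℝ} (h : 0 ≤ x) : bet x = 2003 - rho (x - 2000) := by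
  rw [bet, rho_pos (y := x + 1 / 2) (by linarith), rho_pos (y := x + 2000) (by linarith)]
  ring

lemma bet_mid {x : ℝ} (h : -1 ≤ x) (h' : x ≤ 1) : bet x = 5 / 2 + rho (x + 1 / 2) := by
  rw [bet, rho_pos (y := x + 2000) (by linarith), rho_of_neg (y := x - 2000) (by linarith)]
  ring

lemma bet_far {x : ℝ} : (x ≤ -2001 → bet x = x + 4002) ∧ (2001 ≤ x → bet x = 4003 - x) :=
  ⟨fun h => by rw [bet_left (by linarith), rho_of_neg (by linarith)]; ring,
    fun h => by rw [bet_right (by linarith), rho_pos (by linarith)]; ring⟩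

lemma bet_ge (x : ℝ) : min 1 (min (x + 4002) (4003 - x)) ≤ bet x := by
  simp only [min_le_iff]
  rcases le_total x (-1) with h | h
  · have := rho_le (x + 2000)
    rw [bet_left h]
    rcases abs_cases (x + 2000) with a | a
    exacts [.inl (by linarith), .inr (.inl (by linarith))]
  rcases le_total x 0 with h' | h'
  · rw [bet_mid h (by linarith)]
    exact .inl (by linarith [rho_nonneg (x + 1 / 2)])
  · have := rho_le (x - 2000)
    rw [bet_right h']
    rcases abs_cases (x - 2000) with a | a
    exacts [.inr (.inr (by linarith)), .inl (by linarith)]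

lemma bet_le (x : ℝ) : bet x ≤ 2003 := by
  rcases le_total x (-1) with h | h
  · linarith [bet_left h, rho_nonneg (x + 2000)]
  rcases le_total x 0 with h' | h'
  · have : |x + 1 / 2| ≤ 1 := abs_le.2 ⟨by linarith, by linarith⟩
    linarith [bet_mid h (by linarith), rho_le (x + 1 / 2)]
  · linarith [bet_right h', rho_nonneg (x - 2000)]

lemma bet_pos {x : ℝ} : 0 < bet x ↔ -4002 < x ∧ x < 4003 :=
  ⟨fun h => ⟨by_contra fun a => by linarith [bet_far.1 (show x ≤ -2001 by linarith)],
    by_contra fun a => by linarith [bet_far.2 (show 2001 ≤ x by linarith)]⟩,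
    fun h => lt_of_lt_of_le (by simp only [lt_min_iff]; exact ⟨one_pos, by linarith, by linarith⟩)
      (bet_ge x)⟩

/-- The defining function of the dumbbell. -/
noncomputable def dfn (z : ℂ) : ℝ := rho z.im - bet z.re

lemma dfn_smooth : ContDiff ℝ ∞ dfn := by
  have a := Complex.reCLM.contDiff (n := ∞)
  exact (rho_smooth.comp Complex.imCLM.contDiff).sub (((contDiff_const.sub (rho_smooth.comp
    (a.add contDiff_const))).add (rho_smooth.comp (a.add contDiff_const))).sub
    (rho_smooth.comp (a.sub contDiff_const)))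

lemma dfn_bounded : Bornology.IsBounded {z | dfn z < 0} := by
  refine isBounded_iff_forall_norm_le.2 ⟨7000, fun z h => ?_⟩
  have a : rho z.im < bet z.re := sub_neg.1 h
  have b := bet_pos.1 ((rho_nonneg _).trans_lt a)
  have c : |z.im| ≤ 2003 := by
    by_contra d
    linarith [rho_abs z.im, rho_pos (y := |z.im|) (by linarith), bet_le z.re]
  have d : |z.re| ≤ 4003 := abs_le.2 ⟨by linarith, by linarith⟩
  linarith [Complex.norm_le_abs_re_add_abs_im z]

lemma dfn_regular {z : ℂ} (h : dfn z = 0) : fderiv ℝ dfn z ≠ 0 := fun a => by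
  have b : ∀ (v : ℂ) (s : ℝ), (∀ t : ℝ, |t| < 1 / 2 → dfn (z + t • v) = s * t) → s = 0 := by
    intro v s c
    have d : HasDerivAt (fun t : ℝ => z + t • v) v 0 := by
      simpa using ((hasDerivAt_id (0 : ℝ)).smul_const v).const_add z
    have e := (dfn_smooth.differentiable (by simp) z).hasFDerivAt.comp_hasDerivAt_of_eq 0 d (by simp)
    rw [a] at e
    refine ((by simpa using (hasDerivAt_id (0 : ℝ)).const_mul s :
      HasDerivAt (fun t => s * t) s 0).congr_of_eventuallyEq ?_).unique e
    filter_upwards [Metric.ball_mem_nhds (0 : ℝ) one_half_pos] with t f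
    exact c t (by simpa using f)
  unfold dfn at h b
  by_cases c : 1 ≤ z.im
  · refine one_ne_zero (b Complex.I 1 fun t d => ?_)
    rw [rho_pos (by linarith)] at h
    simp only [Complex.add_im, Complex.add_re, Complex.smul_im, Complex.smul_re, Complex.I_im,
      Complex.I_re, smul_eq_mul, mul_zero, add_zero, mul_one]
    rw [rho_pos (by linarith [abs_lt.1 d])]; linarith
  by_cases d : z.im ≤ -1
  · refine (neg_ne_zero.2 one_ne_zero) (b Complex.I (-1) fun t e => ?_)
    rw [rho_of_neg (by linarith)] at h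
    simp only [Complex.add_im, Complex.add_re, Complex.smul_im, Complex.smul_re, Complex.I_im,
      Complex.I_re, smul_eq_mul, mul_zero, add_zero, mul_one]
    rw [rho_of_neg (by linarith [abs_lt.1 e])]; linarith
  have e : |z.im| < 1 := abs_lt.2 ⟨by linarith, by linarith⟩
  have f := (bet_ge z.re).trans_lt (show bet z.re < 1 by linarith [rho_le z.im])
  simp only [min_lt_iff, lt_self_iff_false, false_or] at f
  rcases f with f | f
  · refine (neg_ne_zero.2 one_ne_zero) (b 1 (-1) fun t k => ?_)
    rw [bet_far.1 (by linarith)] at h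
    simp only [Complex.add_im, Complex.add_re, Complex.smul_im, Complex.smul_re, Complex.one_im,
      Complex.one_re, smul_eq_mul, mul_zero, add_zero, mul_one]
    rw [bet_far.1 (by linarith [abs_lt.1 k])]; linarith
  · refine one_ne_zero (b 1 1 fun t k => ?_)
    rw [bet_far.2 (by linarith)] at h
    simp only [Complex.add_im, Complex.add_re, Complex.smul_im, Complex.smul_re, Complex.one_im,
      Complex.one_re, smul_eq_mul, mul_zero, add_zero, mul_one]
    rw [bet_far.2 (by linarith [abs_lt.1 k])]; linarith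

lemma dfn_simply : IsSimplyConnected {z | dfn z < 0} := by
  have a : ∀ z : ℂ, dfn z < 0 → ∀ t : ℝ, 0 ≤ t → t ≤ 1 →
      dfn (↑(z.re * min 1 (2 - 2 * t)) + ↑(z.im * max 0 (1 - 2 * t)) * Complex.I) < 0 := by
    intro z h t b c
    have d : rho z.im < bet z.re := sub_neg.1 h
    simp only [dfn, Complex.add_im, Complex.add_re, Complex.ofReal_im, Complex.ofReal_re,
      Complex.mul_I_re, Complex.mul_I_im, zero_add, neg_zero, add_zero, sub_neg]
    rcases le_total t (1 / 2) with e | e
    · rw [min_eq_left (by linarith), max_eq_right (by linarith), mul_one]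
      refine (rho_mono ?_).trans_lt d
      rw [abs_mul, abs_of_nonneg (show 0 ≤ 1 - 2 * t by linarith)]
      nlinarith [abs_nonneg z.im]
    · rw [min_eq_right (by linarith), max_eq_left (by linarith), mul_zero, rho_zero, bet_pos]
      have f := bet_pos.1 ((rho_nonneg _).trans_lt d)
      constructor <;> nlinarith
  have : ContractibleSpace {z | dfn z < 0} := (contractible_iff_id_nullhomotopic _).2
    ⟨⟨0, by simp [dfn, rho_zero, bet_pos]⟩, ⟨⟨⟨fun p => ⟨_, a p.2.1 p.2.2 p.1.1 p.1.2.1 p.1.2.2⟩,
      by fun_prop⟩, fun x => by simp, fun x => by norm_num⟩⟩⟩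
  exact SimplyConnectedSpace.ofContractible _

lemma exists_hgt {n : ℕ} (hn : 0 < n) (i : ℤ) :
    ∃ B : ℤ, -1 ≤ B ∧ ∀ j : ℤ, rho (j / n) < bet (i / n) ↔ -B ≤ j ∧ j ≤ B := by
  classical
  have n0 : (0 : ℝ) < n := by exact_mod_cast hn
  have ex : ∃ j : ℕ, bet (i / n) ≤ rho (j / n) := ⟨2003 * n, by
    rw [Nat.cast_mul, mul_div_cancel_right₀ _ n0.ne', rho_pos (by norm_num)]
    exact_mod_cast bet_le _⟩
  have a : ∀ j : ℤ, rho (j / n) = rho (j.natAbs / n) := fun j => by
    rw [← rho_abs, abs_div, abs_of_pos n0, Nat.cast_natAbs, Int.cast_abs]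
  refine ⟨Nat.find ex - 1, by omega, fun j => ?_⟩
  rw [a, show (-((Nat.find ex : ℤ) - 1) ≤ j ∧ j ≤ Nat.find ex - 1) ↔ j.natAbs < Nat.find ex by omega]
  refine ⟨fun b => by_contra fun c => b.not_ge ((Nat.find_spec ex).trans (rho_mono ?_)),
    fun b => not_le.1 (Nat.find_min ex b)⟩
  rw [abs_of_nonneg (by positivity), abs_of_nonneg (by positivity)]
  gcongr
  omega

lemma exists_geo {n : ℕ} (hn : n % 2 = 1) {V : Finset Pt}
    (hV : ∀ x, x ∈ V ↔ rho (x.2 / n) < bet (x.1 / n)) : ∃ b m, Geo n b m V := by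
  have n0 : (0 : ℝ) < n := by exact_mod_cast (by omega : 0 < n)
  choose b b1 b2 using exists_hgt (n := n) (by omega)
  have lo : ∀ i L : ℤ, (L : ℝ) / n < bet (i / n) → L ≤ b i := fun i L h => by
    by_cases c : L < 0
    · have := b1 i; omega
    · exact ((b2 i L).1 (((rho_le _).trans (abs_of_nonneg (div_nonneg
        (by exact_mod_cast not_lt.1 c) n0.le)).le).trans_lt h)).2
  have hi : ∀ i L : ℤ, n ≤ 2 * L → bet (i / n) ≤ L / n → b i ≤ L - 1 := fun i L h k => by
    by_contra c
    have d := (b2 i L).2 (by omega)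
    rw [rho_pos] at d
    · exact d.not_ge k
    · rw [le_div_iff₀ n0]
      have : (n : ℝ) ≤ 2 * L := by exact_mod_cast h
      linarith
  have mo : ∀ i k : ℤ, bet (i / n) ≤ bet (k / n) → b i ≤ b k := fun i k h => by
    by_cases c : b i < 0
    · have := b1 k; omega
    · exact ((b2 k _).1 (((b2 i (b i)).2 (by omega)).trans_le h)).2
  have le : ∀ (i k : ℤ) (c : ℝ), (k : ℝ) = c → i ≤ k * n → (i : ℝ) / n ≤ c := fun i k c e h => by
    rw [div_le_iff₀ n0, ← e]; exact_mod_cast h
  have ge : ∀ (i k : ℤ) (c : ℝ), (k : ℝ) = c → k * n ≤ i → c ≤ (i : ℝ) / n := fun i k c e h => by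
    rw [le_div_iff₀ n0, ← e]; exact_mod_cast h
  have rm : ∀ (i k u : ℤ) (c : ℝ), (u : ℝ) / 2 = c → (2 * i + u * n).natAbs ≤ (2 * k + u * n).natAbs →
      rho (i / n + c) ≤ rho (k / n + c) := fun i k u c e h => rho_mono (by
    have f : ∀ i : ℤ, |(i : ℝ) / n + c| = ((2 * i + u * n).natAbs : ℝ) / (2 * n) := fun i => by
      rw [Nat.cast_natAbs, Int.cast_abs, ← abs_of_pos (show (0 : ℝ) < 2 * n by linarith), ← abs_div,
        ← e]
      congr 1; push_cast; field_simp
    rw [f, f]
    gcongr)
  have rl : ∀ (i u : ℤ) (c : ℝ), (u : ℝ) = c → rho (i / n + c) ≤ ((i + u * n).natAbs : ℝ) / n :=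
    fun i u c e => (rho_le _).trans (le_of_eq (by
      rw [Nat.cast_natAbs, Int.cast_abs, ← abs_of_pos n0, ← abs_div, abs_of_pos n0, ← e]
      congr 1; push_cast; field_simp))
  have i0 : 0 < 1 / (n : ℝ) := by positivity
  refine ⟨b, -(n / 2) - 1, fun x => (hV x).trans (b2 _ _), hn, fun i h => lo _ _ ?_,
    fun i h => lo _ _ ?_, fun i h k => lo _ _ ?_, fun i h k => ?_, fun i h k => ?_, fun i h k => ?_,
    fun i h k => ?_, fun i h => ?_, fun i => ?_, by omega, fun i h => mo _ _ ?_,
    fun i h k => mo _ _ ?_, fun i h k => mo _ _ ?_, fun i h => mo _ _ ?_⟩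
  · have := rl i 2000 2000 (by norm_num)
    rw [bet_left (le i (-1) _ (by norm_num) (by omega))]
    push_cast [-Int.natCast_natAbs]
    rw [sub_div, sub_div, mul_div_cancel_right₀ _ n0.ne']
    linarith
  · have := rl i (-2000) (-2000) (by norm_num)
    rw [bet_right (ge i 0 _ (by norm_num) (by omega)), sub_eq_add_neg (i / n : ℝ),
      show i - 2000 * n = i + -2000 * n by ring]
    push_cast [-Int.natCast_natAbs]
    rw [sub_div, sub_div, mul_div_cancel_right₀ _ n0.ne']
    linarith
  · rw [bet_mid (ge i (-1) _ (by norm_num) (by omega)) (le i 1 _ (by norm_num) (by omega))]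
    push_cast
    rw [mul_div_cancel_right₀ _ n0.ne']
    linarith [rho_nonneg (i / n + 1 / 2)]
  · refine hi _ _ (by omega) (le_of_eq ?_)
    rw [bet_far.1 (le i (-2001) _ (by norm_num) k)]
    push_cast; field_simp
  · refine hi _ _ (by omega) (le_of_eq ?_)
    rw [bet_left (le i (-1) _ (by norm_num) (by omega)),
      rho_pos (by linarith [ge i (-1999) (-1999) (by norm_num) h])]
    push_cast; field_simp; ring
  · refine hi _ _ (by omega) (le_of_eq ?_)
    rw [bet_right (ge i 0 _ (by norm_num) (by omega)),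
      rho_of_neg (by linarith [le i 1999 1999 (by norm_num) k])]
    push_cast; field_simp; ring
  · refine hi _ _ (by omega) (le_of_eq ?_)
    rw [bet_far.2 (ge i 2001 _ (by norm_num) h)]
    push_cast; field_simp
  · have := b1 i
    by_contra c
    have d := bet_pos.1 ((rho_nonneg _).trans_lt ((b2 i 0).2 (by omega)))
    rcases h with h | h
    · linarith [le i (-4002) (-4002) (by norm_num) h]
    · linarith [ge i 4003 4003 (by norm_num) h]
  · have := hi i (2003 * n) (by omega) (by
      push_cast; rw [mul_div_cancel_right₀ _ n0.ne']; exact bet_le _)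
    omega
  · rw [bet_left (le _ (-1) _ (by norm_num) (by omega)), bet_left (le _ (-1) _ (by norm_num) (by omega))]
    linarith [rm (i + 1) i 4000 2000 (by norm_num) (by omega)]
  · by_cases c : i + 1 ≤ -n
    · rw [bet_left (le _ (-1) _ (by norm_num) (by omega)),
        bet_left (le _ (-1) _ (by norm_num) (by omega))]
      linarith [rm i (i + 1) 4000 2000 (by norm_num) (by omega)]
    · rw [bet_mid (ge _ (-1) _ (by norm_num) (by omega)) (le _ 1 _ (by norm_num) (by omega)),
        bet_mid (ge _ (-1) _ (by norm_num) (by omega)) (le _ 1 _ (by norm_num) (by omega))]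
      linarith [rm (i + 1) i 1 (1 / 2) (by norm_num) (by omega)]
  · by_cases c : 0 ≤ i
    · rw [bet_right (ge _ 0 _ (by norm_num) (by omega)), bet_right (ge _ 0 _ (by norm_num) (by omega)),
        sub_eq_add_neg (_ / _ : ℝ), sub_eq_add_neg (_ / _ : ℝ)]
      linarith [rm (i + 1) i (-4000) (-2000) (by norm_num) (by omega)]
    · rw [bet_mid (ge _ (-1) _ (by norm_num) (by omega)) (le _ 1 _ (by norm_num) (by omega)),
        bet_mid (ge _ (-1) _ (by norm_num) (by omega)) (le _ 1 _ (by norm_num) (by omega))]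
      linarith [rm i (i + 1) 1 (1 / 2) (by norm_num) (by omega)]
  · rw [bet_right (ge _ 0 _ (by norm_num) (by omega)), bet_right (ge _ 0 _ (by norm_num) (by omega)),
      sub_eq_add_neg (_ / _ : ℝ), sub_eq_add_neg (_ / _ : ℝ)]
    linarith [rm i (i + 1) (-4000) (-2000) (by norm_num) (by omega)]

end Pool.Agent.Lib.MP_7c4eee_pr
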