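import Pool.Agent.Lib.MP_7c4eee_pr.H32Model
import Pool.Agent.Lib.MP_7c4eee_pr.H32Domain

/-!
The characteristic function of the tested height has a zero in a fixed interval, so there is no
Gaussian limit.
-/

namespace Pool.Agent.Lib.MP_7c4eee_pr

open Finset MeasureTheory ProbabilityTheory Filter Topology BoundedContinuousFunction Classical
open scoped NNReal ContDiff

/-- The test function `cos (t y)`. -/
noncomputable def cosB (t : ℝ) : ℝ →ᵇ ℝ :=
  ofNormedAddCommGroup (fun y => Real.cos (t * y)) (by fun_prop) 1 fun _ => Real.abs_cos_le_one _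

/-- The test function `min 2 |t y|`. -/
noncomputable def capB (t : ℝ) : ℝ →ᵇ ℝ :=
  ofNormedAddCommGroup (fun y => min 2 |t * y|) (by fun_prop) 2 fun _ =>
    (abs_of_nonneg (le_min zero_le_two (abs_nonneg _))).le.trans (min_le_left _ _)

lemma no_gauss (E : ℕ → (ℝ →ᵇ ℝ) → ℝ)
    (hE : ∀ᶠ k in atTop, (∀ φ1 φ2 φ3 : ℝ →ᵇ ℝ, (∀ y, φ1 y ≤ φ2 y + φ3 y) →
      E k φ1 ≤ E k φ2 + E k φ3) ∧ ∃ t ∈ Set.Icc 0 Real.pi, E k (cosB t) = 0) (v : ℝ≥0) :
    ¬∀ φ, Tendsto (fun k => E k φ) atTop (𝓝 (∫ y, φ y ∂gaussianReal 0 v)) := fun h => by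
  obtain ⟨k0, a⟩ := eventually_atTop.1 hE
  choose t t1 t2 using fun k => (a (k + k0) (by omega)).2
  obtain ⟨u, -, ψ, b1, b2⟩ := isCompact_Icc.tendsto_subseq t1
  have b3 : Tendsto (fun j => ψ j + k0) atTop atTop :=
    (tendsto_add_atTop_nat k0).comp b1.tendsto_atTop
  have c1 : 0 < ∫ y, cosB u y ∂gaussianReal 0 v := by
    have d := congrArg Complex.re ((charFun_apply_real u).symm.trans
      (charFun_gaussianReal (μ := 0) (v := v) u))
    have e := integral_re (𝕜 := ℂ) (μ := gaussianReal 0 v)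
      (f := fun x : ℝ => Complex.exp (u * x * Complex.I))
      (.of_bound (by fun_prop) 1 (.of_forall fun x => by
        rw [← Complex.ofReal_mul, Complex.norm_exp_ofReal_mul_I]))
    simp only [RCLike.re_to_complex, ← Complex.ofReal_mul, Complex.exp_ofReal_mul_I_re] at d e
    refine lt_of_lt_of_eq ?_ (e.trans d).symm
    rw [show ((u * 0 : ℝ) * Complex.I - (v : ℝ) * (u : ℂ) ^ 2 / 2 : ℂ) = (-(v * u ^ 2 / 2) : ℝ) by
      push_cast; ring, Complex.exp_ofReal_re]
    exact Real.exp_pos _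
  set c := ∫ y, cosB u y ∂gaussianReal 0 v
  have c2 : Integrable (fun y : ℝ => |y|) (gaussianReal 0 v) := IsGaussian.integrable_id.abs
  set m := ∫ y : ℝ, |y| ∂gaussianReal 0 v with hm
  have c3 : 0 ≤ m := integral_nonneg fun _ => abs_nonneg _
  have c4 : 0 < c / (m + 1) := by positivity
  have c5 : ∫ y, capB (c / (m + 1)) y ∂gaussianReal 0 v ≤ c / (m + 1) * m := by
    rw [hm, ← integral_const_mul]
    exact integral_mono ((capB _).integrable _) (c2.const_mul _) fun y =>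
      (min_le_right _ _).trans (by rw [abs_mul, abs_of_pos c4])
  have c6 := le_of_tendsto_of_tendsto ((h (cosB u)).comp b3) ((h (capB (c / (m + 1)))).comp b3) (by
    filter_upwards [b2.eventually (Metric.ball_mem_nhds u c4)] with j d
    have e := (a (ψ j + k0) (by omega)).1 (cosB u) (cosB (t (ψ j))) (capB (c / (m + 1))) fun y => by
      have f := Real.abs_cos_sub_cos_le (u * y) (t (ψ j) * y)
      rw [← sub_mul, abs_mul, abs_sub_comm u] at f
      have k := mul_le_mul_of_nonneg_right (show |t (ψ j) - u| ≤ c / (m + 1) from le_of_lt d)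
        (abs_nonneg y)
      show Real.cos _ ≤ Real.cos _ + min 2 _
      rw [abs_mul, abs_of_pos c4, ← sub_le_iff_le_add', le_min_iff]
      constructor <;> linarith [le_abs_self (Real.cos (u * y) - Real.cos (t (ψ j) * y)),
        Real.cos_le_one (u * y), Real.neg_one_le_cos (t (ψ j) * y)]
    rwa [t2, zero_add] at e)
  have c7 : c / (m + 1) * (m + 1) = c := by field_simp
  linarith

/-- The integral of `f` over the cell of `x`. -/
noncomputable def cel (c : ℂ → Pt) (f : ℂ → ℝ) (x : Pt) : ℝ := ∫ z in c ⁻¹' {x}, f z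

lemma pairing_eq {c : ℂ → Pt} (hc : Measurable c) {f : ℂ → ℝ} (hf : Integrable f) {V : Finset Pt}
    {H : Pt → ℝ} (hH : ∀ x ∉ V, H x = 0) : pairing c f H = ∑ x ∈ V, cel c f x * H x := by
  simp only [cel, pairing, ← integral_indicator (hc (measurableSet_singleton _)),
    ← integral_mul_const]
  rw [← integral_finsetSum _ fun x _ => (hf.indicator (hc (measurableSet_singleton x))).mul_const _]
  refine integral_congr_ae (.of_forall fun z => ?_)
  by_cases a : c z ∈ V <;> simp [Set.indicator_apply, a, hH, mul_comm]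

lemma sum_cel {c : ℂ → Pt} (hc : Measurable c) {f : ℂ → ℝ} (hf : Integrable f) {V : Finset Pt}
    (h : ∀ z, f z ≠ 0 → c z ∈ V) : ∑ x ∈ V, cel c f x = ∫ z, f z := by
  have a := pairing_eq hc hf (V := V) (H := fun x => if x ∈ V then 1 else 0) fun x a => if_neg a
  rw [sum_congr rfl fun x b => by rw [if_pos b, mul_one]] at a
  refine a.symm.trans (integral_congr_ae (.of_forall fun z => ?_))
  by_cases b : f z = 0
  exacts [by simp [b], by simp [h z b]]

lemma cel_ne {c : ℂ → Pt} {f : ℂ → ℝ} {x : Pt} (h : cel c f x ≠ 0) : ∃ z, c z = x ∧ f z ≠ 0 := by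
  by_contra! a
  exact h (setIntegral_eq_zero_of_forall_eq_zero a)

lemma cel_le {c : ℂ → Pt} {f : ℂ → ℝ} {C δ : ℝ} (hC : ∀ z, ‖f z‖ ≤ C) (hδ : 0 ≤ δ)
    (h : ∀ z, ‖z - pos δ (c z)‖ ≤ 2 * δ) (x : Pt) : |cel c f x| ≤ C * (16 * δ ^ 2) := by
  have a : c ⁻¹' {x} ⊆ Metric.closedBall (pos δ x) (2 * δ) := fun z a => by
    rw [mem_closedBall_iff_norm, ← show c z = x from a]; exact h z
  refine (norm_setIntegral_le_of_norm_le_const ((measure_mono a).trans_lt measure_closedBall_lt_top)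
    fun z _ => hC z).trans (mul_le_mul_of_nonneg_left ((measureReal_mono a
      measure_closedBall_lt_top.ne).trans ?_) ((norm_nonneg _).trans (hC 0)))
  rw [measureReal_def, Complex.volume_closedBall, ENNReal.toReal_mul, ENNReal.toReal_pow,
    ENNReal.toReal_ofReal (by linarith), ENNReal.coe_toReal, NNReal.coe_real_pi]
  nlinarith [Real.pi_le_four, sq_nonneg δ]

lemma expect_le {Φ : ℝ → ℝ} (hΦ : Continuous Φ) (h0 : ∀ t, 0 ≤ Φ t) {a : ℝ}
    (ha : ∀ t, a ≤ |t| → Φ t = 0) {V : Finset Pt} {x0 : Pt} (hV : ∀ x ∈ V, Rch V x0 x)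
    {Y : (Pt → ℝ) → ℝ} (hY : Continuous fun h : V.erase x0 → ℝ => Y (ext0 _ h))
    (φ1 φ2 φ3 : ℝ →ᵇ ℝ) (h : ∀ y, φ1 y ≤ φ2 y + φ3 y) : expect Φ V x0 (fun H => φ1 (Y H)) ≤
      expect Φ V x0 (fun H => φ2 (Y H)) + expect Φ V x0 fun H => φ3 (Y H) := by
  have b := fun φ : ℝ →ᵇ ℝ => weight_int hΦ ha hV (φ.continuous.comp hY)
  simp only [expect, ← add_div]
  refine div_le_div_of_nonneg_right ?_ (integral_nonneg fun _ => weight_nonneg h0 _ _)
  refine le_of_le_of_eq (integral_mono (b φ1) ((b φ2).add (b φ3)) fun k => ?_)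
    (integral_add (b φ2) (b φ3))
  exact (mul_le_mul_of_nonneg_right (h _) (weight_nonneg h0 _ _)).trans (add_mul _ _ _).le

lemma vert_geo {n : ℕ} (hn : n % 2 = 1) {x0 : Pt} (h : dfn (pos (1 / n) x0) < 0) :
    ∃ b m, Geo n b m (vert {z | dfn z < 0} (1 / n) x0) ∧
      ∀ x, x ∈ vert {z | dfn z < 0} (1 / n) x0 ↔ dfn (pos (1 / n) x) < 0 := by
  have n0 : (0 : ℝ) < n := by exact_mod_cast (by omega : 0 < n)
  obtain ⟨C, a⟩ := isBounded_iff_forall_norm_le.1 dfn_bounded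
  have b : {x | dfn (pos (1 / n) x) < 0}.Finite :=
    (Set.finite_Icc (-⌈C * n⌉, -⌈C * n⌉) (⌈C * n⌉, ⌈C * n⌉)).subset fun x b => by
      have c : ∀ i : ℤ, |1 / (n : ℝ) * i| ≤ C → -⌈C * n⌉ ≤ i ∧ i ≤ ⌈C * n⌉ := fun i c => by
        rw [abs_mul, abs_of_pos (by positivity), one_div, inv_mul_le_iff₀ n0, mul_comm] at c
        exact_mod_cast abs_le.1 (c.trans (Int.le_ceil _))
      have d := c x.1 ((Complex.abs_re_le_norm _).trans (a _ b))
      have e := c x.2 ((Complex.abs_im_le_norm _).trans (a _ b))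
      exact ⟨⟨d.1, e.1⟩, d.2, e.2⟩
  obtain ⟨b', m, g⟩ := exists_geo hn (V := b.toFinset) fun x => by
    simp [dfn, pos, div_eq_inv_mul]
  have c : {x | Rch {y | pos (1 / n) y ∈ {z | dfn z < 0}} x0 x} = b.toFinset := Set.ext fun x =>
    ⟨fun c => b.mem_toFinset.2 (Rch.mem c h), fun c => Rch.mono (fun _ d => b.mem_toFinset.1 d)
      ((g.conn (b.mem_toFinset.2 h)).symm.trans (g.conn c))⟩
  have d : vert {z | dfn z < 0} (1 / n) x0 = b.toFinset := by
    rw [vert, dif_pos (c ▸ finite_toSet _)]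
    exact coe_injective ((Set.Finite.coe_toFinset _).trans c)
  exact ⟨b', m, d ▸ g, fun x => d ▸ b.mem_toFinset⟩

lemma near_dom {u : ℝ} (hu : u = -2000 ∨ u = 2000) {z : ℂ} (h : ‖z - u‖ ≤ 3) : dfn z < 0 := by
  have a := abs_le.1 ((Complex.abs_re_le_norm _).trans h)
  have b := (Complex.abs_im_le_norm _).trans h
  simp only [Complex.sub_re, Complex.ofReal_re, Complex.sub_im, Complex.ofReal_im, sub_zero] at a b
  have c := (bet_ge z.re).trans_lt' (show 0 < _ by
    simp only [lt_min_iff]; rcases hu with rfl | rfl <;> exact ⟨one_pos, by linarith, by linarith⟩)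
  unfold dfn
  rcases hu with rfl | rfl
  · have : |z.re + 2000| ≤ 3 := abs_le.2 ⟨by linarith, by linarith⟩
    linarith [rho_le z.im, bet_left (show z.re ≤ -1 by linarith), rho_le (z.re + 2000)]
  · have : |z.re - 2000| ≤ 3 := abs_le.2 ⟨by linarith, by linarith⟩
    linarith [rho_le z.im, bet_right (show 0 ≤ z.re by linarith), rho_le (z.re - 2000)]

/-- A normalised bump of radius one. -/
noncomputable def bump (u : ℝ) : ℂ → ℝ :=
  (⟨1 / 2, 1, by norm_num, by norm_num⟩ : ContDiffBump (u : ℂ)).normed volume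

lemma bump_supp {u : ℝ} {z : ℂ} (h : z ∈ tsupport (bump u)) : ‖z - u‖ ≤ 1 := by
  rwa [bump, ContDiffBump.tsupport_normed_eq, mem_closedBall_iff_norm] at h

lemma bump_cell {n : ℕ} (hn : 0 < n) {c : ℂ → Pt} (h : ∀ z, ‖z - pos (1 / n) (c z)‖ ≤ 2 * (1 / n))
    {u : ℤ} {z : ℂ} (hz : bump u z ≠ 0) : ‖pos (1 / n) (c z) - (u : ℝ)‖ ≤ 3 ∧
      ((c z).1 - u * n).natAbs + (c z).2.natAbs ≤ 503 * n := by
  have n0 : (0 : ℝ) < n := by exact_mod_cast hn
  have a : ‖pos (1 / n) (c z) - (u : ℝ)‖ ≤ 3 := by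
    have b := norm_sub_le_norm_sub_add_norm_sub (pos (1 / n) (c z)) z (u : ℝ)
    have d : 1 / (n : ℝ) ≤ 1 := (div_le_one n0).2 (by exact_mod_cast hn)
    rw [norm_sub_rev _ z] at b
    linarith [h z, bump_supp (subset_tsupport _ hz)]
  have b : ∀ i : ℤ, |1 / (n : ℝ) * i| ≤ 3 → i.natAbs ≤ 3 * n := fun i b => by
    rw [abs_mul, abs_of_pos (by positivity), one_div, inv_mul_le_iff₀ n0] at b
    have : |i| ≤ n * 3 := by exact_mod_cast b
    rw [abs_le] at this
    omega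
  have d := b ((c z).1 - u * n) (by
    refine le_of_eq_of_le (congrArg abs ?_) ((Complex.abs_re_le_norm _).trans a)
    simp [pos]; field_simp)
  have e := b (c z).2 (by simpa [pos] using (Complex.abs_im_le_norm _).trans a)
  exact ⟨a, by omega⟩

lemma expect_one {Φ : ℝ → ℝ} (hΦ : Continuous Φ) (h0 : ∀ t, 0 ≤ Φ t) (h1 : 0 < Φ 0) {a : ℝ}
    (ha : ∀ t, a ≤ |t| → Φ t = 0) (D : Set ℂ) (δ : ℝ) (x0 : Pt) :
    expect Φ (vert D δ x0) x0 (fun _ => 1) = 1 := by
  have b : ∀ x ∈ vert D δ x0, Rch (vert D δ x0) x0 x := fun x b => by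
    unfold vert at b ⊢
    split_ifs at b ⊢ with c
    · exact Rch.sub (c.mem_toFinset.1 b) fun z d => c.mem_toFinset.2 d
    · simp at b
  generalize vert D δ x0 = V at b
  have c := weight_int hΦ ha b (G := fun _ => 1) continuous_const
  simp only [expect, one_mul] at c ⊢
  have d : Continuous fun h : V.erase x0 → ℝ => weight Φ V (ext0 _ h) :=
    continuous_finsetProd _ fun e _ => hΦ.comp ((ext0_cont _ _).sub (ext0_cont _ _))
  refine div_self ((integral_pos_iff_support_of_nonneg (fun _ => weight_nonneg h0 _ _) c).2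
    (d.isOpen_support.measure_pos _ ⟨0, (prod_pos fun e _ => ?_).ne'⟩)).ne'
  simpa [ext0] using h1

lemma vert_spec {D : Set ℂ} (hD : Bornology.IsBounded D) {δ : ℝ} (hδ : 0 < δ) {x0 : Pt}
    (hx : pos δ x0 ∈ D) (x : Pt) : x ∈ vert D δ x0 ↔ Rch {y | pos δ y ∈ D} x0 x := by
  obtain ⟨C, a⟩ := isBounded_iff_forall_norm_le.1 hD
  have b : {x | Rch {y | pos δ y ∈ D} x0 x}.Finite :=
    (Set.finite_Icc (-⌈C / δ⌉, -⌈C / δ⌉) (⌈C / δ⌉, ⌈C / δ⌉)).subset fun x b => by
      have c : ∀ i : ℤ, |δ * i| ≤ C → -⌈C / δ⌉ ≤ i ∧ i ≤ ⌈C / δ⌉ := fun i c => by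
        rw [abs_mul, abs_of_pos hδ, mul_comm, ← le_div_iff₀ hδ] at c
        exact_mod_cast abs_le.1 (c.trans (Int.le_ceil _))
      have d := c x.1 ((Complex.abs_re_le_norm _).trans (a _ (Rch.mem b hx)))
      have e := c x.2 ((Complex.abs_im_le_norm _).trans (a _ (Rch.mem b hx)))
      exact ⟨⟨d.1, e.1⟩, d.2, e.2⟩
  rw [vert, dif_pos b, b.mem_toFinset, Set.mem_ofPred_eq]

theorem counterexample : ∃ (Φ : ℝ → ℝ) (f : ℂ → ℝ),
    (ContDiff ℝ ∞ Φ ∧ (∀ t, 0 ≤ Φ t) ∧ (∃ C, ∀ t, Φ t ≤ C) ∧ (∀ t, Φ (-t) = Φ t) ∧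
      (∃ a, ∀ t, a ≤ |t| → Φ t = 0) ∧ ∃ c > 0, ∀ᶠ t in 𝓝 0, c ≤ Φ t) ∧
    (ContDiff ℝ ∞ f ∧ HasCompactSupport f ∧ tsupport f ⊆ {z | dfn z < 0} ∧ ∫ z, f z = 0) ∧
    ∀ (x0 : ℝ → Pt) (c : ℝ → ℂ → Pt), (∀ᶠ δ in 𝓝[>] 0, pos δ (x0 δ) ∈ {z | dfn z < 0} ∧
      Measurable (c δ) ∧ ∀ z, ‖z - pos δ (c δ z)‖ ≤ 2 * δ) → ∀ v : ℝ≥0,
      ¬∀ φ : ℝ →ᵇ ℝ, Tendsto (fun δ => expect Φ (vert {z | dfn z < 0} δ (x0 δ)) (x0 δ)
        fun H => φ (pairing (c δ) f H)) (𝓝[>] 0) (𝓝 (∫ y, φ y ∂gaussianReal 0 v)) := by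
  obtain ⟨N, hN⟩ := exists_nat_ge (kap ^ 100000)
  have N0 : 0 < N := by exact_mod_cast (pow_pos kap_pos _).trans_le hN
  obtain ⟨S, hS, hq⟩ := exists_sidon (N := 2 ^ 15 * N ^ 16) (by positivity)
    (show (0 : ℝ) < 1 / 100000 by norm_num)
  obtain ⟨s0, h0⟩ : (S.erase 0).Nonempty := card_pos.1 (by rw [hq]; positivity)
  obtain ⟨ε, ε0, hε⟩ := exists_gap S
  set w : ℝ := (((2 * N : ℝ) ^ 2) ^ (8 * 500))⁻¹ with hw
  have w0 : 0 < w := by positivity
  set φ : ContDiffBump (0 : ℝ) := ⟨ε / 2, ε, by linarith, by linarith⟩ with hφ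
  have φ0 : ∀ t, ε ≤ |t| → φ t = 0 := fun t a => φ.zero_of_le_dist (by simpa using a)
  have P1 : ContDiff ℝ ∞ (comb S w φ) :=
    ContDiff.sum fun s _ => contDiff_const.mul (φ.contDiff.comp (contDiff_id.sub contDiff_const))
  have P2 : ∀ s t, 0 ≤ (if s = 0 then w else 1) * φ (t - s) :=
    fun s t => mul_nonneg (by positivity) φ.nonneg
  have P3 : ∀ t, 2 + ε ≤ |t| → comb S w φ t = 0 := fun t a => sum_eq_zero fun s b => by
    have : |s| ≤ 2 := by
      by_cases c : s = 0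
      exacts [by simp [c], by linarith [(hS.size s b c).2]]
    rw [φ0 _ (by linarith [abs_sub_abs_le_abs_sub t s]), mul_zero]
  have B1 : ∀ u, Integrable (bump u) := fun u => ContDiffBump.integrable_normed _
  have B2 : ∀ u, ∫ z, bump u z = 1 := fun u => ContDiffBump.integral_normed _
  have B3 : ∀ u z, 0 ≤ bump u z := fun u => ContDiffBump.nonneg_normed _
  have B4 : ∀ u, ContDiff ℝ ∞ (bump u) := fun u => ContDiffBump.contDiff_normed _
  have B5 : HasCompactSupport (bump 2000 - bump (-2000)) :=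
    (ContDiffBump.hasCompactSupport_normed _).sub (ContDiffBump.hasCompactSupport_normed _)
  have B6 : Integrable (bump 2000 - bump (-2000)) := (B1 _).sub (B1 _)
  refine ⟨comb S w φ, bump 2000 - bump (-2000), ⟨P1, fun t => sum_nonneg fun s _ => P2 s t,
    ⟨∑ s ∈ S, if s = 0 then w else 1, fun t => sum_le_sum fun s _ =>
      mul_le_of_le_one_right (by positivity) φ.le_one⟩, fun t => ?_, ⟨_, P3⟩, w, w0, ?_⟩,
    ⟨(B4 _).sub (B4 _), B5, (tsupport_sub _ _).trans ?_, ?_⟩, fun x0 c hc v h => ?_⟩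
  · refine sum_nbij' (-·) (-·) hS.neg hS.neg (fun _ _ => neg_neg _) (fun _ _ => neg_neg _)
      fun s _ => ?_
    rw [← φ.neg]
    simp [add_comm]
  · filter_upwards [Metric.closedBall_mem_nhds (0 : ℝ) (half_pos ε0)] with t a
    refine le_trans ?_ (single_le_sum (fun s _ => P2 s t) hS.zero)
    rw [if_pos rfl, sub_zero, φ.one_of_mem_closedBall a, mul_one]
  · rintro z (a | a)
    exacts [near_dom (.inr rfl) ((bump_supp a).trans (by norm_num)),
      near_dom (.inl rfl) ((bump_supp a).trans (by norm_num))]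
  · simp only [Pi.sub_apply, integral_sub (B1 _) (B1 _), B2, sub_self]
  obtain ⟨C, hC⟩ := ((B4 2000).sub (B4 (-2000))).continuous.bounded_above_of_compact_support B5
  have T1 : Tendsto (fun k : ℕ => 1 / ((2 * k + 1 : ℕ) : ℝ)) atTop (𝓝 0) :=
    tendsto_one_div_atTop_nhds_zero_nat.comp (tendsto_atTop_mono (f := id) (fun k => by
      dsimp only [id]; omega) tendsto_id)
  have T2 : Tendsto (fun k : ℕ => 1 / ((2 * k + 1 : ℕ) : ℝ)) atTop (𝓝[>] 0) :=
    tendsto_nhdsWithin_iff.2 ⟨T1, .of_forall fun k => Set.mem_Ioi.2 (by positivity)⟩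
  have T3 := (((T1.pow 2).const_mul 16).const_mul C).eventually
    (gt_mem_nhds (show _ < (1 / 3200 : ℝ) by norm_num))
  refine no_gauss _ ?_ v fun ψ => (h ψ).comp T2
  filter_upwards [T2.eventually hc, T3] with k ⟨a1, a2, a3⟩ a4
  obtain ⟨b, m, g, hV⟩ := vert_geo (n := 2 * k + 1) (by omega) a1
  simp only [Function.comp_apply]
  generalize hn : 2 * k + 1 = n at *
  generalize vert {z | dfn z < 0} (1 / n) (x0 (1 / n)) = V at *
  generalize x0 (1 / n) = y, c (1 / n) = d at *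
  have V1 : ∀ x ∈ V, Rch V y x := fun x a => (g.conn ((hV y).2 a1)).symm.trans (g.conn a)
  set A := cel d (bump 2000 - bump (-2000)) with hA
  have V2 : ∀ h : V.erase y → ℝ, pairing d (bump 2000 - bump (-2000)) (ext0 _ h) =
      ∑ x ∈ V, A x * ext0 _ h x :=
    fun h => pairing_eq a2 B6 fun x a => dif_neg fun e => a (mem_of_mem_erase e)
  refine ⟨expect_le P1.continuous (fun t => sum_nonneg fun s _ => P2 s t) P3 V1 (by
    simp only [V2]
    exact continuous_finsetSum _ fun x _ => continuous_const.mul (ext0_cont _ _)), ?_⟩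
  have U1 := fun z => bump_cell (u := 2000) (z := z) (by omega) a3
  have U2 := fun z => bump_cell (u := -2000) (z := z) (by omega) a3
  simp only [Int.cast_neg, Int.cast_ofNat] at U1 U2
  have U3 := (sum_cel a2 (B1 _) fun z a => (hV _).2 (near_dom (.inr rfl) (U1 z a).1)).trans (B2 _)
  have U4 := (sum_cel a2 (B1 _) fun z a => (hV _).2 (near_dom (.inl rfl) (U2 z a).1)).trans (B2 _)
  have U5 : ∀ x, A x = cel d (bump 2000) x - cel d (bump (-2000)) x :=
    fun x => integral_sub (B1 _).integrableOn (B1 _).integrableOn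
  have U6 : ∀ x, cel d (bump 2000) x ≠ 0 → (x.1 - 2000 * n).natAbs + x.2.natAbs ≤ 503 * n :=
    fun x a => (cel_ne a).elim fun z e => e.1 ▸ (U1 z e.2).2
  have U7 : ∀ x, cel d (bump (-2000)) x ≠ 0 → (x.1 - -2000 * n).natAbs + x.2.natAbs ≤ 503 * n :=
    fun x a => (cel_ne a).elim fun z e => e.1 ▸ (U2 z e.2).2
  have U8 : ∀ x : Pt, x.1 < 0 → cel d (bump 2000) x = 0 :=
    fun x a => by_contra fun e => by have := U6 x e; omega
  have U9 : ∀ x : Pt, ¬x.1 < 0 → cel d (bump (-2000)) x = 0 :=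
    fun x a => by_contra fun e => by have := U7 x e; omega
  have W1 : ∑ x ∈ V, |A x| ≤ 2 := by
    refine (sum_le_sum (g := fun x => cel d (bump 2000) x + cel d (bump (-2000)) x)
      fun x _ => ?_).trans (by rw [sum_add_distrib, U3, U4]; norm_num)
    have e : ∀ u, 0 ≤ cel d (bump u) x := fun u => integral_nonneg (B3 u)
    rw [U5, abs_le]
    constructor <;> linarith [e 2000, e (-2000)]
  have W2 := g.main hS ⟨by norm_num, le_rfl⟩ h0 (ρ := 2 * N) (by linarith [Nat.cast_nonneg (α := ℝ) N])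
    (by rw [hq]; push_cast; ring) w0.le (inv_mul_cancel₀ (by positivity)) (U := V) (a := A)
    (fun x _ a => by
      by_cases e : x.1 < 0
      · exact .inl (U7 x fun f => a (by rw [U5, U8 x e, f, sub_zero]))
      · exact .inr (U6 x fun f => a (by rw [U5, U9 x e, f, sub_zero])))
    (by
      rw [← U4, ← sum_neg_distrib]
      exact sum_congr rfl fun x _ => by split_ifs with e <;> simp [U5, U8 x, U9 x, e])
    (by
      rw [← U3]
      exact sum_congr rfl fun x _ => by split_ifs with e <;> simp [U5, U8 x, U9 x, e]) W1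
    ((sum_le_sum (g := fun x => 1 / 3200 * |A x|) fun x _ => by
      rw [← sq_abs, sq]
      exact mul_le_mul_of_nonneg_right ((cel_le hC (by positivity) a3 x).trans a4.le)
        (abs_nonneg _)).trans (by rw [← mul_sum]; linarith))
  obtain ⟨t, t1, t2⟩ := intermediate_value_Icc' Real.pi_pos.le (f := fun t =>
    ∑ η ∈ Om V S, wgt w (edges V) η * Real.cos (t * ∑ x ∈ V, A x * pot η x)) (by fun_prop)
    ⟨W2, sum_nonneg fun η _ => by simpa using wgt_nonneg w0.le _ η⟩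
  refine ⟨t, t1, div_eq_zero_iff.2 (.inl ?_)⟩
  simp only [V2]
  exact cos_zero g.dp hS φ.continuous φ0 hε V1
    (by simp only [U5, sum_sub_distrib, U3, U4, sub_self]) t2

end Pool.Agent.Lib.MP_7c4eee_pr
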