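import Pool.Agent.Lib.MP_7c4eee_pr.H32Global

/-!
The lattice dumbbell: two diamonds whose sides have opposite parities, joined by a neck.
-/

namespace Pool.Agent.Lib.MP_7c4eee_pr

open Finset Classical

/-- The column heights `b` of the lattice dumbbell `V` at scale `n`. -/
structure Geo (n : ℕ) (b : ℤ → ℤ) (m : ℤ) (V : Finset Pt) : Prop where
  mem : ∀ x, x ∈ V ↔ -b x.1 ≤ x.2 ∧ x.2 ≤ b x.1
  odd : n % 2 = 1
  t1 : ∀ i : ℤ, i ≤ -n → 2002 * n - (i + 2000 * n).natAbs - 1 ≤ b i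
  t2 : ∀ i : ℤ, 0 ≤ i → 2003 * n - (i - 2000 * n).natAbs - 1 ≤ b i
  t3 : ∀ i : ℤ, -n ≤ i → i ≤ 0 → 2 * n ≤ b i
  f1 : ∀ i : ℤ, -4001 * n ≤ i → i ≤ -2001 * n → b i ≤ i + 4002 * n - 1
  f2 : ∀ i : ℤ, -1999 * n ≤ i → i ≤ -n → b i ≤ 2 * n - i - 1
  f3 : ∀ i : ℤ, 0 ≤ i → i ≤ 1999 * n → b i ≤ i + 3 * n - 1
  f4 : ∀ i : ℤ, 2001 * n ≤ i → i ≤ 4002 * n → b i ≤ 4003 * n - i - 1
  out : ∀ i : ℤ, i ≤ -4002 * n ∨ 4003 * n ≤ i → b i = -1
  top : ∀ i, b i ≤ 2003 * n
  mid : -n ≤ m ∧ m ≤ 0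
  up1 : ∀ i : ℤ, i < -2000 * n → b i ≤ b (i + 1)
  dn1 : ∀ i : ℤ, -2000 * n ≤ i → i < m → b (i + 1) ≤ b i
  up2 : ∀ i : ℤ, m ≤ i → i < 2000 * n → b i ≤ b (i + 1)
  dn2 : ∀ i : ℤ, 2000 * n ≤ i → b (i + 1) ≤ b i

/-- Sites away from the boundary and from the middle column. -/
def Deep (b : ℤ → ℤ) : Set Pt :=
  {x | 2 ≤ x.1.natAbs ∧ ∀ i, x.1 - 2 ≤ i → i ≤ x.1 + 2 → -b i < x.2 ∧ x.2 < b i}

lemma rch_row' {B : Set Pt} {i i' j : ℤ} (hB : ∀ t, min i i' ≤ t → t ≤ max i i' → (t, j) ∈ B) :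
    Rch B (i, j) (i', j) := by
  rcases le_total i i' with h | h
  exacts [rch_row h fun t a b => hB t (by omega) (by omega),
    (rch_row h fun t a b => hB t (by omega) (by omega)).symm]

lemma rch_col' {B : Set Pt} {i j j' : ℤ} (hB : ∀ t, min j j' ≤ t → t ≤ max j j' → (i, t) ∈ B) :
    Rch B (i, j) (i, j') := by
  rcases le_total j j' with h | h
  exacts [rch_col h fun t a b => hB t (by omega) (by omega),
    (rch_col h fun t a b => hB t (by omega) (by omega)).symm]

variable {n : ℕ} {b : ℤ → ℤ} {m : ℤ} {V : Finset Pt} {S : Finset ℝ} {η : Ed → ℝ}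

lemma Geo.low (g : Geo n b m V) (i : ℤ) : (i ≤ -n → 2002 * n - (i + 2000 * n).natAbs - 1 ≤ b i) ∧
    (0 ≤ i → 2003 * n - (i - 2000 * n).natAbs - 1 ≤ b i) ∧ (-n ≤ i → i ≤ 0 → 2 * n ≤ b i) :=
  ⟨g.t1 i, g.t2 i, g.t3 i⟩

lemma Geo.conn (g : Geo n b m V) {x : Pt} (hx : x ∈ V) : Rch V (0, 0) x := by
  have a := (g.mem x).1 hx
  have c := g.out x.1
  have d := g.odd
  refine (rch_row' (i' := x.1) fun t e f => (g.mem _).2 ?_).trans
    (rch_col' (j' := x.2) fun t e f => (g.mem _).2 ?_)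
  · have := g.low t
    dsimp only; omega
  · dsimp only; omega

lemma Geo.dp (g : Geo n b m V) : Dp V (Deep b) where
  conv i j j' a c := (g.mem _).2 (by have := (g.mem _).1 a; dsimp only at *; omega)
  edge x a := by
    have c := (g.mem _).1 a
    have d := g.out x.1
    have := g.odd
    rcases lt_trichotomy x.2 0 with e | e | e
    · exact ⟨(x, true), mem_edges.2 ⟨a, (g.mem _).2 (by simp; omega)⟩, .inl rfl⟩
    · by_cases f : x.1 < 0
      · have := g.low (x.1 + 1)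
        exact ⟨(x, false), mem_edges.2 ⟨a, (g.mem _).2 (by simp; omega)⟩, .inl rfl⟩
      · have := g.low (x.1 - 1)
        exact ⟨((x.1 - 1, x.2), false), mem_edges.2 ⟨(g.mem _).2 (by simp; omega), by simpa using a⟩,
          .inr (by simp)⟩
    · exact ⟨((x.1, x.2 - 1), true), mem_edges.2 ⟨(g.mem _).2 (by simp; omega), by simpa using a⟩,
        .inr (by simp)⟩
  deep x a p c := by
    have d := a.2 p.1
    have e := a.2 (p.1 + 1)
    simp only [Pl, g.mem, Cor, lf] at *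
    omega
  zero := fun a => by simpa using a.1
  conn x a := by
    have c : ∀ j, Rch (Deep b)ᶜ (0, 0) (0, j) := fun j => rch_col' fun t _ _ d => by simpa using d.1
    by_cases d : 2 ≤ x.1.natAbs
    swap
    · exact (c x.2).trans (rch_row' (i' := x.1) fun t e f k => by have := k.1; dsimp only at this; omega)
    obtain ⟨i, e, f, k⟩ : ∃ i, x.1 - 2 ≤ i ∧ i ≤ x.1 + 2 ∧ b i ≤ x.2.natAbs := by
      by_contra! e
      exact a ⟨d, fun i f k => by have := e i f k; omega⟩
    refine ((c (if 0 ≤ x.2 then x.2 + 2003 * n else x.2 - 2003 * n)).trans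
      (rch_row' (i' := x.1) fun t _ _ l => ?_)).trans (rch_col' (j' := x.2) fun t l1 l2 l => ?_)
    · have := l.2 t (by simp) (by simp)
      have := g.top t
      dsimp only at *
      omega
    · have := l.2 i e f
      dsimp only at *
      omega

lemma Geo.tv (g : Geo n b m V) (I : Finset ℤ) (a : ℤ) :
    ∑ i ∈ I, (b (i + a + 1) - b (i + a)).natAbs ≤ 8008 * n + 2 := by
  set G : ℤ → ℤ := fun i => if i ≤ -2000 * n then b i else if i ≤ m then 2 * b (-2000 * n) - b i
    else if i ≤ 2000 * n then 2 * b (-2000 * n) - 2 * b m + b i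
    else 2 * b (-2000 * n) - 2 * b m + 2 * b (2000 * n) - b i with hG
  have m1 := g.mid
  have a1 : ∀ i, ((b (i + 1) - b i).natAbs : ℤ) = G (i + 1) - G i := fun i => by
    have := g.up1 i
    have := g.dn1 i
    have := g.up2 i
    have := g.dn2 i
    have e1 : i = -2000 * n → b i = b (-2000 * n) := fun e => e ▸ rfl
    have e2 : i = m → b i = b m := fun e => e ▸ rfl
    have e3 : i = 2000 * n → b i = b (2000 * n) := fun e => e ▸ rfl
    have := g.odd
    simp only [hG]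
    omega
  have a2 : ∀ k, -4002 * (n : ℤ) ≤ k →
      ∑ i ∈ Ico (-4002 * (n : ℤ)) k, ((b (i + 1) - b i).natAbs : ℤ) = G k - G (-4002 * n) :=
    fun k c => by
      induction k, c using Int.leInduction with
      | base => simp
      | succ k c ih =>
        rw [show Ico (-4002 * (n : ℤ)) (k + 1) = insert k (Ico (-4002 * (n : ℤ)) k) by
          ext; simp; omega, sum_insert (by simp), ih, a1]
        ring
  have a3 := a2 (4003 * n) (by omega)
  have a4 : ∑ i ∈ I.map (addRightEmbedding a), (b (i + 1) - b i).natAbs ≤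
      ∑ i ∈ Ico (-4002 * (n : ℤ)) (4003 * n), (b (i + 1) - b i).natAbs :=
    sum_le_sum_of_ne_zero fun i _ c => by
      have := g.out i
      have := g.out (i + 1)
      rw [mem_Ico]
      omega
  rw [sum_map] at a4
  refine a4.trans ?_
  have := g.out (-4002 * n)
  have := g.out (4003 * n)
  have := g.top (-2000 * n)
  have := g.top (2000 * n)
  have := g.t3 m m1.1 m1.2
  have := g.odd
  rw [← Nat.cast_sum] at a3
  simp only [hG] at a3
  omega

lemma Geo.miss (g : Geo n b m V) :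
    #((edges V ×ˢ (univ : Finset Bool)).filter fun d => ¬Pl V (plq d)) ≤ 32026 * n + 4 := by
  set A : ℤ → Finset (Ed × Bool) := fun i =>
    {(((i, min (b i) (b (i + 1))), false), true), (((i, -min (b i) (b (i + 1))), false), false)} ∪
    ((Ico (b (i + 1)) (b i) ∪ Ico (-b i) (-b (i + 1))).image (fun j => (((i, j), true), true)) ∪
    (Ico (b i) (b (i + 1)) ∪ Ico (-b (i + 1)) (-b i)).image fun j => (((i + 1, j), true), false))
  have a1 : ((edges V ×ˢ (univ : Finset Bool)).filter fun d => ¬Pl V (plq d)) ⊆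
      (Ico (-4002 * (n : ℤ)) (4003 * n)).biUnion A := by
    rintro ⟨⟨⟨i, j⟩, d⟩, s⟩ c
    have := g.out i
    simp only [mem_filter, mem_product, mem_edges, Pl, g.mem] at c
    refine mem_biUnion.2 ⟨if d && !s then i - 1 else i, ?_⟩
    cases d <;> cases s <;> simp [A, plq] at c ⊢ <;> omega
  refine (card_le_card a1).trans (card_biUnion_le.trans ((sum_le_sum (g := fun i =>
    2 + 2 * (b (i + 0 + 1) - b (i + 0)).natAbs) fun i _ => ?_).trans ?_))
  · refine (card_union_le _ _).trans (Nat.add_le_add card_le_two ((card_union_le _ _).trans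
      ((Nat.add_le_add (card_image_le.trans (card_union_le _ _))
        (card_image_le.trans (card_union_le _ _))).trans ?_)))
    simp only [Int.card_Ico, add_zero]
    omega
  · rw [sum_add_distrib, ← mul_sum, sum_const, Int.card_Ico, smul_eq_mul]
    have := g.tv (Ico (-4002 * (n : ℤ)) (4003 * n)) 0
    omega

lemma Geo.shallow (g : Geo n b m V) : #(V.filter (· ∉ Deep b)) ≤ 100000 * n := by
  set d : ℤ → ℕ := fun i => (b (i + -2 + 1) - b (i + -2)).natAbs + (b (i + -1 + 1) - b (i + -1)).natAbs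
    + (b (i + 0 + 1) - b (i + 0)).natAbs + (b (i + 1 + 1) - b (i + 1)).natAbs with hd
  have a1 : V.filter (· ∉ Deep b) ⊆ Icc (-1) 1 ×ˢ Icc (-2003 * (n : ℤ)) (2003 * n) ∪
      (Ico (-4002 * (n : ℤ)) (4003 * n)).biUnion fun i =>
        {i} ×ˢ (Icc (b i - d i) (b i) ∪ Icc (-b i) (-b i + d i)) := by
    rintro ⟨i, j⟩ c
    obtain ⟨c1, c2⟩ := mem_filter.1 c
    have := g.out i
    have := g.top i
    rw [g.mem] at c1
    by_cases e : 2 ≤ i.natAbs
    swap
    · exact mem_union_left _ (by simp only [mem_product, mem_Icc] at *; omega)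
    obtain ⟨k, e, f, l⟩ : ∃ k, i - 2 ≤ k ∧ k ≤ i + 2 ∧ b k ≤ j.natAbs := by
      by_contra! f
      exact c2 ⟨e, fun i k l => by have := f i k l; dsimp only; omega⟩
    refine mem_union_right _ (mem_biUnion.2 ⟨i, ?_⟩)
    have : b i - d i ≤ b k := by
      simp only [hd, show i + -2 + 1 = i + -1 by ring, show i + -1 + 1 = i by ring, add_zero]
      obtain rfl | rfl | rfl | rfl | rfl :
        k = i + -2 ∨ k = i + -1 ∨ k = i ∨ k = i + 1 ∨ k = i + 1 + 1 := by omega
      all_goals omega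
    simp only [mem_product, mem_Icc, mem_Ico, mem_union, mem_singleton, true_and] at *
    omega
  refine (card_le_card a1).trans ((card_union_le _ _).trans ((Nat.add_le_add_left
    (card_biUnion_le.trans (sum_le_sum (g := fun i => 2 + 2 * d i) fun i _ => ?_)) _).trans ?_))
  · rw [card_product, card_singleton, one_mul]
    refine (card_union_le _ _).trans ?_
    simp only [Int.card_Icc]
    omega
  · simp only [sum_add_distrib, ← mul_sum, sum_const, Int.card_Ico, smul_eq_mul, hd, card_product,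
      Int.card_Icc]
    have := g.tv (Ico (-4002 * (n : ℤ)) (4003 * n)) (-2)
    have := g.tv (Ico (-4002 * (n : ℤ)) (4003 * n)) (-1)
    have := g.tv (Ico (-4002 * (n : ℤ)) (4003 * n)) 0
    have := g.tv (Ico (-4002 * (n : ℤ)) (4003 * n)) 1
    have := g.odd
    rw [show (1 + 1 - -1 : ℤ).toNat = 3 from rfl]
    omega

/-- The centres favoured by the boundary. -/
def Fav : Set Pt := {x | x.1 < 0 ∧ (x.1 + x.2) % 2 = 1 ∨ 0 < x.1 ∧ (x.1 + x.2) % 2 = 0}

lemma Geo.flat (g : Geo n b m V) {i : ℤ} (h : -4001 * n < i ∧ i ≤ -2001 * n ∨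
    -1999 * n ≤ i ∧ i < -n ∨ 0 < i ∧ i ≤ 1999 * n ∨ 2001 * n ≤ i ∧ i < 4002 * n) :
    1 ≤ b i ∧ (b (i - 1) < b i ∨ b (i + 1) < b i) ∧
      (i < 0 ∧ (i + b i) % 2 = 1 ∨ 0 < i ∧ (i + b i) % 2 = 0) := by
  have := g.odd
  rcases h with h | h | h | h
  · have := g.t1 i (by omega)
    have := g.f1 i (by omega) (by omega)
    have := g.f1 (i - 1) (by omega) (by omega)
    omega
  · have := g.t1 i (by omega)
    have := g.f2 i (by omega) (by omega)
    have := g.f2 (i + 1) (by omega) (by omega)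
    omega
  · have := g.t2 i (by omega)
    have := g.f3 i (by omega) (by omega)
    have := g.f3 (i - 1) (by omega) (by omega)
    omega
  · have := g.t2 i (by omega)
    have := g.f4 i (by omega) (by omega)
    have := g.f4 (i + 1) (by omega) (by omega)
    omega

lemma Geo.unowned (g : Geo n b m V) :
    #((edges V).filter fun e => e.1 ∉ Fav ∧ tip e ∉ Fav) ≤ 24 * n + 4 := by
  have c2 : #((edges V).filter fun e => e.1 ∉ Fav ∧ tip e ∉ Fav) ≤
      #(Icc (-3 * (n : ℤ)) (3 * n)) * 4 := by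
    refine (card_le_card fun e c => ?_).trans
      (card_biUnion_le_card_mul _ (fun j => star (0, j)) 4 fun _ _ => card_star _)
    have d := adj_tip e
    have := g.f3 0 le_rfl (by omega)
    obtain ⟨c1, c2⟩ := mem_filter.1 c
    simp only [mem_edges, g.mem] at c1
    by_cases f : e.1.1 = 0
    · rw [f] at c1
      exact mem_biUnion.2 ⟨e.1.2, mem_Icc.2 (by omega), mem_star.2 (.inl (Prod.ext f rfl))⟩
    · have k : (tip e).1 = 0 := by
        simp only [Fav, Set.mem_ofPred_eq, Adj] at c2 d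
        clear c1
        omega
      rw [k] at c1
      exact mem_biUnion.2 ⟨(tip e).2, mem_Icc.2 (by omega), mem_star.2 (.inr (Prod.ext k rfl))⟩
  rw [Int.card_Icc] at c2
  omega

lemma Geo.corner (g : Geo n b m V) {x : Pt} (h1 : x.2 = b x.1 ∨ x.2 = -b x.1)
    (h2 : b (x.1 - 1) < b x.1 ∨ b (x.1 + 1) < b x.1) {e : Ed} (he : e.1 = x ∨ tip e = x) :
    ¬Inn (Pl V) e := by
  rcases e with ⟨⟨i, j⟩, _ | _⟩ <;> rcases he with rfl | rfl <;> simp [Inn, Pl, plq, g.mem] at * <;>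
    omega

lemma Geo.tgt (g : Geo n b m V) (hη : η ∈ Om V S) :
    Tgt V (ctr (Clu (Deep b) η (0, 0)) (ty η)) (240 * n) := by
  have h := g.dp
  have o := g.odd
  have a1 : ∀ x ∈ ctr (Clu (Deep b) η (0, 0)) (ty η), x ∈ Deep b :=
    fun x a => by_contra fun c => a.1 (h.glob η c)
  set Z := Icc (-4001 * (n : ℤ) + 1) (4002 * n - 1) \ (Ioo (-2001 * (n : ℤ)) (-1999 * n) ∪
    Icc (-(n : ℤ)) 0 ∪ Ioo (1999 * (n : ℤ)) (2001 * n)) with hZ
  have a2 : ∀ i ∈ Z, 1 ≤ b i ∧ (b (i - 1) < b i ∨ b (i + 1) < b i) ∧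
      (i < 0 ∧ (i + b i) % 2 = 1 ∨ 0 < i ∧ (i + b i) % 2 = 0) := fun i c => g.flat (by
    simp only [hZ, mem_sdiff, mem_union, mem_Icc, mem_Ioo] at c
    omega)
  have a3 : 7998 * n ≤ #Z := by
    have c1 := le_card_sdiff (Ioo (-2001 * (n : ℤ)) (-1999 * n) ∪ Icc (-(n : ℤ)) 0 ∪
      Ioo (1999 * (n : ℤ)) (2001 * n)) (Icc (-4001 * (n : ℤ) + 1) (4002 * n - 1))
    have c2 := card_union_le (Ioo (-2001 * (n : ℤ)) (-1999 * n) ∪ Icc (-(n : ℤ)) 0)
      (Ioo (1999 * (n : ℤ)) (2001 * n))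
    have c3 := card_union_le (Ioo (-2001 * (n : ℤ)) (-1999 * n)) (Icc (-(n : ℤ)) 0)
    simp only [Int.card_Icc, Int.card_Ioo, ← hZ] at c1 c2 c3
    omega
  set F2 : Finset Pt := Z.image (fun i => (i, b i)) ∪ Z.image fun i => (i, -b i) with hF
  have a4 : ∀ x ∈ F2, x.1 ∈ Z ∧ (x.2 = b x.1 ∨ x.2 = -b x.1) := fun x c => by
    simp only [hF, mem_union, mem_image] at c
    rcases c with ⟨i, c, rfl⟩ | ⟨i, c, rfl⟩
    exacts [⟨c, .inl rfl⟩, ⟨c, .inr rfl⟩]
  have a5 : #F2 = #Z + #Z := by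
    rw [card_union_of_disjoint, card_image_of_injective, card_image_of_injective]
    · exact fun _ _ c => congrArg Prod.fst c
    · exact fun _ _ c => congrArg Prod.fst c
    · simp only [disjoint_left, mem_image, not_exists, not_and]
      rintro _ ⟨i, c, rfl⟩ k _ e
      obtain ⟨rfl, e⟩ := Prod.mk.inj e
      have := a2 k c
      omega
  refine ⟨Fav, F2, ⟨fun x y c d e => ?_, ctr_ind h hη (h.uncl η), fun x c y d e f k => ?_,
    fun x c d => ⟨?_, h.deep x (a1 _ c)⟩⟩, fun x c => ?_, fun e c => ?_, ?_⟩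
  · simp only [Adj, Fav, Set.mem_ofPred_eq] at *; omega
  · have := (a1 x c).1
    have := (a1 y d).1
    simp only [Fav, Set.mem_ofPred_eq] at *; omega
  · have := (a1 _ c).1
    simp only [Fav, lf, Set.mem_ofPred_eq] at *; omega
  · obtain ⟨d, e⟩ := a4 x c
    have := a2 _ d
    refine mem_filter.2 ⟨(g.mem _).2 (by omega), by simp only [Fav, Set.mem_ofPred_eq]; omega,
      fun f => ?_, fun f => ?_⟩
    · have := (a1 _ f).2 x.1 (by omega) (by omega)
      omega
    · have := (a1 _ f).2 x.1 (by simp [lf]; omega) (by simp [lf]; omega)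
      simp only [lf] at this
      omega
  · exact ⟨fun d => g.corner (a4 _ d).2 (a2 _ (a4 _ d).1).2.1 (.inl rfl) c,
      fun d => g.corner (a4 _ d).2 (a2 _ (a4 _ d).1).2.1 (.inr rfl) c⟩
  · have c1 := (card_le_card (filter_subset_filter (fun d => ¬Pl V (plq d)) (product_subset_product_left
      (t := (univ : Finset Bool)) (show rest V (ctr (Clu (Deep b) η (0, 0)) (ty η)) ⊆ edges V from
        filter_subset _ _)))).trans g.miss
    have c2 := g.unowned
    omega

end Pool.Agent.Lib.MP_7c4eee_pr
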