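import Pool.Agent.Lib.MP_7c4eee_pr.H32Local

/-!
What a cluster of small energy forces: it misses deep balls, labels agree with the boundary,
levels jump by almost integers.
-/

namespace Pool.Agent.Lib.MP_7c4eee_pr

open Finset Classical

variable {V : Finset Pt} {D : Set Pt} {S : Finset ℝ} {η : Ed → ℝ} {τ : ℝ} {s : Pt}

lemma ball_miss (h : Dp V D) {c : ℤ} {P Q : ℕ} (hP : P < c.natAbs)
    (hD : ∀ x : Pt, (x.1 - c).natAbs + x.2.natAbs ≤ P → x ∈ D) {g : Pt} (hg : g ∈ Clu D η (0, 0))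
    (hQ : (g.1 - c).natAbs + g.2.natAbs ≤ Q) :
    P - Q ≤ #(V.filter fun x => x ∈ Clu D η (0, 0) ∧ x ∈ D) := by
  rw [← Nat.card_Ioc]
  refine card_le_card_of_surjOn (fun x => (x.1 - c).natAbs + x.2.natAbs) fun t ht => ?_
  have a := mem_Ioc.1 ht
  have b := Rch.ind (Q := fun y : Pt => t < (y.1 - c).natAbs + y.2.natAbs ∨
      ∃ z ∈ Clu D η (0, 0), (z.1 - c).natAbs + z.2.natAbs = t) hg (.inl (by simp; omega))
    fun u v d e f k l => by
      rcases l with l | l
      · by_cases m : (v.1 - c).natAbs + v.2.natAbs = t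
        · exact .inr ⟨v, d.trans (.step e f k), m⟩
        · exact .inl (by unfold Adj at e; omega)
      · exact .inr l
  obtain ⟨z, d, e⟩ := b.resolve_left (by omega)
  have f := hD z (by omega)
  exact ⟨z, mem_filter.2 ⟨h.mem f, d, f⟩, e⟩

lemma clu_cor (h : Dp V D) (hη : η ∈ Om V S) (hs : ¬Cln D η s) {x y p : Pt} (hx : x ∉ Clu D η s)
    (hy : y ∉ Clu D η s) (h1 : Cor p x) (h2 : Cor p y) :
    LL η (bd (Clu D η s) x) = LL η (bd (Clu D η s) y) := by
  by_cases a : ∃ g ∈ Clu D η s, Cor p g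
  · obtain ⟨g, a, b⟩ := a
    exact (clu_eff h hη hs hx a h1 b).1.symm.trans (clu_eff h hη hs hy a h2 b).1
  · have b : (y.1, x.2) ∉ Clu D η s := fun b => a ⟨_, b, h2.1, h1.2⟩
    have c : ∀ u v, u ∉ Clu D η s → v ∉ Clu D η s → u = v ∨ Adj u v →
        LL η (bd (Clu D η s) u) = LL η (bd (Clu D η s) v) := fun u v d e f =>
      f.elim (fun f => f ▸ rfl) (clu_adj h hη hs d e)
    refine (c _ _ hx b ?_).trans (c _ _ b hy ?_) <;>
      simp only [Adj, Cor, Prod.ext_iff, true_and, and_true] at h1 h2 ⊢ <;> omega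

lemma row_label (h : Dp V D) (hη : η ∈ Om V S) (hs : ¬Cln D η s) {a b j : ℤ} (hab : a < b)
    (h1 : ∀ t, a ≤ t → t ≤ b → Pl V (t, j)) (h2 : ¬Pl V (b, j + 1)) (h3 : (b, j) ∈ Clu D η s)
    (h4 : (b, j + 1) ∈ Clu D η s) (h5 : (a, j) ∉ Clu D η s)
    (h6 : lab (ty η) (bd (Clu D η s) (a, j)) ≠ (b + j) % 2) :
    ∃ e ∈ (rest V (ctr (Clu D η s) (ty η))).filter (Dfc (Pl V) (ty η)), e.1.2 = j := by
  by_contra! hc
  set c := lab (ty η) (bd (Clu D η s) (a, j))
  set Q : Pt → Prop := fun p => (∀ x ∉ Clu D η s, Cor p x → lab (ty η) (bd (Clu D η s) x) = c) ∧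
    ∀ g ∈ Clu D η s, Cor p g → lab (ty η) p = c ∧ ty η p ≠ 2 with hQ
  have a1 : ∀ p, ∀ x ∉ Clu D η s, Cor p x → lab (ty η) (bd (Clu D η s) x) = c → Q p :=
    fun p x d e f => ⟨fun y k l => (congrArg Prod.fst (clu_cor h hη hs k d l e)).trans f,
      fun g k l => (clu_eff h hη hs d k e l).imp (fun m => (congrArg Prod.fst m).trans f) id⟩
  have a2 : ∀ t, a < t → t ≤ b → (t, j) ∈ Clu D η s → (t, j + 1) ∈ Clu D η s →
      Inn (Pl V) ((t, j), true) ∧ ¬Dfc (Pl V) (ty η) ((t, j), true) := fun t d e f k =>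
    ⟨⟨h1 t d.le e, h1 (t - 1) (by omega) (by omega)⟩, fun l => hc ((t, j), true) (mem_filter.2 ⟨mem_rest.2
      ⟨⟨(h1 t d.le e).1, (h1 t d.le e).2.2.1⟩, fun m => m.1 f, fun m => m.1 k⟩, l⟩) rfl⟩
  have a3 : ∀ t, a ≤ t → t ≤ b → Q (t, j) := fun t d => by
    induction t, d using Int.leInduction with
    | base => exact fun _ => a1 _ _ h5 (by simp [Cor]) rfl
    | succ t d ih =>
      intro e
      have f := ih (by omega)
      by_cases k : (t + 1, j) ∈ Clu D η s
      swap
      · exact a1 _ _ k (by simp [Cor]) (f.1 _ k (by simp [Cor]))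
      by_cases l : (t + 1, j + 1) ∈ Clu D η s
      swap
      · exact a1 _ _ l (by simp [Cor]) (f.1 _ l (by simp [Cor]))
      obtain ⟨m1, m2⟩ := a2 (t + 1) (by omega) e k l
      obtain ⟨m3, m4, -⟩ := agr_LL h hη m1 (by_contra fun m => m2 ⟨m1, .inl m⟩)
      have m5 : lab (ty η) (t + 1, j) = c := by
        rw [← (f.2 _ k (by simp [Cor])).1]
        simpa [LL, plq] using (congrArg Prod.fst m3).symm
      exact ⟨fun x n1 n2 => (congrArg Prod.fst (clu_eff h hη hs n1 k n2
        (by simp [Cor])).1).symm.trans m5, fun _ _ _ => ⟨m5, m4⟩⟩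
  obtain ⟨b1, b2⟩ := (a3 b hab.le le_rfl).2 _ h3 (by simp [Cor])
  obtain ⟨b3, b4⟩ := a2 b hab le_rfl h3 h4
  have b5 : ty η (b, j) = 1 := by
    simp only [lab] at b1
    omega
  exact b4 ⟨b3, .inr ⟨true, fun d => h2 (by simpa [ptn, plq, slot, b5, mate, side] using d.1)⟩⟩

/-- The height on the cluster, the level off it. -/
noncomputable def psi (G : Set Pt) (η : Ed → ℝ) (x : Pt) : ℝ :=
  if x ∈ G then pot η x else lev η (bd G x)

/-- The parity on the cluster, the parity of the sites at the level off it. -/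
noncomputable def pari (G : Set Pt) (η : Ed → ℝ) (x : Pt) : ℤ :=
  if x ∈ G then x.1 + x.2 else 1 + lab (ty η) (bd G x)

lemma jump_step (h : Dp V D) (hS : Sidon S τ) (hτ : 0 ≤ τ) (hη : η ∈ Om V S) (hs : ¬Cln D η s)
    {x : Pt} (he : (x, false) ∈ edges V)
    (h0 : (x, false) ∈ rest V (ctr (Clu D η s) (ty η)) → η (x, false) ≠ 0) :
    ∃ m : ℤ, |psi (Clu D η s) η (x.1 + 1, x.2) - psi (Clu D η s) η x - m| ≤
      τ * ((if x ∈ Clu D η s then 1 else 0) + if (x.1 + 1, x.2) ∈ Clu D η s then 1 else 0) ∧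
      (m + pari (Clu D η s) η x + pari (Clu D η s) η (x.1 + 1, x.2)) % 2 = 0 := by
  have a : η (x, false) ≠ 0 → ∃ m : ℤ, |pot η (x.1 + 1, x.2) - pot η x - m| ≤ τ ∧ m % 2 = 1 :=
    fun a => by
      have b := hS.size _ ((mem_Om.1 hη).1 _ he) a
      have c := h.pot hη he
      simp only [tip_false] at c
      rw [c, add_sub_cancel_left]
      rcases abs_cases (η (x, false)) with d | d
      · exact ⟨1, abs_le.2 (by push_cast; constructor <;> linarith), rfl⟩
      · exact ⟨-1, abs_le.2 (by push_cast; constructor <;> linarith), rfl⟩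
  have d : Adj x (x.1 + 1, x.2) := by simp [Adj]
  unfold psi pari
  by_cases b : x ∈ Clu D η s <;> by_cases c : (x.1 + 1, x.2) ∈ Clu D η s <;>
    simp only [b, c, if_true, if_false]
  · obtain ⟨m, e, f⟩ := a (h0 (mem_filter.2 ⟨he, fun e => e.1 b, fun e => e.1 c⟩))
    exact ⟨m, by linarith, by omega⟩
  · have e : Nb (Clu D η s) (x.1 + 1, x.2) := ⟨c, x, b, d.symm⟩
    obtain ⟨f, k⟩ := (clu_nb hs e).LL h hη (p := x) (by simp [Cor])
    have l := Prod.ext_iff.1 ((clu_bd h hη hs c (.refl _) e).trans f.symm)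
    simp only [LL] at l
    rw [l.1, l.2, lab, lev]
    split_ifs with t
    · obtain ⟨m, e, f⟩ := a ((clu_nb hs e).2 _ (mem_star.2 (.inr rfl))).2
      exact ⟨m, by linarith, by omega⟩
    · exact ⟨0, by simpa using hτ, by omega⟩
  · have e : Nb (Clu D η s) x := ⟨b, _, c, d⟩
    have k := ((clu_nb hs e).LL h hη (p := x) (by simp [Cor])).2
    have l := Prod.ext_iff.1 (clu_bd h hη hs b (.refl _) e)
    simp only [LL] at l
    rw [l.1, l.2, lab, lev]
    split_ifs with t
    · exact ⟨0, by simpa using hτ, by omega⟩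
    · obtain ⟨m, e, f⟩ := a ((clu_nb hs e).2 _ (mem_star.2 (.inl rfl))).2
      exact ⟨m, by linarith, by omega⟩
  · have l := Prod.ext_iff.1 (clu_adj h hη hs b c d)
    simp only [LL] at l
    exact ⟨0, by simp [l.2], by omega⟩

lemma jump_row (h : Dp V D) (hS : Sidon S τ) (hτ : 0 ≤ τ) (hη : η ∈ Om V S) (hs : ¬Cln D η s)
    {a b j : ℤ} (hab : a ≤ b) (h1 : ∀ t, a ≤ t → t ≤ b → (t, j) ∈ V)
    (h0 : ∀ e ∈ rest V (ctr (Clu D η s) (ty η)), e.1.2 = j → η e ≠ 0) :
    ∃ m : ℤ, |psi (Clu D η s) η (b, j) - psi (Clu D η s) η (a, j) - m| +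
      τ * (if (b, j) ∈ Clu D η s then 1 else 0) ≤
      τ * (2 * #((Icc a b).filter fun t => (t, j) ∈ Clu D η s)) ∧
      (m + pari (Clu D η s) η (a, j) + pari (Clu D η s) η (b, j)) % 2 = 0 := by
  induction b, hab using Int.leInduction with
  | base =>
    refine ⟨0, ?_, by omega⟩
    rw [Icc_self, filter_singleton]
    split_ifs <;> simp
    linarith
  | succ b hab ih =>
    obtain ⟨m, c, d⟩ := ih fun t c d => h1 t c (by omega)
    obtain ⟨m', e, f⟩ := jump_step h hS hτ hη hs (x := (b, j))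
      (mem_edges.2 ⟨h1 b hab (by omega), h1 (b + 1) (by omega) le_rfl⟩) fun e => h0 _ e rfl
    refine ⟨m + m', ?_, by dsimp only at f; omega⟩
    rw [show Icc a (b + 1) = insert (b + 1) (Icc a b) by ext; simp; omega, filter_insert]
    have k := abs_add_le (psi (Clu D η s) η (b, j) - psi (Clu D η s) η (a, j) - m)
      (psi (Clu D η s) η (b + 1, j) - psi (Clu D η s) η (b, j) - m')
    dsimp only at e
    push_cast
    rw [show ∀ u v w x y : ℝ, u - v - x + (w - u - y) = w - v - (x + y) by intros; ring] at k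
    by_cases l : (b + 1, j) ∈ Clu D η s <;> simp only [l, if_true, if_false] at e ⊢
    · rw [card_insert_of_notMem (by simp)]
      push_cast
      linarith
    · linarith

lemma good_row (h : Dp V D) (hs : ¬Cln D η s) {A n : ℕ} (hA : 1 ≤ A)
    (hH : enr V (ctr (Clu D η s) (ty η)) A η < A * n) :
    ∃ j ∈ Ico (0 : ℤ) n, (∀ e ∈ rest V (ctr (Clu D η s) (ty η)), e.1.2 = j → η e ≠ 0) ∧
      #((V.filter fun x => x ∈ Clu D η s ∧ x ∈ D).filter fun x => x.2 = j) < 3 * A := by
  set Z := (rest V (ctr (Clu D η s) (ty η))).filter fun e => η e = 0 with hZ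
  set W := V.filter fun x => x ∈ Clu D η s ∧ x ∈ D
  have a1 : #W ≤ _ := card_deep h hs hA
  have a2 : ∑ j ∈ Ico (0 : ℤ) n, #(Z.filter fun e => e.1.2 = j) ≤ #Z := by
    rw [sum_card_fiberwise_eq_card_filter]; exact card_filter_le _ _
  have a3 : ∑ j ∈ Ico (0 : ℤ) n, #(W.filter fun x => x.2 = j) ≤ #W := by
    rw [sum_card_fiberwise_eq_card_filter]; exact card_filter_le _ _
  have a4 : 8 * A * #Z ≤ enr V (ctr (Clu D η s) (ty η)) A η := Nat.le_add_left _ _
  obtain ⟨j, b, c⟩ := exists_lt_of_sum_lt (s := Ico (0 : ℤ) n) (g := fun _ => 3 * A)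
    (f := fun j => 8 * A * #(Z.filter fun e => e.1.2 = j) + #(W.filter fun x => x.2 = j)) (by
      rw [sum_add_distrib, ← mul_sum, sum_const, Int.card_Ico, sub_zero, Int.toNat_natCast,
        smul_eq_mul]
      nlinarith [Nat.mul_le_mul_left (8 * A) a2])
  refine ⟨j, b, fun e d f k => ?_, by omega⟩
  have : 1 ≤ #(Z.filter fun e => e.1.2 = j) :=
    card_pos.2 ⟨e, mem_filter.2 ⟨mem_filter.2 ⟨d, k⟩, f⟩⟩
  nlinarith

/-- All four increments from the neighbours to `x` agree. -/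
def Cst (η : Ed → ℝ) (x : Pt) : Prop := η (x, true) = η (x, false) ∧
  η ((x.1 - 1, x.2), false) = -η (x, false) ∧ η ((x.1, x.2 - 1), true) = -η (x, false)

/-- The height of a centre above its neighbours. -/
noncomputable def xi (η : Ed → ℝ) (x : Pt) : ℝ := if Cst η x then -η (x, false) else 0

/-- Reflection of a centre in the level of its neighbours. -/
noncomputable def flp (x : Pt) (η : Ed → ℝ) (e : Ed) : ℝ :=
  if Cst η x ∧ e ∈ star x then -η e else η e

lemma flp_cst (x : Pt) (η : Ed → ℝ) : Cst (flp x η) x ↔ Cst η x := by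
  by_cases a : Cst η x
  · simp only [a, iff_true]
    simp only [Cst, flp, star, mem_insert, mem_singleton, true_or, or_true, and_self, if_true,
      a.1, a.2.1, a.2.2]
  · rw [show flp x η = η from funext fun e => if_neg fun b => a b.1]

lemma flp_flp (x : Pt) (η : Ed → ℝ) : flp x (flp x η) = η := funext fun e => by
  rw [flp, flp_cst, flp]; split_ifs <;> simp

lemma xi_flp (x : Pt) (η : Ed → ℝ) : xi (flp x η) x = -xi η x := by
  rw [xi, xi, flp_cst, flp]
  by_cases a : Cst η x <;> simp [a, star]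

lemma xi_flp_ne {x y : Pt} (h : x ≠ y) (h' : ¬Adj x y) (η : Ed → ℝ) : xi (flp x η) y = xi η y := by
  have a : ∀ e ∈ star y, flp x η e = η e := fun e a => if_neg fun b => by
    have c := adj_tip e
    rcases mem_star.1 a with rfl | rfl <;> rcases mem_star.1 b.2 with rfl | rfl
    exacts [h rfl, h' c.symm, h' c, h rfl]
  simp only [star, mem_insert, mem_singleton, forall_eq_or_imp, forall_eq] at a
  exact if_congr (by simp only [Cst, a]) (by rw [a.1]) rfl

lemma flp_mem (hS : Sidon S τ) (x : Pt) (hη : η ∈ Om V S) : flp x η ∈ Om V S := by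
  obtain ⟨a, b, c⟩ := mem_Om.1 hη
  refine mem_Om.2 ⟨fun e d => ?_, fun e d => by simp [flp, b e d], fun p d => ?_⟩
  · unfold flp
    split_ifs
    exacts [hS.neg _ (a e d), a e d]
  · have e := c p d
    by_cases f : Cst η x
    · rcases p with ⟨i, j⟩
      rcases x with ⟨k, l⟩
      have ⟨f1, f2, f3⟩ := f
      simp only [Curl, flp, f, true_and, mem_star, tip_true, tip_false, Prod.mk.injEq] at *
      by_cases g1 : i = k <;> by_cases g2 : j = l <;> by_cases g3 : i + 1 = k <;>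
        by_cases g4 : j + 1 = l <;> first | omega | (simp only [g1, g2, g3, g4]; subst_vars; simp at *; linarith)
    · rwa [show flp x η = η from funext fun e => if_neg fun b => f b.1]

lemma xi_abs (hS : Sidon S τ) (hτ : τ ≤ 1) (hη : η ∈ Om V S) (x : Pt) : |xi η x| ≤ 2 := by
  unfold xi
  by_cases a : η (x, false) = 0
  · simp [a]
  split_ifs
  · rw [abs_neg]
    linarith [(hS.size _ ((mem_Om.1 hη).1 _ (by_contra fun b => a ((mem_Om.1 hη).2.1 _ b))) a).2]
  · simp

lemma xi_var (hS : Sidon S τ) (hτ : τ ≤ 1) {w : ℝ} (w0 : 0 ≤ w) (U : Finset Pt)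
    (hU : ∀ x ∈ U, ∀ y ∈ U, ¬Adj x y) (a : Pt → ℝ) :
    ∑ η ∈ Om V S, wgt w (edges V) η * (∑ x ∈ U, a x * xi η x) ^ 2 ≤
      4 * (∑ x ∈ U, a x ^ 2) * ∑ η ∈ Om V S, wgt w (edges V) η := by
  rw [sum_congr rfl fun η _ => show _ = ∑ x ∈ U, ∑ y ∈ U,
    wgt w (edges V) η * (a x * xi η x * (a y * xi η y)) by
      rw [sq, sum_mul_sum, mul_sum]; simp only [mul_sum], sum_comm, mul_sum U, sum_mul]
  refine sum_le_sum fun x hx => ?_
  rw [sum_comm, sum_eq_single_of_mem x hx fun y hy hxy => ?_, mul_sum]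
  · refine sum_le_sum fun η hη => ?_
    have b := abs_le.1 (xi_abs hS hτ hη x)
    have c := mul_nonneg (wgt_nonneg w0 (edges V) η) (mul_self_nonneg (a x))
    have d : xi η x * xi η x ≤ 4 := by nlinarith
    nlinarith [mul_le_mul_of_nonneg_left d c]
  · have b := sum_nbij' (s := Om V S) (t := Om V S) (flp x) (flp x) (fun _ => flp_mem hS x)
      (fun _ => flp_mem hS x) (fun η _ => flp_flp x η) (fun η _ => flp_flp x η)
      (f := fun η => -(wgt w (edges V) η * (a x * xi η x * (a y * xi η y))))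
      (g := fun η => wgt w (edges V) η * (a x * xi η x * (a y * xi η y))) fun η _ => by
        rw [xi_flp, xi_flp_ne hxy.symm (hU x hx y hy), wgt, wgt,
          filter_congr (p := fun e => flp x η e = 0) (q := fun e => η e = 0) fun e _ => by
            unfold flp; split_ifs <;> simp]
        ring
    rw [sum_neg_distrib] at b
    linarith

lemma Cln.xi (h : Dp V D) (hη : η ∈ Om V S) {x : Pt} (hx : Cln D η x) :
    pot η x = lev η x + if (x.1 + x.2) % 2 = lab (ty η) x then xi η x else 0 := by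
  have a1 := hx.LL h hη (p := x) (by simp [Cor])
  have a2 := hx.LL h hη (p := (x.1 - 1, x.2)) (by simp [Cor])
  have a3 := hx.LL h hη (p := (x.1, x.2 - 1)) (by simp [Cor])
  simp only [Pool.Agent.Lib.MP_7c4eee_pr.LL, Prod.mk.injEq, lab] at a1 a2 a3
  unfold lev lab
  by_cases b : ty η x = 0
  · have c1 := (ty_zero b).1
    have c2 := (ty_one (show ty η (x.1 - 1, x.2) = 1 by omega)).1
    have c3 := (ty_one (show ty η (x.1, x.2 - 1) = 1 by omega)).2
    simp only [sub_add_cancel] at c2 c3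
    have c4 := h.pot hη (h.star hx.1 (e := (x, false)) (by simp [star])).1
    rw [if_pos b, if_pos (by omega), Pool.Agent.Lib.MP_7c4eee_pr.xi,
      if_pos ⟨c1.symm, by rw [c2, c1], c3⟩]
    simp only [tip_false] at c4
    linarith
  · rw [if_neg b, if_neg (by omega), add_zero]

end Pool.Agent.Lib.MP_7c4eee_pr
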