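import Pool.Agent.Lib.MP_7c4eee_pr.H32Peierls

/-!
Clusters that stay in the deep part: they are rare, and they control the distance of the height
from the level of the component.
-/

namespace Pool.Agent.Lib.MP_7c4eee_pr

open Finset Classical

variable {V : Finset Pt} {D : Set Pt} {S : Finset ℝ} {η : Ed → ℝ} {τ : ℝ}

/-- `z` lies in a cluster with at least `k` points, all deep. -/
def Loc (V : Finset Pt) (D : Set Pt) (z : Pt) (k : ℕ) (η : Ed → ℝ) : Prop :=
  ¬Cln D η z ∧ Clu D η z ⊆ D ∧ k ≤ #(V.filter (· ∈ Clu D η z))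

lemma lab_cases (t : Pt → Fin 3) (p : Pt) : lab t p = 0 ∨ lab t p = 1 := by unfold lab; omega

lemma loc_tgt (h : Dp V D) (hη : η ∈ Om V S) {z : Pt} (hz : ¬Cln D η z) (hD : Clu D η z ⊆ D) :
    Tgt V (ctr (Clu D η z) (ty η)) 0 := by
  have a := lab_cases (ty η) (bd (Clu D η z) (0, 0))
  refine ⟨{x | (x.1 + x.2) % 2 = lab (ty η) (bd (Clu D η z) (0, 0))}, ∅,
    ⟨fun x y b c d => ?_, ctr_ind h hη hz, fun x _ y _ b c d => ?_, fun x b c => ⟨?_, h.deep x ?_⟩⟩,
    empty_subset _, fun _ _ => by simp, ?_⟩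
  · simp only [Adj, Set.mem_ofPred_eq] at *; omega
  · simp only [Set.mem_ofPred_eq] at *; omega
  · simp only [lf, Set.mem_ofPred_eq] at *; omega
  · exact by_contra fun d => c (b.2.trans (congrArg Prod.fst (clu_rch h hη hz
      (fun e => h.zero (hD e)) ((h.conn _ d).mono (Set.compl_subset_compl.2 hD)))).symm)
  · simp only [card_empty, mul_zero, add_zero, nonpos_iff_eq_zero, Nat.add_eq_zero_iff,
      mul_eq_zero, OfNat.ofNat_ne_zero, false_or, card_eq_zero, filter_eq_empty_iff]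
    refine ⟨?_, fun e _ => ?_⟩
    swap
    · have := adj_tip e
      simp only [Adj, Set.mem_ofPred_eq] at *; omega
    · rintro ⟨e, s⟩ b
      have c : Inn (Pl V) e := by
        rcases rest_clu h hη hz (mem_product.1 b).1 with c | c
        exacts [(h.star (hD c) (mem_star.2 (.inl rfl))).2, (h.star (hD c) (mem_star.2 (.inr rfl))).2]
      cases s
      exacts [not_not.2 c.2, not_not.2 c.1]

lemma kap_pos : 0 < kap := by rw [kap]; positivity

lemma enr_pow {r M : ℝ} (hM : 1 ≤ M) (hr : (kap * M) ^ 2 ≤ r) {L m H : ℕ} (h : L ≤ 2 * H + m) :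
    M ^ L ≤ (kap * M) ^ m * (r ^ H * (1 / kap) ^ L) := by
  have a : 1 ≤ kap * M := by rw [kap]; linarith
  have b := kap_pos
  rw [one_div, inv_pow, ← mul_assoc, le_mul_inv_iff₀ (by positivity), ← mul_pow, mul_comm M]
  calc _ ≤ (kap * M) ^ (m + 2 * H) := pow_le_pow_right₀ a (by omega)
    _ ≤ _ := by rw [pow_add, pow_mul]; gcongr

lemma loc_prob {s0 w r M : ℝ} (h : Dp V D) (hS : Sidon S τ) (h0 : s0 ∈ S.erase 0) {A : ℕ}
    (hA : 1 ≤ A) (hM : 1 ≤ M) (hr : (kap * M) ^ 2 ≤ r) (hq : (#(S.erase 0) : ℝ) = r ^ 8)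
    (w0 : 0 ≤ w) (hw : w * r ^ (8 * A) = 1) (z : Pt) (k : ℕ) :
    ∑ η ∈ (Om V S).filter (Loc V D z k), wgt w (edges V) η * M ^ k ≤
      ∑ η ∈ Om V S, wgt w (edges V) η := by
  have a : 1 ≤ kap * M := by rw [kap]; linarith
  have b := peierls h hS h0 ((one_le_pow₀ a).trans hr) (c := 0) hq w0 hw z ∅
    (E := (Om V S).filter (Loc V D z k)) fun η b => by
      obtain ⟨b1, b2, b3, -⟩ := mem_filter.1 b
      exact ⟨b1, b2, fun x c => ⟨fun d => c (h.mem (b3 d)), False.elim⟩, loc_tgt h b1 b2 b3⟩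
  rw [pow_zero, one_mul] at b
  refine (sum_le_sum fun η c => ?_).trans b
  obtain ⟨-, b2, b3, b4⟩ := mem_filter.1 c
  have d := card_deep h b2 hA
  rw [filter_congr (q := (· ∈ Clu D η z)) fun x _ => and_iff_left_of_imp fun e => b3 e] at d
  have e := enr_pow hM hr (m := 0) d
  rw [mul_assoc]
  rw [pow_zero, one_mul] at e
  exact mul_le_mul_of_nonneg_left ((pow_le_pow_right₀ hM b4).trans e) (wgt_nonneg w0 _ _)

lemma ivt {P : ℕ → Prop} {a b : ℕ} (h : a ≤ b) (ha : ¬P a) (hb : P b) :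
    ∃ m, a ≤ m ∧ m < b ∧ ¬P m ∧ P (m + 1) := by
  induction b, h using Nat.le_induction with
  | base => exact absurd hb ha
  | succ k hk ih =>
    by_cases c : P k
    · obtain ⟨m, d⟩ := ih c
      exact ⟨m, d.1, by omega, d.2.2⟩
    · exact ⟨k, hk, by omega, c, hb⟩

lemma exists_out (V : Finset Pt) (x : Pt) :
    ∃ k : ℕ, (x.1 + k, x.2) ∉ V ∧ (x.1, x.2 + k) ∉ V := by
  refine ⟨V.sup (fun y => y.1.natAbs + y.2.natAbs) + x.1.natAbs + x.2.natAbs + 1, ?_, ?_⟩ <;>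
  · intro h
    have := le_sup (f := fun y : Pt => y.1.natAbs + y.2.natAbs) h
    dsimp only at this
    omega

/-- `x` is joined to the origin off the cluster of `z`. -/
def Ext (D : Set Pt) (η : Ed → ℝ) (z x : Pt) : Prop := Rch (Clu D η z)ᶜ (0, 0) x

/-- `x` is cut off from the origin by a cluster other than the global one. -/
def Cov (D : Set Pt) (η : Ed → ℝ) (x : Pt) : Prop :=
  ∃ z, ¬Cln D η z ∧ z ∉ Clu D η (0, 0) ∧ ¬Ext D η z x

lemma Dp.uncl (h : Dp V D) (η : Ed → ℝ) : ¬Cln D η (0, 0) := fun a => h.zero a.1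

lemma Dp.glob (h : Dp V D) (η : Ed → ℝ) {x : Pt} (hx : x ∉ D) : x ∈ Clu D η (0, 0) :=
  (h.conn x hx).mono (B' := {y | ¬Cln D η y}) fun y (a : y ∉ D) b => a b.1

lemma clu_disj {z z' : Pt} (h : z ∉ Clu D η z') : Clu D η z ⊆ (Clu D η z')ᶜ :=
  fun _ a b => h (Rch.trans b (Rch.symm a))

lemma ext_glob {z g : Pt} (hz : z ∉ Clu D η (0, 0)) (hg : g ∈ Clu D η (0, 0)) : Ext D η z g :=
  (clu_conn hg).mono (clu_disj fun a => hz (Rch.symm a))

lemma Ext.out {z x : Pt} (hz : z ∉ Clu D η (0, 0)) (h : Ext D η z x) : x ∉ Clu D η z :=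
  Rch.mem h fun a => hz (Rch.symm a)

lemma Ext.nb {z x y : Pt} (hz : z ∉ Clu D η (0, 0)) (h : Ext D η z x) (hy : ¬Ext D η z y)
    (a : Adj x y) : y ∈ Clu D η z ∧ Nb (Clu D η z) x :=
  have b : y ∈ Clu D η z := by_contra fun b => hy (Rch.trans h (.step a (h.out hz) b))
  ⟨b, h.out hz, y, b, a⟩

lemma nb_rch {z z' y y' : Pt} (hz : ¬Cln D η z) (hz' : ¬Cln D η z') (h : z ∉ Clu D η z')
    (hy : Nb (Clu D η z) y) (hy' : Nb (Clu D η z) y') : Rch (Clu D η z')ᶜ y y' := by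
  have a : ∀ y, Nb (Clu D η z) y → Rch (Clu D η z')ᶜ z y := fun y b => by
    obtain ⟨g, c, d⟩ := b.2
    exact ((clu_conn c).mono (clu_disj h)).trans
      (.step d.symm (clu_disj h c) fun e => Rch.mem e hz' (clu_nb hz b))
  exact (a y hy).symm.trans (a y' hy')

lemma uncov_nb {z y y' : Pt} (hz : ¬Cln D η z) (hy : Nb (Clu D η z) y) (hy' : Nb (Clu D η z) y')
    (h : Ext D η z y') {z' : Pt} (hz' : ¬Cln D η z') (h' : Ext D η z' y) : Ext D η z' y' := by
  by_cases a : z ∈ Clu D η z'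
  · exact Rch.mono (fun u (b : u ∉ Clu D η z) c => b (Rch.trans (Rch.symm a) c)) h
  · exact Rch.trans h' (nb_rch hz hz' a hy hy')

lemma uncov_cln {y : Pt} (hy : y ∉ Clu D η (0, 0)) (h : ¬Cov D η y) : Cln D η y :=
  by_contra fun a => h ⟨y, a, hy, fun b => b.out hy clu_self⟩

lemma uncov_LL (h : Dp V D) (hη : η ∈ Om V S) (k : ℕ) : ∀ y, y ∉ Clu D η (0, 0) → ¬Cov D η y →
    (y.1 + k, y.2) ∈ Clu D η (0, 0) → LL η (bd (Clu D η (0, 0)) y) = LL η y := by
  induction k using Nat.strong_induction_on with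
  | _ k ih =>
  intro y a b c
  have u := h.uncl η
  have d : Adj y (y.1 + 1, y.2) := by simp [Adj]
  have k0 : k ≠ 0 := by rintro rfl; exact a (by simpa using c)
  by_cases e : (y.1 + 1, y.2) ∈ Clu D η (0, 0)
  · exact clu_bd h hη u a (.refl _) ⟨a, _, e, d⟩
  by_cases f : Cov D η (y.1 + 1, y.2)
  · obtain ⟨z, f1, f2, f3⟩ := f
    obtain ⟨m, g1, g2, g3, g4⟩ := ivt (P := fun t : ℕ => Ext D η z (y.1 + t, y.2)) (a := 1) (b := k)
      (by omega) f3 (ext_glob f2 c)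
    have l1 : Ext D η z y := by_contra fun l => b ⟨z, f1, f2, l⟩
    have l2 := (l1.nb f2 f3 d).2
    have l3 := (g4.nb f2 g3 (by simp [Adj])).2
    have l4 : (y.1 + (m + 1 : ℕ), y.2) ∉ Clu D η (0, 0) := fun l => Rch.mem l u (clu_nb f1 l3)
    have l5 : (0, 0) ∉ Clu D η z := fun l => f2 (Rch.symm l)
    rw [clu_rch h hη u a (nb_rch f1 u f2 l2 l3), ih (k - (m + 1)) (by omega) _ l4
      (fun ⟨z', n1, n2, n3⟩ => n3 (uncov_nb f1 l2 l3 g4 n1 (by_contra fun l => b ⟨z', n1, n2, l⟩)))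
      (by convert c using 2; dsimp only; omega)]
    exact (clu_bd h hη f1 l5 g4 l3).symm.trans (clu_bd h hη f1 l5 l1 l2)
  · rw [clu_adj h hη u a e d, ih (k - 1) (by omega) _ e f (by convert c using 2; dsimp only; omega)]
    exact ((uncov_cln e f).LL h hη (by simp [Cor])).1.symm

lemma pot_step (h : Dp V D) (hS : Sidon S τ) (hτ : 0 ≤ τ ∧ τ ≤ 1) (hη : η ∈ Om V S) {x : Pt}
    (hx : x ∈ D) : |pot η x - pot η (x.1 + 1, x.2)| ≤ 2 := by
  have a := (h.star hx (e := (x, false)) (by simp [star])).1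
  have b := h.pot hη a
  simp only [tip_false] at b
  rw [b, sub_add_cancel_left, abs_neg]
  by_cases c : η (x, false) = 0
  · simp [c]
  · linarith [(hS.size _ ((mem_Om.1 hη).1 _ a) c).2]

lemma loc_bound (h : Dp V D) (hS : Sidon S τ) (hτ : 0 ≤ τ ∧ τ ≤ 1) (hη : η ∈ Om V S) {x : Pt}
    (hx : x ∉ Clu D η (0, 0)) : (Cln D η x ∧ LL η (bd (Clu D η (0, 0)) x) = LL η x) ∨
      ∃ k : ℕ, Loc V D (x.1 + k, x.2) (k + 1) η ∧
        |pot η x - lev η (bd (Clu D η (0, 0)) x)| ≤ 2 * k + 4 := by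
  have u := h.uncl η
  have out : ∀ y, y ∉ V → y ∈ Clu D η (0, 0) := fun y a => h.glob η fun b => a (h.mem b)
  have unc : ∀ y, y ∉ Clu D η (0, 0) → ¬Cov D η y → LL η (bd (Clu D η (0, 0)) y) = LL η y :=
    fun y a b => (exists_out V y).elim fun k c => uncov_LL h hη k y a b (out _ c.1)
  have ex : ∃ t : ℕ, ¬Cov D η (x.1 + t, x.2) := (exists_out V x).imp fun k c ⟨z, _, d, e⟩ =>
    e (ext_glob d (out _ c.1))
  have a1 := Nat.find_spec ex
  have a2 : ∀ s < Nat.find ex, Cov D η (x.1 + s, x.2) := fun s b => not_not.1 (Nat.find_min ex b)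
  rcases hk : Nat.find ex with _ | k
  · rw [hk] at a1
    simp only [Nat.cast_zero, add_zero] at a1
    exact .inl ⟨uncov_cln hx a1, unc x hx a1⟩
  rw [hk] at a1 a2
  obtain ⟨z, b1, b2, b3⟩ := a2 k (by omega)
  have b4 : ∀ z', ¬Cln D η z' → z' ∉ Clu D η (0, 0) → Ext D η z' (x.1 + (k + 1 : ℕ), x.2) :=
    fun z' c d => by_contra fun e => a1 ⟨z', c, d, e⟩
  obtain ⟨b5, b6⟩ := (b4 z b1 b2).nb b2 b3 (by simp [Adj])
  have b7 : ∀ s ≤ k + 1, (x.1 + (s : ℕ), x.2) ∉ Clu D η (0, 0) := fun s c d => by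
    rcases c.eq_or_lt with rfl | c
    · exact Rch.mem d u (clu_nb b1 b6)
    · obtain ⟨z', -, e, f⟩ := a2 s c
      exact f (ext_glob e d)
  have b8 : ∀ s ≤ k, ¬Ext D η z (x.1 + (s : ℕ), x.2) := fun s c => by
    induction c using Nat.decreasingInduction with
    | self => exact b3
    | of_succ s c ih =>
      intro d
      obtain ⟨z', e1, e2, e3⟩ := a2 s (by omega)
      exact e3 (uncov_nb b1 b6 (d.nb b2 ih (by simp [Adj])).2 d e1 (b4 z' e1 e2))
  have b9 : Clu D η (x.1 + k, x.2) = Clu D η z :=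
    Set.ext fun y => ⟨fun c => Rch.trans b5 c, fun c => Rch.trans (Rch.symm b5) c⟩
  have c1 : Clu D η z ⊆ D := fun y c => by_contra fun d => clu_disj b2 c (h.glob η d)
  refine .inr ⟨k, ⟨Rch.mem b5 b1, b9 ▸ c1, ?_⟩, ?_⟩
  · rw [b9, ← card_range (k + 1)]
    refine card_le_card_of_surjOn (fun y => (y.1 - x.1).toNat) fun s c => ?_
    obtain ⟨m, -, d⟩ := exists_out V (x.1 + s, x.2)
    by_contra e
    refine b8 s (by simpa [Nat.lt_succ_iff] using c) (Rch.trans (ext_glob b2 (out _ d))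
      (rch_col (B := (Clu D η z)ᶜ) (by simp) fun t _ _ f =>
        e ⟨(x.1 + s, t), mem_filter.2 ⟨h.mem (c1 f), f⟩, by simp⟩).symm)
  · have d1 : ∀ s ≤ k + 1, |pot η x - pot η (x.1 + (s : ℕ), x.2)| ≤ 2 * s := fun s c => by
      induction s with
      | zero => simp
      | succ s ih =>
        have e := pot_step h hS hτ hη (x := (x.1 + s, x.2))
          (by_contra fun e => b7 s (by omega) (h.glob η e))
        have f := abs_sub_le (pot η x) (pot η (x.1 + s, x.2)) (pot η (x.1 + s + 1, x.2))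
        push_cast
        rw [← add_assoc]
        linarith [ih (by omega)]
    have d2 := (clu_rch h hη u hx (show Rch _ (x.1, x.2) (x.1 + (k + 1 : ℕ), x.2) from
      rch_row (by omega) fun t e f => by
        have := b7 (t - x.1).toNat (by omega)
        rwa [show x.1 + ((t - x.1).toNat : ℤ) = t by omega] at this)).trans
      (unc _ (b7 _ le_rfl) a1)
    have d3 := pot_step h hS hτ hη (clu_nb b1 b6).1
    have d4 := d1 _ le_rfl
    rw [show lev η (bd (Clu D η (0, 0)) x) = _ from congrArg Prod.snd d2]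
    simp only [LL, lev]
    have d5 := abs_sub_le (pot η x) (pot η (x.1 + (k + 1 : ℕ), x.2))
      (pot η (x.1 + (k + 1 : ℕ) + 1, x.2))
    push_cast at *
    split_ifs <;> linarith

end Pool.Agent.Lib.MP_7c4eee_pr
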