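import Pool.Agent.Lib.MP_7c4eee_pr.H32Geo

/-!
On the lattice dumbbell the averaged height difference of the two diamonds is close to an odd
integer with high probability.
-/

namespace Pool.Agent.Lib.MP_7c4eee_pr

open Finset Classical

variable {n : ℕ} {b : ℤ → ℤ} {m : ℤ} {V : Finset Pt} {S : Finset ℝ} {η : Ed → ℝ} {τ : ℝ}

lemma Geo.deep (g : Geo n b m V) {c : ℤ} (hc : c = -2000 * n ∨ c = 2000 * n) (y : Pt)
    (h : (y.1 - c).natAbs + y.2.natAbs ≤ 1999 * n - 2) : y ∈ Deep b := by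
  have o := g.odd
  rcases hc with rfl | rfl
  · exact ⟨by omega, fun i k l => by have := g.t1 i (by omega); omega⟩
  · exact ⟨by omega, fun i k l => by have := g.t2 i (by omega); omega⟩

lemma Geo.ball (g : Geo n b m V) (hη : η ∈ Om V S)
    (hH : enr V (ctr (Clu (Deep b) η (0, 0)) (ty η)) 500 η < 500 * n) {c : ℤ}
    (hc : c = -2000 * n ∨ c = 2000 * n) {x : Pt} (hx : (x.1 - c).natAbs + x.2.natAbs ≤ 503 * n) :
    x ∉ Clu (Deep b) η (0, 0) ∧
      LL η (bd (Clu (Deep b) η (0, 0)) x) = LL η (bd (Clu (Deep b) η (0, 0)) (c, 0)) := by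
  have h := g.dp
  have o := g.odd
  have a : ∀ x : Pt, (x.1 - c).natAbs + x.2.natAbs ≤ 503 * n → x ∉ Clu (Deep b) η (0, 0) :=
    fun x hx d => by
      have e := ball_miss h (c := c) (P := 1999 * n - 2) (by omega) (g.deep hc) d hx
      have f := card_deep h (h.uncl η) (A := 500) (by norm_num)
      omega
  refine ⟨a x hx, (clu_rch h hη (h.uncl η) (a _ (by simp)) ((rch_row' (i' := x.1)
    fun t e f => a _ ?_).trans (rch_col' (j' := x.2) fun t e f => a _ ?_))).symm⟩ <;>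
  · dsimp only; omega

lemma Geo.label (g : Geo n b m V) (hη : η ∈ Om V S)
    (hH : enr V (ctr (Clu (Deep b) η (0, 0)) (ty η)) 500 η < 500 * n) {c k j0 : ℤ}
    (hc : c = -2000 * n ∧ k = 2 * n ∧ j0 = 3 * n ∨ c = 2000 * n ∧ k = 4003 * n ∧ j0 = n) :
    lab (ty η) (bd (Clu (Deep b) η (0, 0)) (c, 0)) = (k - 3) % 2 := by
  have h := g.dp
  have o := g.odd
  by_contra a
  have a1 : ∀ i, c ≤ i → i ≤ k - j0 → k - i - 1 ≤ b i := fun i d e => by
    have := g.t1 i; have := g.t2 i; omega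
  have a2 : ∀ i, k - j0 - 503 * n ≤ i → i ≤ k - j0 → b i ≤ k - i - 1 := fun i d e => by
    have := g.f2 i; have := g.f4 i; omega
  have a3 := card_le_card_of_surjOn (s := (rest V (ctr (Clu (Deep b) η (0, 0)) (ty η))).filter
      (Dfc (Pl V) (ty η))) (t := Ico j0 (j0 + 500 * n)) (fun e => e.1.2) fun j d => by
    have d := mem_Ico.1 d
    have e := g.ball hη hH (c := c) (by omega) (x := (c, j)) (by dsimp only; omega)
    have f := a2 (k - j - 3 + 1) (by omega) (by omega)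
    have l := a2 (k - j - 3 + 2) (by omega) (by omega)
    exact row_label h hη (h.uncl η) (a := c) (b := k - j - 3) (j := j) (by omega) (fun t u v => by
        have := a1 t u (by omega)
        have := a1 (t + 1) (by omega) (by omega)
        simp only [Pl, g.mem]; omega) (by simp only [Pl, g.mem]; omega)
      (h.glob η fun u => by have := u.2 (k - j - 3 + 2) (by simp; omega) (by simp); simp at this; omega)
      (h.glob η fun u => by have := u.2 (k - j - 3 + 2) (by simp; omega) (by simp); simp at this; omega)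
      e.1 (by rw [show lab (ty η) _ = _ from congrArg Prod.fst e.2]; simp only [LL]; omega)
  rw [Int.card_Ico] at a3
  unfold enr at hH
  omega

lemma Geo.jump (g : Geo n b m V) (hS : Sidon S τ) (hτ : 0 ≤ τ) (hη : η ∈ Om V S)
    (hH : enr V (ctr (Clu (Deep b) η (0, 0)) (ty η)) 500 η < 500 * n) :
    ∃ k : ℤ, k % 2 = 1 ∧ |lev η (bd (Clu (Deep b) η (0, 0)) (2000 * n, 0)) -
      lev η (bd (Clu (Deep b) η (0, 0)) (-2000 * n, 0)) - k| ≤ τ * 3006 := by
  have h := g.dp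
  have o := g.odd
  obtain ⟨j, a1, a2, a3⟩ := good_row h (h.uncl η) (by norm_num) hH
  rw [mem_Ico] at a1
  have a4 : ∀ i : ℤ, -2000 * n - 2 ≤ i → i ≤ 2000 * n + 2 → 2 * n ≤ b i := fun i c d => by
    have := g.low i; omega
  obtain ⟨k, c1, c2⟩ := jump_row h hS hτ hη (h.uncl η) (a := -2000 * n) (b := 2000 * n) (j := j)
    (by omega) (fun t c d => (g.mem _).2 (by have := a4 t; dsimp only; omega)) a2
  have e1 := g.ball hη hH (.inl rfl) (x := (-2000 * n, j)) (by dsimp only; omega)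
  have e2 := g.ball hη hH (.inr rfl) (x := (2000 * n, j)) (by dsimp only; omega)
  have e3 := g.label hη hH (.inl ⟨rfl, rfl, rfl⟩)
  have e4 := g.label hη hH (.inr ⟨rfl, rfl, rfl⟩)
  have e5 := Prod.ext_iff.1 e1.2
  have e6 := Prod.ext_iff.1 e2.2
  simp only [LL] at e5 e6
  simp only [psi, pari, e1.1, e2.1, if_false, e5, e6, e3, e4, mul_zero, add_zero] at c1 c2
  refine ⟨k, by omega, c1.trans (mul_le_mul_of_nonneg_left ?_ hτ)⟩
  have d : #((Icc (-2000 * (n : ℤ)) (2000 * n)).filter fun t => (t, j) ∈ Clu (Deep b) η (0, 0)) ≤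
      #(Icc (-1 : ℤ) 1 ∪ ((V.filter fun x => x ∈ Clu (Deep b) η (0, 0) ∧ x ∈ Deep b).filter
        fun x => x.2 = j).image Prod.fst) := card_le_card fun t c => by
    obtain ⟨c, d⟩ := mem_filter.1 c
    rw [mem_Icc] at c
    by_cases e : 2 ≤ t.natAbs
    · have f : (t, j) ∈ Deep b := ⟨e, fun i u v => by have := a4 i; dsimp only at *; omega⟩
      exact mem_union_right _ (mem_image.2 ⟨(t, j), mem_filter.2 ⟨mem_filter.2 ⟨h.mem f, d, f⟩, rfl⟩,
        rfl⟩)
    · exact mem_union_left _ (mem_Icc.2 (by omega))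
  have e := d.trans ((card_union_le _ _).trans (Nat.add_le_add_left card_image_le _))
  rw [Int.card_Icc, show (1 + 1 - -1 : ℤ).toNat = 3 from rfl] at e
  have f := (Nat.cast_le (α := ℝ)).2 ((Nat.mul_le_mul_left 2 e).trans (by omega : _ ≤ 3006))
  simpa only [Nat.cast_mul, Nat.cast_ofNat] using f

/-- A bound for the size of the clusters that cut off `x`. -/
noncomputable def cut (V : Finset Pt) (D : Set Pt) (η : Ed → ℝ) (x : Pt) : ℝ :=
  ∑ k ∈ range #V, if Loc V D (x.1 + k, x.2) (k + 1) η then 2 ^ k else 0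

lemma cut_nonneg (V : Finset Pt) (D : Set Pt) (η : Ed → ℝ) (x : Pt) : 0 ≤ cut V D η x :=
  sum_nonneg fun _ _ => by positivity

lemma Geo.site (g : Geo n b m V) (hS : Sidon S τ) (hτ : 0 ≤ τ ∧ τ ≤ 1) (hη : η ∈ Om V S)
    (hH : enr V (ctr (Clu (Deep b) η (0, 0)) (ty η)) 500 η < 500 * n) {c : ℤ}
    (hc : c = -2000 * n ∨ c = 2000 * n) {x : Pt} (hx : (x.1 - c).natAbs + x.2.natAbs ≤ 503 * n) :
    |pot η x - lev η (bd (Clu (Deep b) η (0, 0)) (c, 0)) - if x ∈ Fav then xi η x else 0| ≤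
      6 * cut V (Deep b) η x := by
  have h := g.dp
  have o := g.odd
  obtain ⟨a1, a2⟩ := g.ball hη hH hc hx
  have a3 := Prod.ext_iff.1 a2
  simp only [LL] at a3
  rw [← a3.2]
  rcases loc_bound h hS hτ hη a1 with ⟨c1, c2⟩ | ⟨k, c1, c2⟩
  · have c3 := Prod.ext_iff.1 c2
    simp only [LL] at c3
    have e3 := g.label hη hH (.inl ⟨rfl, rfl, rfl⟩)
    have e4 := g.label hη hH (.inr ⟨rfl, rfl, rfl⟩)
    rw [c1.xi h hη, c3.2, ← c3.1, a3.1, if_congr (show _ ↔ x ∈ Fav by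
      simp only [Fav, Set.mem_ofPred_eq]
      rcases hc with rfl | rfl <;> omega) rfl rfl]
    simpa using cut_nonneg _ _ _ _
  · have c3 : (2 : ℝ) ^ k ≤ cut V (Deep b) η x := by
      refine le_trans (if_pos c1).ge (single_le_sum (f := fun k : ℕ =>
        if Loc V (Deep b) (x.1 + k, x.2) (k + 1) η then (2 : ℝ) ^ k else 0)
        (fun _ _ => by positivity) (mem_range.2 (c1.2.2.trans (card_filter_le _ _))))
    have c4 : (k : ℝ) + 1 ≤ 2 ^ k := by exact_mod_cast Nat.lt_two_pow_self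
    have c5 : |if x ∈ Fav then xi η x else 0| ≤ 2 := by
      split_ifs
      exacts [xi_abs hS hτ.2 hη x, by simp]
    linarith [abs_sub (pot η x - lev η (bd (Clu (Deep b) η (0, 0)) x)) (if x ∈ Fav then xi η x else 0),
      (Nat.cast_nonneg k : (0 : ℝ) ≤ k)]

lemma Geo.point (g : Geo n b m V) (hS : Sidon S τ) (hτ : 0 ≤ τ ∧ τ ≤ 1 / 100000) (hη : η ∈ Om V S)
    {U : Finset Pt} {a : Pt → ℝ}
    (hU : ∀ x ∈ U, a x ≠ 0 → (x.1 - -2000 * n).natAbs + x.2.natAbs ≤ 503 * n ∨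
      (x.1 - 2000 * n).natAbs + x.2.natAbs ≤ 503 * n)
    (h1 : ∑ x ∈ U, (if x.1 < 0 then a x else 0) = -1)
    (h2 : ∑ x ∈ U, (if x.1 < 0 then 0 else a x) = 1) :
    Real.cos (Real.pi * ∑ x ∈ U, a x * pot η x) ≤ -3 / 4 +
      2 * (if 500 * n ≤ enr V (ctr (Clu (Deep b) η (0, 0)) (ty η)) 500 η then 1 else 0) +
      40 * (∑ x ∈ U.filter (· ∈ Fav), a x * xi η x) ^ 2 +
      24 * ∑ x ∈ U, |a x| * cut V (Deep b) η x := by
  have a0 : 0 ≤ ∑ x ∈ U, |a x| * cut V (Deep b) η x :=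
    sum_nonneg fun x _ => mul_nonneg (abs_nonneg _) (cut_nonneg _ _ _ _)
  set Ξ := ∑ x ∈ U.filter (· ∈ Fav), a x * xi η x with hΞ
  split_ifs with hH
  · nlinarith [Real.cos_le_one (Real.pi * ∑ x ∈ U, a x * pot η x), sq_nonneg Ξ]
  obtain ⟨k, b1, b2⟩ := g.jump hS hτ.1 hη (not_le.1 hH)
  set l1 := lev η (bd (Clu (Deep b) η (0, 0)) (-2000 * n, 0))
  set l2 := lev η (bd (Clu (Deep b) η (0, 0)) (2000 * n, 0))
  have b3 : |∑ x ∈ U, a x * pot η x - (l2 - l1) - Ξ| ≤ 6 * ∑ x ∈ U, |a x| * cut V (Deep b) η x := by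
    have c1 : l2 - l1 = ∑ x ∈ U, a x * if x.1 < 0 then l1 else l2 := by
      rw [show l2 - l1 = -1 * l1 + 1 * l2 by ring, ← h1, ← h2, sum_mul, sum_mul, ← sum_add_distrib]
      exact sum_congr rfl fun x _ => by split_ifs <;> simp
    rw [c1, hΞ, sum_filter, ← sum_sub_distrib, ← sum_sub_distrib, mul_sum]
    refine (abs_sum_le_sum_abs _ _).trans (sum_le_sum fun x hx => ?_)
    rw [show ∀ u v : ℝ, a x * u - a x * v - (if x ∈ Fav then a x * xi η x else 0) =
      a x * (u - v - if x ∈ Fav then xi η x else 0) by intros; split_ifs <;> ring, abs_mul,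
      mul_left_comm]
    by_cases a1 : a x = 0
    · simp [a1]
    refine mul_le_mul_of_nonneg_left ?_ (abs_nonneg _)
    have := g.odd
    rcases hU x hx a1 with c | c
    · rw [if_pos (by omega)]
      exact g.site hS ⟨hτ.1, by linarith⟩ hη (not_le.1 hH) (.inl rfl) c
    · rw [if_neg (by omega)]
      exact g.site hS ⟨hτ.1, by linarith⟩ hη (not_le.1 hH) (.inr rfl) c
  set X := ∑ x ∈ U, a x * pot η x
  have b4 := Real.abs_cos_sub_cos_le (Real.pi * X) (k * Real.pi)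
  rw [Real.cos_int_mul_pi, (Int.odd_iff.2 b1).neg_one_zpow, mul_comm (k : ℝ), ← mul_sub, abs_mul,
    abs_of_pos Real.pi_pos] at b4
  have b5 : |X - k| ≤ |X - (l2 - l1) - Ξ| + |l2 - l1 - k| + |Ξ| := by
    rw [show X - k = X - (l2 - l1) - Ξ + (l2 - l1 - k) + Ξ by ring]
    exact abs_add_three _ _ _
  have b6 : |Ξ| ≤ 1 / 40 + 10 * Ξ ^ 2 := by nlinarith [sq_nonneg (|Ξ| - 1 / 20), sq_abs Ξ]
  have b7 := mul_le_mul_of_nonneg_right Real.pi_le_four (abs_nonneg (X - k))
  linarith [le_abs_self (Real.cos (Real.pi * X) - -1)]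

lemma Geo.main (g : Geo n b m V) (hS : Sidon S τ) (hτ : 0 ≤ τ ∧ τ ≤ 1 / 100000) {s0 w ρ : ℝ}
    (h0 : s0 ∈ S.erase 0) (hρ : kap ^ 100000 ≤ ρ) (hq : (#(S.erase 0) : ℝ) = (ρ ^ 2) ^ 8)
    (w0 : 0 ≤ w) (hw : w * (ρ ^ 2) ^ (8 * 500) = 1)
    {U : Finset Pt} {a : Pt → ℝ}
    (hU : ∀ x ∈ U, a x ≠ 0 → (x.1 - -2000 * n).natAbs + x.2.natAbs ≤ 503 * n ∨
      (x.1 - 2000 * n).natAbs + x.2.natAbs ≤ 503 * n)
    (h1 : ∑ x ∈ U, (if x.1 < 0 then a x else 0) = -1)
    (h2 : ∑ x ∈ U, (if x.1 < 0 then 0 else a x) = 1) (h3 : ∑ x ∈ U, |a x| ≤ 2)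
    (h4 : ∑ x ∈ U, a x ^ 2 ≤ 1 / 1600) :
    ∑ η ∈ Om V S, wgt w (edges V) η * Real.cos (Real.pi * ∑ x ∈ U, a x * pot η x) ≤ 0 := by
  have h := g.dp
  have o := g.odd
  set Z := ∑ η ∈ Om V S, wgt w (edges V) η with hZ
  have Z0 : 0 ≤ Z := sum_nonneg fun _ _ => wgt_nonneg w0 _ _
  have k1 : 1000 ≤ kap := by rw [kap]; norm_num
  have k2 : 1 ≤ kap := by linarith
  have k3 : kap ^ 2 ≤ ρ := (pow_le_pow_right₀ k2 (by norm_num)).trans hρ
  have k4 : 1000 ≤ ρ := by nlinarith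
  have k5 : 1 ≤ ρ := by linarith
  have a1 : ∑ η ∈ Om V S, wgt w (edges V) η * (if 500 * n ≤
      enr V (ctr (Clu (Deep b) η (0, 0)) (ty η)) 500 η then 1 else 0) ≤ Z / 1000 := by
    have c := peierls h hS h0 (one_le_pow₀ k5) (c := 240 * n) hq w0 hw (0, 0) Set.univ
      (E := (Om V S).filter fun η => 500 * n ≤ enr V (ctr (Clu (Deep b) η (0, 0)) (ty η)) 500 η)
      fun η c => ⟨(mem_filter.1 c).1, h.uncl η, fun x d => iff_of_true
        (h.glob η fun e => d (h.mem e)) trivial, g.tgt (mem_filter.1 c).1⟩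
    have d := (sum_le_sum (f := fun η => wgt w (edges V) η * ρ ^ (499 * n)) fun η d => by
      set H := enr V (ctr (Clu (Deep b) η (0, 0)) (ty η)) 500 η
      have e1 := card_deep h (h.uncl η) (A := 500) (by norm_num)
      have e2 := g.shallow
      have e3 : #(V.filter (· ∈ Clu (Deep b) η (0, 0))) ≤ #((V.filter fun x =>
          x ∈ Clu (Deep b) η (0, 0) ∧ x ∈ Deep b) ∪ V.filter (· ∉ Deep b)) :=
        card_le_card fun x e => by simp only [mem_union, mem_filter] at *; tauto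
      have e4 := enr_pow (M := 1) (r := ρ) le_rfl (by rwa [mul_one]) (m := 100000 * n) (H := H)
        (e3.trans ((card_union_le _ _).trans (Nat.add_le_add e1 e2)))
      rw [one_pow, mul_one, pow_mul] at e4
      have e5 := e4.trans (mul_le_mul_of_nonneg_right (pow_le_pow_left₀ (by positivity) hρ n)
        (by have := kap_pos; positivity))
      rw [mul_assoc]
      refine mul_le_mul_of_nonneg_left (le_of_mul_le_mul_left ?_ (pow_pos (by linarith) n : 0 < ρ ^ n))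
        (wgt_nonneg w0 _ _)
      calc _ = ρ ^ (500 * n) * 1 := by ring
        _ ≤ ρ ^ H * _ := mul_le_mul (pow_le_pow_right₀ k5 (mem_filter.1 d).2) e5 zero_le_one
          (by positivity)
        _ = _ := by ring).trans c
    rw [← sum_mul, ← hZ] at d
    simp only [mul_ite, mul_one, mul_zero, ← sum_filter]
    have e : ρ ^ (480 * n) * 1000 ≤ ρ ^ (499 * n) :=
      (mul_le_mul_of_nonneg_left k4 (by positivity)).trans
        ((pow_succ _ _).ge.trans (pow_le_pow_right₀ k5 (by omega)))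
    rw [le_div_iff₀ (by norm_num)]
    refine le_of_mul_le_mul_left ?_ (pow_pos (by linarith) (480 * n) : 0 < ρ ^ (480 * n))
    have f := mul_le_mul_of_nonneg_left e (sum_nonneg (s := (Om V S).filter fun η =>
      500 * n ≤ enr V (ctr (Clu (Deep b) η (0, 0)) (ty η)) 500 η) fun η _ => wgt_nonneg w0 (edges V) η)
    rw [← pow_mul, show 2 * (240 * n) = 480 * n by ring] at d
    linarith
  have a2 := xi_var (V := V) hS (by linarith) w0 (U.filter (· ∈ Fav)) (fun x c y d e => by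
    have := (mem_filter.1 c).2
    have := (mem_filter.1 d).2
    simp only [Adj, Fav, Set.mem_ofPred_eq] at *; omega) a
  have a3 : ∑ x ∈ U.filter (· ∈ Fav), a x ^ 2 ≤ 1 / 1600 :=
    (sum_le_sum_of_subset_of_nonneg (filter_subset _ _) fun _ _ _ => sq_nonneg _).trans h4
  have a4 : ∀ x, ∑ η ∈ Om V S, wgt w (edges V) η * cut V (Deep b) η x ≤ Z / 500 := fun x => by
    simp only [cut, mul_sum]
    rw [sum_comm]
    refine (sum_le_sum (g := fun k => Z / 1000 * (1 / 2) ^ k) fun k _ => ?_).trans ?_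
    · have c := loc_prob h hS h0 (by norm_num) (M := 1000) (by norm_num)
        (pow_le_pow_left₀ (by positivity) (by nlinarith) 2) hq w0 hw (x.1 + k, x.2) (k + 1)
      simp only [mul_ite, mul_zero, ← sum_filter]
      rw [← sum_mul] at c ⊢
      have d := sum_nonneg (s := (Om V S).filter (Loc V (Deep b) (x.1 + k, x.2) (k + 1)))
        fun η _ => wgt_nonneg w0 (edges V) η
      have e : (2 : ℝ) ^ k ≤ 1000 ^ k * (1 / 2) ^ k := by
        rw [← mul_pow]; exact pow_le_pow_left₀ (by norm_num) (by norm_num) k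
      have f := mul_le_mul_of_nonneg_right c (show (0 : ℝ) ≤ (1 / 2) ^ k by positivity)
      rw [pow_succ] at f
      nlinarith [mul_le_mul_of_nonneg_left e d]
    · rw [← mul_sum]
      nlinarith [sum_geometric_two_le #V]
  have a5 : ∑ η ∈ Om V S, wgt w (edges V) η * ∑ x ∈ U, |a x| * cut V (Deep b) η x ≤ Z / 250 := by
    simp only [mul_sum]
    rw [sum_comm]
    refine (sum_le_sum (g := fun x => |a x| * (Z / 500)) fun x _ => ?_).trans ?_
    · simp only [mul_left_comm _ |a x|, ← mul_sum]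
      exact mul_le_mul_of_nonneg_left (a4 x) (abs_nonneg _)
    · rw [← sum_mul]; nlinarith
  refine (sum_le_sum fun η c => mul_le_mul_of_nonneg_left (g.point hS hτ c hU h1 h2)
    (wgt_nonneg w0 _ _)).trans ?_
  simp only [mul_add, sum_add_distrib, mul_left_comm _ (2 : ℝ), mul_left_comm _ (40 : ℝ),
    mul_left_comm _ (24 : ℝ), ← mul_sum, ← sum_mul]
  nlinarith [mul_le_mul_of_nonneg_right a3 Z0]

end Pool.Agent.Lib.MP_7c4eee_pr
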