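import Pool.Agent.Lib.MP_7c4eee_pr.H32Main

/-!
The gradient model, and its splitting into a discrete and a continuous part.
-/

namespace Pool.Agent.Lib.MP_7c4eee_pr

open Finset MeasureTheory Classical

/-- The point of the scaled lattice. -/
def pos (δ : ℝ) (x : Pt) : ℂ := ⟨δ * x.1, δ * x.2⟩

/-- The vertices of the component of `x0` in the nearest neighbour graph on the points of the
scaled lattice in `D` (a finite set when `D` is bounded). -/
noncomputable def vert (D : Set ℂ) (δ : ℝ) (x0 : Pt) : Finset Pt :=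
  if h : {x | Rch {y | pos δ y ∈ D} x0 x}.Finite then h.toFinset else ∅

/-- The product of `Φ` of the increments over all edges of `V`. -/
noncomputable def weight (Φ : ℝ → ℝ) (V : Finset Pt) (H : Pt → ℝ) : ℝ :=
  ∏ e ∈ edges V, Φ (H (tip e) - H e.1)

/-- Expectation in the gradient model on `V` pinned to `0` at `x0`. -/
noncomputable def expect (Φ : ℝ → ℝ) (V : Finset Pt) (x0 : Pt) (G : (Pt → ℝ) → ℝ) : ℝ :=
  (∫ h : V.erase x0 → ℝ, G (ext0 _ h) * weight Φ V (ext0 _ h)) /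
    ∫ h : V.erase x0 → ℝ, weight Φ V (ext0 _ h)

/-- The height function, constant on the cells given by `c`, tested against `f`. -/
noncomputable def pairing (c : ℂ → Pt) (f : ℂ → ℝ) (H : Pt → ℝ) : ℝ := ∫ z, H (c z) * f z

lemma ext0_cont (A : Finset Pt) (x : Pt) : Continuous fun h : A → ℝ => ext0 A h x := by
  unfold ext0
  split_ifs
  exacts [continuous_apply _, continuous_const]

lemma weight_int {Φ : ℝ → ℝ} (hΦ : Continuous Φ) {a : ℝ} (ha : ∀ t, a ≤ |t| → Φ t = 0)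
    {V : Finset Pt} {x0 : Pt} (hV : ∀ x ∈ V, Rch V x0 x) {G : (V.erase x0 → ℝ) → ℝ}
    (hG : Continuous G) : Integrable fun h => G h * weight Φ V (ext0 _ h) := by
  have b : ∀ x ∈ V, ∃ C, ∀ H : Pt → ℝ, weight Φ V H ≠ 0 → |H x - H x0| ≤ C := fun x c =>
    (hV x c).ind (Q := fun x => ∃ C, ∀ H : Pt → ℝ, weight Φ V H ≠ 0 → |H x - H x0| ≤ C)
      ⟨0, by simp⟩ fun u v _ d e f ⟨C, k⟩ => ⟨C + a, fun H l => by
        have m : |H v - H u| ≤ a := by
          obtain ⟨g, ⟨rfl, rfl⟩ | ⟨rfl, rfl⟩⟩ := d.edge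
          · exact (not_le.1 fun m => prod_ne_zero_iff.1 l g (mem_edges.2 ⟨e, f⟩) (ha _ m)).le
          · rw [abs_sub_comm]
            exact (not_le.1 fun m => prod_ne_zero_iff.1 l g (mem_edges.2 ⟨f, e⟩) (ha _ m)).le
        linarith [abs_sub_le (H v) (H u) (H x0), k H l]⟩
  choose C hC using b
  refine Continuous.integrable_of_hasCompactSupport (hG.mul (continuous_finsetProd _ fun e _ =>
    hΦ.comp ((ext0_cont _ _).sub (ext0_cont _ _)))) (HasCompactSupport.mul_left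
    (HasCompactSupport.intro (isCompact_Icc (a := fun x => -C x.1 (mem_of_mem_erase x.2))
      (b := fun x => C x.1 (mem_of_mem_erase x.2))) fun h c => by_contra fun d => c ?_))
  have e := fun x : V.erase x0 => abs_le.1 (by
    simpa [ext0, mem_erase.1 x.2] using hC x.1 (mem_of_mem_erase x.2) _ d : |h x| ≤ _)
  exact ⟨fun x => (e x).1, fun x => (e x).2⟩

lemma weight_nonneg {Φ : ℝ → ℝ} (h : ∀ t, 0 ≤ Φ t) (V : Finset Pt) (H : Pt → ℝ) :
    0 ≤ weight Φ V H := prod_nonneg fun _ _ => h _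

/-- A sum of bumps centred on `S`. -/
noncomputable def comb (S : Finset ℝ) (w : ℝ) (φ : ℝ → ℝ) (t : ℝ) : ℝ :=
  ∑ s ∈ S, (if s = 0 then w else 1) * φ (t - s)

lemma weight_comb {S : Finset ℝ} {ε : ℝ} {φ : ℝ → ℝ} (hφ : ∀ t, ε ≤ |t| → φ t = 0)
    (hε : ∀ a ∈ S, ∀ b ∈ S, ∀ c ∈ S, ∀ d ∈ S, |a + b - (c + d)| < 4 * ε → a + b = c + d) (w : ℝ)
    (V : Finset Pt) (H : Pt → ℝ) : weight (comb S w φ) V H =
      ∑ η ∈ Om V S, wgt w (edges V) η * ∏ e ∈ edges V, φ (H (tip e) - H e.1 - η e) := by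
  rw [weight]
  simp only [comb]
  rw [prod_sum_fns, Om, sum_filter_of_ne]
  · exact sum_congr rfl fun η _ => by rw [prod_mul_distrib, prod_ite, prod_const_one, mul_one,
      prod_const, wgt]
  · intro η a b p c
    have d := fun e (he : e ∈ edges V) =>
      abs_lt.1 (not_le.1 fun d => prod_ne_zero_iff.1 (right_ne_zero_of_mul b) e he (hφ _ d))
    have e1 : ((p, false) : Ed) ∈ edges V := mem_edges.2 ⟨c.1, c.2.1⟩
    have e2 : (((p.1 + 1, p.2), true) : Ed) ∈ edges V := mem_edges.2 ⟨c.2.1, c.2.2.2⟩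
    have e3 : ((p, true) : Ed) ∈ edges V := mem_edges.2 ⟨c.1, c.2.2.1⟩
    have e4 : (((p.1, p.2 + 1), false) : Ed) ∈ edges V := mem_edges.2 ⟨c.2.2.1, c.2.2.2⟩
    have f := (mem_fns.1 a).1
    refine hε _ (f _ e1) _ (f _ e2) _ (f _ e3) _ (f _ e4) (abs_lt.2 ?_)
    have := d _ e1
    have := d _ e2
    have := d _ e3
    have := d _ e4
    simp only [tip_true, tip_false] at *
    constructor <;> linarith

lemma sum_sin {V : Finset Pt} {S : Finset ℝ} {τ : ℝ} (hS : Sidon S τ) (w t : ℝ) (a : Pt → ℝ) :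
    ∑ η ∈ Om V S, wgt w (edges V) η * Real.sin (t * ∑ x ∈ V, a x * pot η x) = 0 := by
  have b : ∀ η ∈ Om V S, -η ∈ Om V S := fun η b => by
    obtain ⟨c, d, e⟩ := mem_Om.1 b
    refine mem_Om.2 ⟨fun f k => hS.neg _ (c f k), fun f k => by simp [d f k], fun p k => ?_⟩
    have := e p k
    simp only [Curl, Pi.neg_apply] at *
    linarith
  have c := sum_nbij' (s := Om V S) (t := Om V S) (-·) (-·) b b (fun η _ => neg_neg η)
    (fun η _ => neg_neg η)
    (f := fun η => -(wgt w (edges V) η * Real.sin (t * ∑ x ∈ V, a x * pot η x)))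
    (g := fun η => wgt w (edges V) η * Real.sin (t * ∑ x ∈ V, a x * pot η x)) fun η _ => by
      simp [pot_neg, wgt]
  rw [sum_neg_distrib] at c
  linarith

lemma cos_zero {V : Finset Pt} {D : Set Pt} {S : Finset ℝ} {τ ε w t : ℝ} {φ : ℝ → ℝ} (h : Dp V D)
    (hS : Sidon S τ) (φc : Continuous φ) (hφ : ∀ t, ε ≤ |t| → φ t = 0)
    (hε : ∀ a ∈ S, ∀ b ∈ S, ∀ c ∈ S, ∀ d ∈ S, |a + b - (c + d)| < 4 * ε → a + b = c + d)
    {x0 : Pt} (hV : ∀ x ∈ V, Rch V x0 x) {a : Pt → ℝ} (ha : ∑ x ∈ V, a x = 0)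
    (ht : ∑ η ∈ Om V S, wgt w (edges V) η * Real.cos (t * ∑ x ∈ V, a x * pot η x) = 0) :
    ∫ h : V.erase x0 → ℝ, Real.cos (t * ∑ x ∈ V, a x * ext0 _ h x) *
      weight (comb S w φ) V (ext0 _ h) = 0 := by
  set G : (Ed → ℝ) → (V.erase x0 → ℝ) → ℝ := fun η h => (wgt w (edges V) η *
    Real.cos (t * ∑ x ∈ V, a x * ext0 _ h x + t * ∑ x ∈ V, a x * pot η x)) *
      weight φ V (ext0 _ h) with hG
  have a1 : ∀ η, Integrable (G η) := fun η => weight_int φc hφ hV (continuous_const.mul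
    (Real.continuous_cos.comp ((continuous_const.mul (continuous_finsetSum _ fun x _ =>
      continuous_const.mul (ext0_cont _ _))).add continuous_const)))
  set p : (Ed → ℝ) → V.erase x0 → ℝ := fun η x => pot η x - pot η x0 with hp
  have a2 : ∀ η k, ∀ x ∈ V, ext0 _ (k - p η) x = ext0 _ k x - (pot η x - pot η x0) :=
    fun η k x c => by
      by_cases d : x = x0
      · simp [ext0, d]
      · simp [ext0, c, d, hp]
  calc _ = ∫ k, ∑ η ∈ Om V S, G η (k - p η) := integral_congr_ae (.of_forall fun k => by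
        simp only [weight_comb hφ hε, mul_sum _ _ (Real.cos _), hG]
        refine sum_congr rfl fun η c => ?_
        have b1 : ∑ x ∈ V, a x * ext0 _ (k - p η) x =
            ∑ x ∈ V, a x * ext0 _ k x - ∑ x ∈ V, a x * pot η x := by
          rw [sum_congr rfl fun x d => congrArg (a x * ·) (a2 η k x d)]
          simp only [mul_sub, sum_sub_distrib, ← sum_mul, ha, zero_mul, sub_zero]
        have b2 : weight φ V (ext0 _ (k - p η)) =
            ∏ e ∈ edges V, φ (ext0 _ k (tip e) - ext0 _ k e.1 - η e) := prod_congr rfl fun e d => by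
          rw [a2 η k _ (mem_edges.1 d).1, a2 η k _ (mem_edges.1 d).2, h.pot c d]
          ring_nf
        rw [b1, b2, mul_sub, sub_add_cancel]
        ring)
    _ = ∑ η ∈ Om V S, ∫ k, G η k := by
        rw [integral_finsetSum _ fun η _ => (a1 η).comp_sub_right _]
        exact sum_congr rfl fun η _ => integral_sub_right_eq_self _ _
    _ = ∫ k, ∑ η ∈ Om V S, G η k := (integral_finsetSum _ fun η _ => a1 η).symm
    _ = 0 := by
        refine (integral_congr_ae (.of_forall fun k => ?_)).trans (integral_zero _ _)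
        simp only [hG, ← sum_mul, Real.cos_add, mul_sub, sum_sub_distrib, mul_left_comm (wgt _ _ _),
          ← mul_sum, ht, sum_sin hS]
        simp

lemma tri_int {s1 s2 s3 s4 : ℤ} {i1 i2 i3 i4 : ℕ} (c1 : s1 = -1 ∨ s1 = 0 ∨ s1 = 1)
    (c2 : s2 = -1 ∨ s2 = 0 ∨ s2 = 1) (c3 : s3 = -1 ∨ s3 = 0 ∨ s3 = 1) (c4 : s4 = -1 ∨ s4 = 0 ∨ s4 = 1)
    (h : ∀ j, (if i1 = j then s1 else 0) + (if i2 = j then s2 else 0) - (if i3 = j then s3 else 0) -
      (if i4 = j then s4 else 0) = 0) :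
    (s1 = s3 ∧ (s1 = 0 ∨ i1 = i3)) ∧ (s2 = s4 ∧ (s2 = 0 ∨ i2 = i4)) ∨
      (s1 = -s2 ∧ (s1 = 0 ∨ i1 = i2)) ∧ (s3 = -s4 ∧ (s3 = 0 ∨ i3 = i4)) ∨
      (s1 = s4 ∧ (s1 = 0 ∨ i1 = i4)) ∧ (s2 = s3 ∧ (s2 = 0 ∨ i2 = i3)) := by
  have b : (-1 ≤ s1 ∧ s1 ≤ 1) ∧ (-1 ≤ s2 ∧ s2 ≤ 1) ∧ (-1 ≤ s3 ∧ s3 ≤ 1) ∧ -1 ≤ s4 ∧ s4 ≤ 1 := by
    omega
  clear c1 c2 c3 c4
  have e : (i1 = i2 → i1 = i3 → i2 = i3) ∧ (i1 = i2 → i2 = i3 → i1 = i3) ∧
      (i1 = i3 → i2 = i3 → i1 = i2) ∧ (i1 = i2 → i1 = i4 → i2 = i4) ∧ (i1 = i2 → i2 = i4 → i1 = i4) ∧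
      (i1 = i4 → i2 = i4 → i1 = i2) ∧ (i1 = i3 → i1 = i4 → i3 = i4) ∧ (i1 = i3 → i3 = i4 → i1 = i4) ∧
      (i1 = i4 → i3 = i4 → i1 = i3) ∧ (i2 = i3 → i2 = i4 → i3 = i4) ∧ (i2 = i3 → i3 = i4 → i2 = i4) ∧
      (i2 = i4 → i3 = i4 → i2 = i3) := by
    refine ⟨?_, ?_, ?_, ?_, ?_, ?_, ?_, ?_, ?_, ?_, ?_, ?_⟩ <;> omega
  have d1 := h i1
  have d2 := h i2
  have d3 := h i3
  have d4 := h i4
  simp only [@eq_comm _ i2 i1, @eq_comm _ i3 i1, @eq_comm _ i4 i1, @eq_comm _ i3 i2,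
    @eq_comm _ i4 i2, @eq_comm _ i4 i3, if_true] at d1 d2 d3 d4
  clear h
  revert d1 d2 d3 d4 e
  rcases Classical.prop_complete (i1 = i2) with e1 | e1 <;>
    rcases Classical.prop_complete (i1 = i3) with e2 | e2 <;>
    rcases Classical.prop_complete (i1 = i4) with e3 | e3 <;>
    rcases Classical.prop_complete (i2 = i3) with e4 | e4 <;>
    rcases Classical.prop_complete (i2 = i4) with e5 | e5 <;>
    rcases Classical.prop_complete (i3 = i4) with e6 | e6 <;>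
    simp only [e1, e2, e3, e4, e5, e6] <;> simp <;> omega

lemma exists_sidon {N : ℕ} (hN : 0 < N) {τ : ℝ} (hτ : 0 < τ) :
    ∃ S, Sidon S τ ∧ #(S.erase 0) = 2 * N := by
  obtain ⟨v, hv⟩ := exists_linearIndependent_of_le_rank (R := ℚ) (M := ℝ) (n := N) (by
    rw [Real.rank_rat_real]; exact Cardinal.natCast_lt_aleph0.le.trans Cardinal.aleph0_le_continuum)
  have a1 : ∀ i, ∃ r : ℚ, r * v i ∈ Set.Ioo 1 (1 + τ) := fun i =>
    (((Homeomorph.mulRight₀ (v i) (hv.ne_zero i)).surjective.denseRange.comp Rat.denseRange_cast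
      (Homeomorph.continuous _)).exists_mem_open isOpen_Ioo (Set.nonempty_Ioo.2 (by linarith)))
  choose r hr using a1
  set k : Fin N → ℝ := fun i => r i * v i with hk
  have a2 : ∀ g : Fin N → ℤ, ∑ i, g i * k i = 0 → ∀ i, g i = 0 := fun g c i => by
    have d := Fintype.linearIndependent_iff.1 hv (fun i => g i * r i) (by
      simpa [hk, Rat.smul_def, mul_assoc] using c) i
    have e : r i ≠ 0 := fun e => by have := (hr i).1; rw [e] at this; norm_num at this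
    simpa [e] using d
  have a3 : ∀ (s1 s2 s3 s4 : ℤ) (i1 i2 i3 i4 : Fin N),
      s1 * k i1 + s2 * k i2 = s3 * k i3 + s4 * k i4 → ∀ j, (if i1 = j then s1 else 0) +
      (if i2 = j then s2 else 0) - (if i3 = j then s3 else 0) - (if i4 = j then s4 else 0) = 0 :=
    fun s1 s2 s3 s4 i1 i2 i3 i4 c => a2 _ (by
      simp [add_mul, sub_mul, sum_add_distrib, sum_sub_distrib]
      linarith)
  have a4 : ∀ (s s' : ℤ) (i i' : Fin N), s = s' ∧ (s = 0 ∨ i = i') → s * k i = s' * k i' := by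
    rintro s _ i i' ⟨rfl, rfl | rfl⟩ <;> simp
  set f : Bool × Fin N → ℝ := fun y => if y.1 then k y.2 else -k y.2 with hf
  have a5 : ∀ a, a ∈ insert 0 (univ.image f) ↔
      ∃ (s : ℤ) (i : Fin N), (s = -1 ∨ s = 0 ∨ s = 1) ∧ a = s * k i := fun a => by
    simp only [mem_insert, mem_image, mem_univ, true_and, hf]
    constructor
    · rintro (rfl | ⟨⟨_ | _, i⟩, rfl⟩)
      exacts [⟨0, ⟨0, hN⟩, by simp⟩, ⟨-1, i, by simp⟩, ⟨1, i, by simp⟩]
    · rintro ⟨s, i, rfl | rfl | rfl, rfl⟩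
      exacts [.inr ⟨(false, i), by simp⟩, .inl (by simp), .inr ⟨(true, i), by simp⟩]
  have a6 : ∀ i, 1 < k i ∧ k i < 1 + τ := hr
  refine ⟨insert 0 (univ.image f), ⟨mem_insert_self _ _, fun a c => ?_, fun a c d => ?_,
    fun a ha b hb c hc d hd e => ?_⟩, ?_⟩
  · obtain ⟨s, i, c, rfl⟩ := (a5 a).1 c
    exact (a5 _).2 ⟨-s, i, by omega, by simp⟩
  · obtain ⟨s, i, rfl | rfl | rfl, rfl⟩ := (a5 a).1 c
    · simpa [abs_of_pos (one_pos.trans (a6 i).1)] using (a6 i).imp le_of_lt le_of_lt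
    · simp at d
    · simpa [abs_of_pos (one_pos.trans (a6 i).1)] using (a6 i).imp le_of_lt le_of_lt
  · obtain ⟨s1, i1, c1, rfl⟩ := (a5 _).1 ha
    obtain ⟨s2, i2, c2, rfl⟩ := (a5 _).1 hb
    obtain ⟨s3, i3, c3, rfl⟩ := (a5 _).1 hc
    obtain ⟨s4, i4, c4, rfl⟩ := (a5 _).1 hd
    have d5 := tri_int (i1 := i1) (i2 := i2) (i3 := i3) (i4 := i4) c1 c2 c3 c4 fun j => by
      by_cases d : j < N
      · simpa only [Fin.ext_iff] using a3 _ _ _ _ _ _ _ _ e ⟨j, d⟩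
      · rw [if_neg (by omega), if_neg (by omega), if_neg (by omega), if_neg (by omega)]; rfl
    simp only [Fin.val_inj] at d5
    exact d5.imp (fun d => ⟨a4 _ _ _ _ d.1, a4 _ _ _ _ d.2⟩) (Or.imp (fun d =>
      ⟨by simpa using a4 _ _ _ _ d.1, by simpa using a4 _ _ _ _ d.2⟩)
      fun d => ⟨a4 _ _ _ _ d.1, a4 _ _ _ _ d.2⟩)
  · rw [erase_insert, card_image_of_injective, card_univ, Fintype.card_prod, Fintype.card_bool,
      Fintype.card_fin]
    · rintro ⟨s, i⟩ ⟨s', i'⟩ c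
      have d1 := a6 i
      have d2 := a6 i'
      have d3 : k i = k i' → i = i' := fun d => by_contra fun e => by
        simpa [e, Ne.symm e] using a3 1 0 1 0 i i i' i (by simpa using d) i
      cases s <;> cases s' <;> simp only [hf, Bool.false_eq_true, if_true, if_false, neg_inj] at c
      exacts [by rw [d3 c], by linarith, by linarith, by rw [d3 c]]
    · simp only [mem_image, mem_univ, true_and, not_exists, hf]
      intro y
      have := a6 y.2
      split_ifs <;> linarith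

lemma exists_gap (S : Finset ℝ) : ∃ ε > 0,
    ∀ a ∈ S, ∀ b ∈ S, ∀ c ∈ S, ∀ d ∈ S, |a + b - (c + d)| < 4 * ε → a + b = c + d := by
  have h : ∀ᶠ ε : ℝ in nhdsWithin 0 (Set.Ioi 0),
      ∀ a ∈ S, ∀ b ∈ S, ∀ c ∈ S, ∀ d ∈ S, |a + b - (c + d)| < 4 * ε → a + b = c + d := by
    simp only [Filter.eventually_all_finset]
    intro a _ b _ c _ d _
    by_cases e : a + b = c + d
    · exact .of_forall fun _ _ => e
    · filter_upwards [Ioo_mem_nhdsGT (show 0 < |a + b - (c + d)| / 4 by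
        have := abs_pos.2 (sub_ne_zero.2 e); linarith)] with ε f k
      linarith [f.2]
  exact (h.and self_mem_nhdsWithin).exists.imp fun _ a => ⟨a.2, a.1⟩

end Pool.Agent.Lib.MP_7c4eee_pr
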