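import Pool.Agent.Lib.MP_7c4eee_pr.H32Cluster

/-!
Summation over the shapes of clusters.
-/

namespace Pool.Agent.Lib.MP_7c4eee_pr

open Finset Classical

/-- The four neighbours. -/
def nbrs (x : Pt) : Finset Pt := {(x.1 + 1, x.2), (x.1 - 1, x.2), (x.1, x.2 + 1), (x.1, x.2 - 1)}

lemma mem_nbrs {x y : Pt} (h : Adj y x) : y ∈ nbrs x := by
  simp only [nbrs, Adj, mem_insert, mem_singleton, Prod.ext_iff] at *; omega

lemma perc (V : Finset Pt) (W : Set Pt) (s : Pt) (𝓖 : Finset (Finset Pt)) (G : Finset Pt → Set Pt)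
    (hG : ∀ γ x, x ∈ G γ ↔ x ∈ γ ∨ (x ∉ V ∧ x ∈ W))
    (h : ∀ γ ∈ 𝓖, γ ⊆ V ∧ s ∈ G γ ∧ (∀ g ∈ G γ, Rch (G γ) s g) ∧
      ∀ y, Nb (G γ) y → y ∈ V ∧ ∃ g ∈ γ, Adj y g) : ∑ γ ∈ 𝓖, (1 / 32 : ℝ) ^ #γ ≤ 1 := by
  set A : Finset Pt → Finset (Finset Pt) :=
    fun γ => V.powerset.filter fun ω => γ ⊆ ω ∧ ∀ y ∈ ω, ¬Nb (G γ) y with hA
  have a1 : ∀ γ ∈ 𝓖, ∀ γ' ∈ 𝓖, ∀ ω, ω ∈ A γ → ω ∈ A γ' → γ ⊆ γ' := by
    intro γ b γ' b' ω c c' x hx
    have d := ((h γ b).2.2.1 x ((hG _ _).2 (.inl hx))).ind (Q := (· ∈ G γ')) (h γ' b').2.1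
      fun u v _ e _ f k => by_contra fun l => by
        rcases (hG _ _).1 f with f | f
        · exact (mem_filter.1 c').2.2 v ((mem_filter.1 c).2.1 f) ⟨l, u, k, e.symm⟩
        · exact l ((hG _ _).2 (.inr f))
    exact ((hG _ _).1 d).resolve_right fun e => e.1 ((h γ b).1 hx)
  have a2 : ∑ γ ∈ 𝓖, #(A γ) ≤ 2 ^ #V := by
    rw [← card_biUnion fun γ b γ' b' c => disjoint_left.2 fun ω d e =>
      c (Subset.antisymm (a1 _ b _ b' ω d e) (a1 _ b' _ b ω e d)), ← card_powerset]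
    exact card_le_card (biUnion_subset.2 fun _ _ => filter_subset _ _)
  have a3 : ∀ γ ∈ 𝓖, 2 ^ #V ≤ 32 ^ #γ * #(A γ) := by
    intro γ b
    have c1 : 2 ^ #(V \ (γ ∪ γ.biUnion nbrs)) ≤ #(A γ) := by
      rw [← card_powerset]
      refine card_le_card_of_injOn (· ∪ γ) (fun ω hω => ?_) fun ω hω ω' hω' c => ?_
      · have d := mem_powerset.1 hω
        refine mem_filter.2 ⟨mem_powerset.2 (union_subset (d.trans sdiff_subset) (h γ b).1),
          subset_union_right, fun y hy e => ?_⟩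
        rcases mem_union.1 hy with f | f
        · obtain ⟨-, g, k, l⟩ := (h γ b).2.2.2 y e
          exact (mem_sdiff.1 (d f)).2 (mem_union_right _ (mem_biUnion.2 ⟨g, k, mem_nbrs l⟩))
        · exact e.1 ((hG _ _).2 (.inl f))
      · have d : ∀ ω ∈ (V \ (γ ∪ γ.biUnion nbrs)).powerset, Disjoint ω γ := fun ω hω =>
          disjoint_left.2 fun y e f => (mem_sdiff.1 (mem_powerset.1 hω e)).2 (mem_union_left _ f)
        rw [← union_sdiff_cancel_right (d ω hω), ← union_sdiff_cancel_right (d ω' hω')]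
        exact congrArg (· \ γ) c
    have c2 := le_card_sdiff (γ ∪ γ.biUnion nbrs) V
    have c3 := card_union_le γ (γ.biUnion nbrs)
    have c4 := card_biUnion_le_card_mul γ nbrs 4 fun _ _ => card_le_four
    calc 2 ^ #V ≤ 2 ^ (5 * #γ + #(V \ (γ ∪ γ.biUnion nbrs))) :=
          Nat.pow_le_pow_right (by norm_num) (by omega)
      _ ≤ _ := by rw [pow_add, pow_mul]; exact Nat.mul_le_mul_left _ c1
  have a4 : (0 : ℝ) < 2 ^ #V := by positivity
  refine le_of_mul_le_mul_right ?_ a4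
  rw [sum_mul, one_mul]
  refine le_trans (sum_le_sum fun γ b => ?_) (show ∑ γ ∈ 𝓖, (#(A γ) : ℝ) ≤ _ by exact_mod_cast a2)
  rw [one_div, inv_pow, inv_mul_le_iff₀ (by positivity)]
  exact_mod_cast a3 γ b

/-- The plaquettes near a finite set. -/
noncomputable def near (γ : Finset Pt) : Finset Pt :=
  γ.biUnion fun g => Icc (g.1 - 1) (g.1 + 1) ×ˢ Icc (g.2 - 1) (g.2 + 1)

lemma card_near (γ : Finset Pt) : #(near γ) ≤ #γ * 9 :=
  card_biUnion_le_card_mul _ _ 9 fun g _ => by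
    rw [card_product, Int.card_Icc, Int.card_Icc]
    rw [show g.1 + 1 + 1 - (g.1 - 1) = 3 by ring, show g.2 + 1 + 1 - (g.2 - 1) = 3 by ring]
    rfl

/-- The entropy constant. -/
def kap : ℝ := 16 * 3 ^ 9 * 32

/-- A target for the repair of the cluster `G` at cost `c`. -/
def Tgt (V : Finset Pt) (K : Set Pt) (c : ℕ) : Prop :=
  ∃ (F : Set Pt) (F2 : Finset Pt), Rp V K F ∧ F2 ⊆ free V K F ∧
    (∀ e, Inn (Pl V) e → e.1 ∉ F2 ∧ tip e ∉ F2) ∧
    4 * #((rest V K ×ˢ (univ : Finset Bool)).filter fun d => ¬Pl V (plq d)) +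
      2 * #((edges V).filter fun e => e.1 ∉ F ∧ tip e ∉ F) ≤ 8 * #F2 + c

lemma peierls {V : Finset Pt} {D : Set Pt} {S : Finset ℝ} {τ s0 w r : ℝ} (h : Dp V D)
    (hS : Sidon S τ) (h0 : s0 ∈ S.erase 0) (hr : 1 ≤ r) {A c : ℕ}
    (hq : (#(S.erase 0) : ℝ) = r ^ 8) (w0 : 0 ≤ w) (hw : w * r ^ (8 * A) = 1) (s : Pt) (W : Set Pt)
    {E : Finset (Ed → ℝ)} (hE : ∀ η ∈ E, η ∈ Om V S ∧ ¬Cln D η s ∧
      (∀ x ∉ V, x ∈ Clu D η s ↔ x ∈ W) ∧ Tgt V (ctr (Clu D η s) (ty η)) c) :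
    ∑ η ∈ E, wgt w (edges V) η * r ^ enr V (ctr (Clu D η s) (ty η)) A η *
      (1 / kap) ^ #(V.filter (· ∈ Clu D η s)) ≤ r ^ c * ∑ η ∈ Om V S, wgt w (edges V) η := by
  set Z := ∑ η ∈ Om V S, wgt w (edges V) η with hZ
  have Z0 : 0 ≤ Z := sum_nonneg fun _ _ => wgt_nonneg w0 _ _
  set g : (Ed → ℝ) → Finset Pt := fun η => V.filter (· ∈ Clu D η s) with hg
  set G : Finset Pt → Set Pt := fun γ => {x | x ∈ γ ∨ (x ∉ V ∧ x ∈ W)} with hG
  have a1 : ∀ η ∈ E, Clu D η s = G (g η) := fun η a => Set.ext fun x => by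
    have := (hE η a).2.2.1 x
    simp only [hG, hg, Set.mem_ofPred_eq, mem_filter]
    tauto
  have a2 : ∀ η ∈ E, ∀ y, Nb (Clu D η s) y → y ∈ V ∧ ∃ x ∈ g η, Adj y x := fun η a y b =>
    have c := (clu_nb (hE η a).2.1 b).1
    ⟨h.mem c, b.2.imp fun x d => ⟨mem_filter.2 ⟨h.adj c d.2, d.1⟩, d.2⟩⟩
  have a3 := perc V W s (E.image g) G (fun _ _ => Iff.rfl) fun γ b => by
    obtain ⟨η, a, rfl⟩ := mem_image.1 b
    rw [← a1 η a]
    exact ⟨filter_subset _ _, clu_self, fun _ => clu_conn, a2 η a⟩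
  rw [← sum_fiberwise_of_maps_to (g := g) fun η a => mem_image_of_mem g a]
  refine le_trans (sum_le_sum fun γ _ => ?_) (((sum_mul _ _ (r ^ c * Z)).symm.le.trans
    (mul_le_mul_of_nonneg_right a3 (by positivity))).trans (one_mul _).le)
  set t : (Ed → ℝ) → Pt → Fin 3 := fun η p => if p ∈ near γ then ty η p else 0 with ht
  rw [← sum_fiberwise_of_maps_to (g := t) (t := fns (near γ) univ) fun η _ =>
    mem_fns.2 ⟨fun _ _ => mem_univ _, fun p a => if_neg a⟩]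
  refine (sum_le_card_nsmul _ _ (16 ^ #γ * r ^ c * Z * (1 / kap) ^ #γ) fun t0 _ => ?_).trans ?_
  · set C := (E.filter fun η => g η = γ).filter fun η => t η = t0 with hC
    rcases C.eq_empty_or_nonempty with b | ⟨η0, b⟩
    · rw [b, sum_empty, kap]; positivity
    have b1 : ∀ η ∈ C, η ∈ E ∧ g η = γ := fun η a => mem_filter.1 (mem_filter.1 a).1
    have b2 : ∀ η ∈ C, ∀ p ∈ near γ, ty η p = ty η0 p := fun η a p d => by
      simpa [ht, d] using congrFun ((mem_filter.1 a).2.trans (mem_filter.1 b).2.symm) p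
    have b3 : ∀ η ∈ C, Clu D η s = Clu D η0 s := fun η a => by
      rw [a1 _ (b1 η a).1, a1 _ (b1 _ b).1, (b1 η a).2, (b1 _ b).2]
    have b4 : ∀ η ∈ C, ctr (Clu D η s) (ty η) = ctr (Clu D η0 s) (ty η0) := fun η a => by
      rw [b3 η a]
      refine Set.ext fun x => and_congr_right fun d => ?_
      obtain ⟨-, y, e, f⟩ := a2 _ (b1 _ b).1 _ (bd_spec ⟨s, clu_self⟩ d).2
      rw [lab, lab, b2 η a _ (mem_biUnion.2 ⟨y, (b1 _ b).2 ▸ e, by
        simp only [Adj, mem_product, mem_Icc] at f ⊢; omega⟩)]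
    obtain ⟨c1, c2, -, F, F2, c3, c4, c5, c6⟩ := hE _ (b1 _ b).1
    have b5 : ∀ e ∈ rest V (ctr (Clu D η0 s) (ty η0)), ∃ y ∈ γ, e.1 = y ∨ tip e = y := fun e a => by
      rw [← (b1 _ b).2]
      rcases rest_clu h c1 c2 a with d | d
      exacts [⟨_, mem_filter.2 ⟨(mem_rest.1 a).1.1, d⟩, .inl rfl⟩,
        ⟨_, mem_filter.2 ⟨(mem_rest.1 a).1.2, d⟩, .inr rfl⟩]
    have b6 := shape hS h0 c3 h.edge hr hq w0 hw c4 c5 c6 (C := C) (fun η a =>
      ⟨(hE _ (b1 η a).1).1, fun p _ => b4 η a ▸ ctr_cen h (hE _ (b1 η a).1).1 (hE _ (b1 η a).1).2.1 p⟩)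
      b fun η a d e => b2 η a _ (by
        obtain ⟨y, f, k⟩ := b5 _ e
        refine mem_biUnion.2 ⟨y, f, ?_⟩
        rcases d with ⟨⟨z, _ | _⟩, _ | _⟩ <;> rcases k with rfl | rfl <;> simp [plq] <;> omega)
    have b7 : #(rest V (ctr (Clu D η0 s) (ty η0))) ≤ 4 * #γ :=
      (card_le_card fun e a => mem_biUnion.2 ((b5 e a).imp fun y f => ⟨f.1, mem_star.2 f.2⟩)).trans
        ((card_biUnion_le_card_mul _ _ 4 fun x _ => card_star x).trans (mul_comm _ _).le)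
    rw [sum_congr rfl fun η a => by rw [b4 η a, show V.filter (· ∈ Clu D η s) = γ from (b1 η a).2],
      ← sum_mul]
    refine mul_le_mul_of_nonneg_right (b6.trans ?_) (by rw [kap]; positivity)
    rw [show (16 : ℝ) = 2 ^ 4 by norm_num, ← pow_mul]
    exact mul_le_mul_of_nonneg_right (mul_le_mul_of_nonneg_right
      (pow_le_pow_right₀ one_le_two b7) (by positivity)) Z0
  · rw [card_fns, nsmul_eq_mul, card_univ, Fintype.card_fin]
    calc _ ≤ ((3 : ℝ) ^ 9) ^ #γ * (16 ^ #γ * r ^ c * Z * (1 / kap) ^ #γ) := by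
          refine mul_le_mul_of_nonneg_right ?_ (by rw [kap]; positivity)
          rw [← pow_mul, mul_comm]
          exact_mod_cast Nat.pow_le_pow_right (by norm_num) (card_near γ)
      _ = (3 ^ 9 * 16 * (1 / kap)) ^ #γ * (r ^ c * Z) := by rw [mul_pow, mul_pow]; ring
      _ = _ := by rw [kap]; norm_num

end Pool.Agent.Lib.MP_7c4eee_pr
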