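import Mathlib

/-!
The square lattice: potentials of curl free one-forms and constancy of local labels along the
boundary of a component.
-/

namespace Pool.Agent.Lib.MP_7c4eee_pr

open Finset

/-- Lattice points. -/
abbrev Pt := ℤ × ℤ
/-- Edges: a starting point and a direction (`true` is vertical). -/
abbrev Ed := Pt × Bool

/-- The second endpoint of an edge. -/
def tip (e : Ed) : Pt := if e.2 then (e.1.1, e.1.2 + 1) else (e.1.1 + 1, e.1.2)

@[simp] lemma tip_true (z : Pt) : tip (z, true) = (z.1, z.2 + 1) := rfl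
@[simp] lemma tip_false (z : Pt) : tip (z, false) = (z.1 + 1, z.2) := rfl

/-- Nearest neighbours. -/
def Adj (x y : Pt) : Prop := (x.1 - y.1).natAbs + (x.2 - y.2).natAbs = 1

lemma Adj.symm {x y : Pt} (h : Adj x y) : Adj y x := by unfold Adj at *; omega

lemma adj_tip (e : Ed) : Adj e.1 (tip e) := by
  rcases e with ⟨z, _ | _⟩ <;> simp [Adj]

lemma Adj.edge {x y : Pt} (h : Adj x y) :
    ∃ e : Ed, (e.1 = x ∧ tip e = y) ∨ (e.1 = y ∧ tip e = x) := by
  unfold Adj at h
  have : (y.1 = x.1 + 1 ∧ y.2 = x.2) ∨ (y.1 = x.1 ∧ y.2 = x.2 + 1) ∨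
      (x.1 = y.1 + 1 ∧ x.2 = y.2) ∨ (x.1 = y.1 ∧ x.2 = y.2 + 1) := by omega
  rcases this with h | h | h | h
  · exact ⟨(x, false), .inl ⟨rfl, Prod.ext h.1.symm h.2.symm⟩⟩
  · exact ⟨(x, true), .inl ⟨rfl, Prod.ext h.1.symm h.2.symm⟩⟩
  · exact ⟨(y, false), .inr ⟨rfl, Prod.ext h.1.symm h.2.symm⟩⟩
  · exact ⟨(y, true), .inr ⟨rfl, Prod.ext h.1.symm h.2.symm⟩⟩

section pot

variable {A : Type*} [AddCommGroup A]

/-- A primitive on the integers. -/
noncomputable def prim (g : ℤ → A) (k : ℤ) : A := ∑ t ∈ Ico 0 k, g t - ∑ t ∈ Ico k 0, g t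

lemma prim_zero (g : ℤ → A) : prim g 0 = 0 := by simp [prim]

lemma prim_succ (g : ℤ → A) (k : ℤ) : prim g (k + 1) = prim g k + g k := by
  unfold prim
  rcases le_or_gt 0 k with h | h
  · rw [show Ico 0 (k + 1) = insert k (Ico 0 k) by ext; simp; omega, sum_insert (by simp),
      Ico_eq_empty (a := k + 1) (by omega), Ico_eq_empty (a := k) (by omega)]
    abel
  · rw [show Ico k 0 = insert k (Ico (k + 1) 0) by ext; simp; omega, sum_insert (by simp),
      Ico_eq_empty (b := k + 1) (by omega), Ico_eq_empty (b := k) (by omega)]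
    abel

/-- The potential: integrate along the axis, then vertically. -/
noncomputable def pot (η : Ed → A) (z : Pt) : A :=
  prim (fun i => η ((i, 0), false)) z.1 + prim (fun j => η ((z.1, j), true)) z.2

lemma pot_neg (η : Ed → A) (z : Pt) : pot (-η) z = -pot η z := by
  simp only [pot, prim, Pi.neg_apply, sum_neg_distrib]; abel

/-- The form is closed on the plaquette with lower left corner `p`. -/
def Curl (η : Ed → A) (p : Pt) : Prop :=
  η (p, false) + η ((p.1 + 1, p.2), true) = η (p, true) + η ((p.1, p.2 + 1), false)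

lemma pot_tip {I : Pt → Prop} {η : Ed → A}
    (hI : ∀ i j j', I (i, j) → (0 ≤ j' ∧ j' ≤ j ∨ j ≤ j' ∧ j' ≤ 0) → I (i, j'))
    (hc : ∀ p : Pt, I p → I (p.1 + 1, p.2) → I (p.1, p.2 + 1) → I (p.1 + 1, p.2 + 1) → Curl η p)
    (e : Ed) (h1 : I e.1) (h2 : I (tip e)) : pot η (tip e) = pot η e.1 + η e := by
  rcases e with ⟨⟨i, j⟩, _ | _⟩
  · simp only [tip_false] at h1 h2 ⊢
    induction j using Int.induction_on with
    | zero => simp only [pot, prim_zero, prim_succ]; abel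
    | succ j ih =>
      have a1 := hI _ _ j h1 (by omega)
      have a2 := hI _ _ j h2 (by omega)
      have h3 := ih a1 a2
      have h4 := hc (i, j) a1 a2 h1 h2
      simp only [pot, prim_succ, Curl] at h3 h4 ⊢
      linear_combination (norm := abel) h3 + h4
    | pred j ih =>
      have a1 := hI _ _ (-j) h1 (by omega)
      have a2 := hI _ _ (-j) h2 (by omega)
      have h3 := ih a1 a2
      have e1 : (-j : ℤ) = -j - 1 + 1 := by ring
      rw [e1] at h3 a1 a2
      have h4 := hc (i, -j - 1) h1 h2 a1 a2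
      simp only [pot, prim_succ, Curl] at h3 h4 ⊢
      linear_combination (norm := abel) h3 - h4
  · simp only [tip_true, pot, prim_succ]; abel

end pot

/-- Joined by a path inside `B`. -/
def Rch (B : Set Pt) : Pt → Pt → Prop := Relation.ReflTransGen fun u v => Adj u v ∧ u ∈ B ∧ v ∈ B

lemma Rch.refl {B : Set Pt} (x : Pt) : Rch B x x := Relation.ReflTransGen.refl

lemma Rch.trans {B : Set Pt} {x y z : Pt} (h : Rch B x y) (h' : Rch B y z) : Rch B x z :=
  Relation.ReflTransGen.trans h h'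

lemma Rch.step {B : Set Pt} {x y : Pt} (h : Adj x y) (hx : x ∈ B) (hy : y ∈ B) : Rch B x y :=
  Relation.ReflTransGen.single ⟨h, hx, hy⟩

lemma Rch.symm {B : Set Pt} {x y : Pt} (h : Rch B x y) : Rch B y x := by
  induction h with
  | refl => exact .refl _
  | tail _ h ih => exact (Rch.step h.1.symm h.2.2 h.2.1).trans ih

lemma Rch.mono {B B' : Set Pt} (hB : B ⊆ B') {x y : Pt} (h : Rch B x y) : Rch B' x y := by
  induction h with
  | refl => exact .refl _
  | tail _ h ih => exact Rch.trans ih (.step h.1 (hB h.2.1) (hB h.2.2))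

lemma Rch.mem {B : Set Pt} {x y : Pt} (h : Rch B x y) (hx : x ∈ B) : y ∈ B := by
  induction h with
  | refl => exact hx
  | tail _ h _ => exact h.2.2

lemma Rch.ind {B : Set Pt} {Q : Pt → Prop} {x y : Pt} (h : Rch B x y) (hx : Q x)
    (hs : ∀ u v, Rch B x u → Adj u v → u ∈ B → v ∈ B → Q u → Q v) : Q y := by
  induction h with
  | refl => exact hx
  | tail h1 h ih => exact hs _ _ h1 h.1 h.2.1 h.2.2 ih

lemma Rch.sub {B B' : Set Pt} {x y : Pt} (h : Rch B x y) (hB : ∀ z, Rch B x z → z ∈ B') :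
    Rch B' x y :=
  h.ind (Q := fun y => Rch B' x y) (.refl _) fun _ _ h1 h2 h3 h4 h5 =>
    h5.trans (.step h2 (hB _ h1) (hB _ (h1.trans (.step h2 h3 h4))))

lemma Rch.const {α : Type*} {B : Set Pt} {a : Pt → α}
    (ha : ∀ u v, Adj u v → u ∈ B → v ∈ B → a u = a v) {x y : Pt} (h : Rch B x y) : a x = a y :=
  h.ind (Q := fun y => a x = a y) rfl fun u v _ h2 h3 h4 h5 => h5.trans (ha u v h2 h3 h4)

lemma rch_row {B : Set Pt} {i i' j : ℤ} (h : i ≤ i') (hB : ∀ t, i ≤ t → t ≤ i' → (t, j) ∈ B) :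
    Rch B (i, j) (i', j) := by
  induction i', h using Int.leInduction with
  | base => exact .refl _
  | succ k hk ih =>
    exact (ih fun t a b => hB t a (by omega)).trans
      (.step (by simp [Adj]) (hB _ hk (by omega)) (hB _ (by omega) le_rfl))

lemma rch_col {B : Set Pt} {i j j' : ℤ} (h : j ≤ j') (hB : ∀ t, j ≤ t → t ≤ j' → (i, t) ∈ B) :
    Rch B (i, j) (i, j') := by
  induction j', h using Int.leInduction with
  | base => exact .refl _
  | succ k hk ih =>
    exact (ih fun t a b => hB t a (by omega)).trans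
      (.step (by simp [Adj]) (hB _ hk (by omega)) (hB _ (by omega) le_rfl))

lemma rch_univ (x y : Pt) : Rch Set.univ x y := by
  have h1 : Rch Set.univ (x.1, x.2) (y.1, x.2) := by
    rcases le_total x.1 y.1 with h | h
    · exact rch_row h fun _ _ _ => trivial
    · exact (rch_row (B := Set.univ) h fun _ _ _ => trivial).symm
  have h2 : Rch Set.univ (y.1, x.2) (y.1, y.2) := by
    rcases le_total x.2 y.2 with h | h
    · exact rch_col h fun _ _ _ => trivial
    · exact (rch_col (B := Set.univ) h fun _ _ _ => trivial).symm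
  exact h1.trans h2

/-- `z` is a corner of the plaquette `p`. -/
def Cor (p z : Pt) : Prop := (z.1 = p.1 ∨ z.1 = p.1 + 1) ∧ (z.2 = p.2 ∨ z.2 = p.2 + 1)

/-- A point outside `G` with a neighbour in `G`. -/
def Nb (G : Set Pt) (x : Pt) : Prop := x ∉ G ∧ ∃ g ∈ G, Adj x g

lemma timar {α : Type*} {B : Set Pt} (hB : ∀ x ∈ B, ∀ y ∈ B, Rch B x y)
    (hc : ∀ x ∈ Bᶜ, ∀ y ∈ Bᶜ, Rch Bᶜ x y) (L : Pt → α)
    (hL : ∀ p x y, Cor p x → Cor p y → Nb Bᶜ x → Nb Bᶜ y → L x = L y) {x y : Pt}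
    (hx : Nb Bᶜ x) (hy : Nb Bᶜ y) : L x = L y := by
  classical
  set F : Ed → ZMod 2 := fun e => if (e.1 ∈ B ∧ tip e ∉ B ∧ L e.1 = L x) ∨
    (tip e ∈ B ∧ e.1 ∉ B ∧ L (tip e) = L x) then 1 else 0 with hF
  set χ : Pt → ZMod 2 := fun z => if z ∈ B then 1 else 0 with hχ
  have h0 : ∀ p, Curl F p := by
    intro p
    by_cases h : ∃ z, Cor p z ∧ Nb Bᶜ z ∧ L z = L x
    · obtain ⟨z, h1, h2, h3⟩ := h
      have h4 : ∀ e : Ed, Cor p e.1 → Cor p (tip e) → F e = χ e.1 + χ (tip e) := by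
        intro e a1 a2
        by_cases b1 : e.1 ∈ B <;> by_cases b2 : tip e ∈ B
        · simp only [hF, hχ, b1, b2]; simp; rfl
        · have := (hL p _ z a1 h1 ⟨by simpa using b1, _, b2, adj_tip e⟩ h2).trans h3
          simp [hF, hχ, b1, b2, this]
        · have := (hL p _ z a2 h1 ⟨by simpa using b2, _, b1, (adj_tip e).symm⟩ h2).trans h3
          simp [hF, hχ, b1, b2, this]
        · simp [hF, hχ, b1, b2]
      unfold Curl
      rw [h4, h4, h4, h4] <;> simp [Cor]
      generalize χ p = a, χ (p.1 + 1, p.2) = b, χ (p.1, p.2 + 1) = c, χ (p.1 + 1, p.2 + 1) = d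
      revert a b c d; decide
    · have h4 : ∀ e : Ed, Cor p e.1 → Cor p (tip e) → F e = 0 := by
        intro e a1 a2
        refine if_neg ?_
        rintro (⟨b1, b2, b3⟩ | ⟨b1, b2, b3⟩)
        · exact h ⟨_, a1, ⟨by simpa using b1, _, b2, adj_tip e⟩, b3⟩
        · exact h ⟨_, a2, ⟨by simpa using b1, _, b2, (adj_tip e).symm⟩, b3⟩
      unfold Curl
      rw [h4, h4, h4, h4] <;> simp [Cor]
  have h1 := pot_tip (I := fun _ => True) (η := F) (fun _ _ _ _ _ => trivial)
    fun p _ _ _ _ => h0 p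
  have h2 : ∀ u v, Adj u v → pot F v = pot F u +
      if (u ∈ B ∧ v ∉ B ∧ L u = L x) ∨ (v ∈ B ∧ u ∉ B ∧ L v = L x) then 1 else 0 := by
    intro u v h
    obtain ⟨e, ⟨rfl, rfl⟩ | ⟨rfl, rfl⟩⟩ := h.edge
    · exact h1 e trivial trivial
    · rw [h1 e trivial trivial, add_assoc, hF]
      simp only [or_comm]
      split_ifs
      · exact (add_zero _).symm
      · simp
  obtain ⟨x1, gx, x2, x3⟩ := hx
  obtain ⟨y1, gy, y2, y3⟩ := hy
  have x1' : x ∈ B := by simpa using x1
  have y1' : y ∈ B := by simpa using y1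
  have a1 : pot F x = pot F y := (hB _ x1' _ y1').const fun u v h hu hv => by
    rw [h2 u v h]; simp [hu, hv]
  have a2 : pot F gx = pot F gy := (hc _ x2 _ y2).const fun u v h hu hv => by
    rw [h2 u v h]; simp [show u ∉ B from hu, show v ∉ B from hv]
  rw [h2 _ _ x3, h2 _ _ y3, a1, if_pos (.inl ⟨x1', x2, rfl⟩), add_right_inj] at a2
  by_contra h
  rw [if_neg (by
    rintro (⟨-, -, b⟩ | ⟨b, -⟩)
    exacts [h b.symm, y2 b])] at a2
  exact one_ne_zero a2

lemma exists_nb {G : Set Pt} (hG : G.Nonempty) {x : Pt} (hx : x ∉ G) :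
    ∃ y, Rch Gᶜ x y ∧ Nb G y := by
  obtain ⟨g, hg⟩ := hG
  have := (rch_univ x g).ind (Q := fun v => (∃ y, Rch Gᶜ x y ∧ Nb G y) ∨ Rch Gᶜ x v)
    (.inr (.refl _)) fun u v _ h _ _ ih => by
      rcases ih with ih | ih
      · exact .inl ih
      by_cases hv : v ∈ G
      · exact .inl ⟨u, ih, ih.mem hx, v, hv, h⟩
      · exact .inr (ih.trans (.step h (ih.mem hx) hv))
  exact this.resolve_right fun h => h.mem hx hg

open Classical in
/-- A chosen point next to `G` in the component of `x`. -/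
noncomputable def bd (G : Set Pt) (x : Pt) : Pt :=
  if h : ∃ y, Rch Gᶜ x y ∧ Nb G y then h.choose else x

lemma bd_spec {G : Set Pt} (hG : G.Nonempty) {x : Pt} (hx : x ∉ G) :
    Rch Gᶜ x (bd G x) ∧ Nb G (bd G x) := by
  rw [bd, dif_pos (exists_nb hG hx)]
  exact (exists_nb hG hx).choose_spec

lemma bd_eq {α : Type*} {G : Set Pt} {s : Pt} (hs : s ∈ G) (hG : ∀ g ∈ G, Rch G s g) (L : Pt → α)
    (hL : ∀ p x y, Cor p x → Cor p y → Nb G x → Nb G y → L x = L y) {x y : Pt}
    (hx : x ∉ G) (hxy : Rch Gᶜ x y) (hy : Nb G y) : L (bd G x) = L y := by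
  set B : Set Pt := {z | Rch Gᶜ x z} with hB
  have h1 : G ⊆ Bᶜ := fun g hg h => Rch.mem h hx hg
  have h2 : ∀ z, Rch Gᶜ x z → Nb G z → Nb Bᶜ z := fun z a b =>
    ⟨fun h => h a, b.2.imp fun g hg => ⟨h1 hg.1, hg.2⟩⟩
  have h3 : ∀ z, Nb Bᶜ z → Nb G z := by
    rintro z ⟨a, g, b, c⟩
    have a' : Rch Gᶜ x z := not_not.mp a
    exact ⟨a'.mem hx, g, by_contra fun d => b (a'.trans (.step c (a'.mem hx) d)), c⟩
  have h4 : ∀ z ∈ Bᶜ, Rch Bᶜ s z := by
    intro z hz
    by_cases a : z ∈ G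
    · exact (hG z a).mono h1
    obtain ⟨w, b1, b2, g, b3, b4⟩ := exists_nb ⟨s, hs⟩ a
    have b5 : ∀ v, Rch Gᶜ z v → v ∈ Bᶜ := fun v c d => hz (Rch.trans d c.symm)
    exact (((hG g b3).mono h1).trans (.step b4.symm (h1 b3) (b5 _ b1))).trans (b1.sub b5).symm
  have h5 := bd_spec ⟨s, hs⟩ hx
  exact timar (B := B) (fun u hu v hv => (Rch.sub hu fun _ h => h).symm.trans (Rch.sub hv fun _ h => h))
    (fun u hu v hv => (h4 u hu).symm.trans (h4 v hv)) L
    (fun p u v a b c d => hL p u v a b (h3 _ c) (h3 _ d)) (h2 _ h5.1 h5.2) (h2 _ hxy hy)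

end Pool.Agent.Lib.MP_7c4eee_pr
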