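import Pool.Agent.Lib.MP_7c4eee_pr.H32Conf

/-!
The repair map: centres in `K` of the wrong parity are shifted by one step, the other target
centres are refilled freely.
-/

namespace Pool.Agent.Lib.MP_7c4eee_pr

open Finset Classical

/-- The left neighbour. -/
def lf (x : Pt) : Pt := (x.1 - 1, x.2)
/-- The edge shifted to the left. -/
def sh (e : Ed) : Ed := (lf e.1, e.2)

lemma tip_sh (e : Ed) : tip (sh e) = lf (tip e) := by
  rcases e with ⟨z, _ | _⟩ <;> simp [sh, lf]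

lemma adj_lf (x : Pt) : Adj x (lf x) := by simp [Adj, lf]

/-- Compatibility of the centres `K` with the target centres `F`. -/
structure Rp (V : Finset Pt) (K F : Set Pt) : Prop where
  indF : ∀ x y, Adj x y → x ∈ F → y ∉ F
  indK : ∀ x y, Adj x y → x ∈ K → y ∉ K
  diag : ∀ x ∈ K, ∀ y ∈ K, (x.1 - y.1).natAbs = 1 → (x.2 - y.2).natAbs = 1 → x ∈ F → y ∈ F
  move : ∀ x, lf x ∈ K → lf x ∉ F → x ∈ F ∧ ∀ p, Cor p x ∨ Cor p (lf x) → Pl V p

/-- The target centres that are refilled freely. -/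
noncomputable def free (V : Finset Pt) (K F : Set Pt) : Finset Pt :=
  V.filter fun x => x ∈ F ∧ x ∉ K ∧ lf x ∉ K

/-- The new value on an edge at the target centre `x`. -/
noncomputable def stv (K : Set Pt) (η : Ed → ℝ) (s : Pt → ℝ) (x : Pt) (e : Ed) (σ : ℝ) : ℝ :=
  if x ∈ K then η e else if lf x ∈ K then η (sh e) else σ * s x

/-- The repaired configuration. -/
noncomputable def rpr (V : Finset Pt) (K F : Set Pt) (s0 : ℝ) (η : Ed → ℝ) (s : Pt → ℝ) (e : Ed) :
    ℝ :=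
  if e ∈ edges V then (if e.1 ∈ F then stv K η s e.1 e (-1) else if tip e ∈ F then
    stv K η s (tip e) e 1 else if (e.1.1 + e.1.2) % 2 = 0 then s0 else -s0) else 0

lemma diag_eq {Fx Kx Mx Fy Ky My : Prop} {u u' v v' : ℝ} (h1 : u = u') (h2 : ¬(Kx ↔ Ky) → u = 0)
    (h3 : Fx ∧ Mx ∨ Fy ∧ My → (v = v' ∧ (¬(Mx ↔ My) → v = 0)) ∧ (Mx → My → Fx ∧ Fy))
    (h4 : Kx → ¬Mx) (h5 : Ky → ¬My) (h6 : Kx → Ky → (Fx ↔ Fy)) :
    (if Fx then if Kx then u else if Mx then v else 0 else 0) =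
      (if Fy then if Ky then u' else if My then v' else 0 else 0) := by
  by_cases Fx <;> by_cases Kx <;> by_cases Mx <;> by_cases Fy <;> by_cases Ky <;> by_cases My <;>
    simp_all <;> linarith [h3.1, h3.2]

variable {V : Finset Pt} {K F : Set Pt} {S : Finset ℝ} {η : Ed → ℝ}

lemma Rp.pair (h : Rp V K F) {p x y : Pt} (hx : Cor p x) (hy : Cor p y)
    (h1 : (x.1 - y.1).natAbs = 1) (h2 : (x.2 - y.2).natAbs = 1)
    (h3 : x ∈ F ∧ lf x ∈ K ∨ y ∈ F ∧ lf y ∈ K) :
    Pl V (lf p) ∧ (lf x ∈ K → lf y ∈ K → x ∈ F ∧ y ∈ F) := by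
  have a : ∀ z, Cor p z → Cor (lf p) (lf z) := fun z hz => by simp only [Cor, lf] at *; omega
  rcases h3 with ⟨b, c⟩ | ⟨b, c⟩
  · have d := h.indF _ _ (adj_lf x) b
    refine ⟨(h.move x c d).2 _ (.inr (a x hx)), fun _ e => ⟨b, (h.move y e fun f => d ?_).1⟩⟩
    exact h.diag _ e _ c (by simp only [lf]; omega) (by simp only [lf]; omega) f
  · have d := h.indF _ _ (adj_lf y) b
    refine ⟨(h.move y c d).2 _ (.inr (a y hy)), fun e _ => ⟨(h.move x e fun f => d ?_).1, b⟩⟩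
    exact h.diag _ e _ c (by simp only [lf]; omega) (by simp only [lf]; omega) f

lemma rpr_curl (h : Rp V K F) (hη : η ∈ Om V S) (hc : ∀ p, Pl V p → Cen K (ty η) p) (s0 : ℝ)
    (s : Pt → ℝ) {p : Pt} (hp : Pl V p) : Curl (rpr V K F s0 η s) p := by
  have hcu := (mem_Om.1 hη).2.2
  rcases p with ⟨i, j⟩
  have e1 : (((i, j), false) : Ed) ∈ edges V := mem_edges.2 ⟨hp.1, hp.2.1⟩
  have e2 : (((i + 1, j), true) : Ed) ∈ edges V := mem_edges.2 ⟨hp.2.1, hp.2.2.2⟩
  have e3 : (((i, j), true) : Ed) ∈ edges V := mem_edges.2 ⟨hp.1, hp.2.2.1⟩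
  have e4 : (((i, j + 1), false) : Ed) ∈ edges V := mem_edges.2 ⟨hp.2.2.1, hp.2.2.2⟩
  have k := fun x => h.indK x (lf x) (adj_lf x)
  simp only [Curl, rpr, e1, e2, e3, e4, if_true, tip_true, tip_false]
  by_cases a : (i, j) ∈ F ∨ (i + 1, j + 1) ∈ F
  · have a1 : (i + 1, j) ∉ F := a.elim (h.indF _ _ (by simp [Adj])) (h.indF _ _ (by simp [Adj]))
    have a2 : (i, j + 1) ∉ F := a.elim (h.indF _ _ (by simp [Adj])) (h.indF _ _ (by simp [Adj]))
    have := diag_eq (Fx := (i, j) ∈ F) (Fy := (i + 1, j + 1) ∈ F)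
      (u := η ((i, j), false) - η ((i, j), true))
      (u' := η ((i, j + 1), false) - η ((i + 1, j), true))
      (v := η (sh ((i, j), false)) - η (sh ((i, j), true)))
      (v' := η (sh ((i, j + 1), false)) - η (sh ((i + 1, j), true)))
      (by have := hcu _ hp; simp only [Curl] at this; linarith)
      (fun b => sub_eq_zero.2 (ty_zero ((hc _ hp).1 b)).1) (fun b => by
        obtain ⟨c, d⟩ := h.pair (p := (i, j)) (by simp [Cor]) (by simp [Cor]) (by simp) (by simp) b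
        refine ⟨⟨?_, fun e => sub_eq_zero.2 (ty_zero ((hc _ c).1 ?_)).1⟩, d⟩
        · have := hcu _ c
          simp only [Curl, sh, lf, sub_add_cancel, add_sub_cancel_right] at this ⊢
          linarith
        · simpa [lf] using e) (k _) (k _) fun b c =>
        ⟨h.diag _ b _ c (by simp) (by simp), h.diag _ c _ b (by simp) (by simp)⟩
    simp only [a1, a2, if_false, stv, show i + 1 + j = i + (j + 1) by ring]
    split_ifs at this ⊢ <;> linarith
  · have a1 : (i, j) ∉ F := fun b => a (.inl b)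
    have a2 : (i + 1, j + 1) ∉ F := fun b => a (.inr b)
    have := diag_eq (Fx := (i + 1, j) ∈ F) (Fy := (i, j + 1) ∈ F)
      (u := η ((i, j), false) + η ((i + 1, j), true))
      (u' := η ((i, j), true) + η ((i, j + 1), false))
      (v := η (sh ((i, j), false)) + η (sh ((i + 1, j), true)))
      (v' := η (sh ((i, j), true)) + η (sh ((i, j + 1), false)))
      (hcu _ hp) (fun b => add_eq_zero_iff_eq_neg.2 (ty_one ((hc _ hp).2 b)).1) (fun b => by
        obtain ⟨c, d⟩ := h.pair (p := (i, j)) (by simp [Cor]) (by simp [Cor]) (by simp) (by simp) b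
        refine ⟨⟨?_, fun e => ?_⟩, d⟩
        · have := hcu _ c
          simpa only [Curl, sh, lf, sub_add_cancel, add_sub_cancel_right] using this
        · have := (ty_one ((hc _ c).2 (by simpa [lf] using e))).1
          simp only [sh, lf, sub_add_cancel, add_sub_cancel_right] at this ⊢
          linarith) (k _) (k _) fun b c =>
        ⟨h.diag _ b _ c (by simp) (by simp), h.diag _ c _ b (by simp) (by simp)⟩
    simp only [a1, a2, if_false, stv]
    dsimp only at this ⊢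
    by_cases b1 : (i + 1, j) ∈ F <;> by_cases b2 : (i, j + 1) ∈ F <;>
      simp only [b1, b2, if_true, if_false] at this ⊢ <;>
      split_ifs at this ⊢ <;> first | linarith | omega

/-- The edge belongs to a target centre that is kept or moved. -/
def Own (K F : Set Pt) (e : Ed) : Prop :=
  (e.1 ∈ F ∧ (e.1 ∈ K ∨ lf e.1 ∈ K)) ∨ (tip e ∈ F ∧ (tip e ∈ K ∨ lf (tip e) ∈ K))

/-- The origin of an owned edge. -/
noncomputable def back (K F : Set Pt) (e : Ed) : Ed :=
  if (e.1 ∈ F ∧ e.1 ∈ K) ∨ (tip e ∈ F ∧ tip e ∈ K) then e else sh e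

lemma rpr_own (h : Rp V K F) (s0 : ℝ) (s : Pt → ℝ) {e : Ed} (he : e ∈ edges V) (ho : Own K F e) :
    rpr V K F s0 η s e = η (back K F e) := by
  have a := h.indF _ _ (adj_tip e)
  unfold Own at ho
  simp only [rpr, he, if_true, stv, back]
  by_cases e.1 ∈ F <;> by_cases tip e ∈ F <;> by_cases e.1 ∈ K <;> by_cases tip e ∈ K <;> simp_all

lemma rpr_not {τ s0 : ℝ} (hS : Sidon S τ) (h0 : s0 ∈ S.erase 0) {s : Pt → ℝ}
    (hs : s ∈ fns (free V K F) (S.erase 0)) {e : Ed} (he : e ∈ edges V) (ho : ¬Own K F e) :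
    rpr V K F s0 η s e ∈ S.erase 0 := by
  have a : ∀ s ∈ S.erase 0, -s ∈ S.erase 0 := fun s hs =>
    mem_erase.2 ⟨neg_ne_zero.2 (mem_erase.1 hs).1, hS.neg _ (mem_erase.1 hs).2⟩
  have b : ∀ x ∈ V, x ∈ F → x ∉ K → lf x ∉ K → s x ∈ S.erase 0 := fun x a b c d =>
    (mem_fns.1 hs).1 x (mem_filter.2 ⟨a, b, c, d⟩)
  have c := mem_edges.1 he
  unfold Own at ho
  simp only [rpr, he, if_true, stv]
  split_ifs with h1 h2 h3 h4 h5 h6 h7
  · tauto
  · tauto
  · rw [neg_one_mul]; exact a _ (b _ c.1 h1 h2 h3)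
  · tauto
  · tauto
  · rw [one_mul]; exact b _ c.2 h4 h5 h6
  · exact h0
  · exact a _ h0

lemma pl_of_cor {x : Pt} (h : ∀ p, Cor p x → Pl V p) {e : Ed} (he : e.1 = x ∨ tip e = x) :
    e ∈ edges V ∧ Inn (Pl V) e := by
  have a : ∀ s, Pl V (plq (e, s)) := fun s => h _ (by
    rcases e with ⟨⟨i, j⟩, _ | _⟩ <;> rcases s <;> rcases he with rfl | rfl <;> simp [Cor, plq])
  refine ⟨mem_edges.2 ?_, a _, a _⟩
  have := a true
  rcases e with ⟨z, _ | _⟩
  exacts [⟨this.1, this.2.1⟩, ⟨this.1, this.2.2.1⟩]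

lemma back_spec (h : Rp V K F) {e : Ed} (he : e ∈ edges V) (ho : Own K F e) :
    back K F e ∈ edges V \ rest V K ∧ (Inn (Pl V) e → Inn (Pl V) (back K F e)) := by
  unfold back
  rw [mem_sdiff, rest, mem_filter]
  split_ifs with a
  · exact ⟨⟨he, by tauto⟩, id⟩
  · obtain ⟨x, b, c, d⟩ : ∃ x ∈ F, lf x ∈ K ∧ ((sh e).1 = lf x ∨ tip (sh e) = lf x) := by
      rcases ho with ⟨b, c⟩ | ⟨b, c⟩
      exacts [⟨_, b, by tauto, .inl rfl⟩, ⟨_, b, by tauto, .inr (tip_sh e)⟩]
    have f := pl_of_cor (fun p hp => (h.move x c (h.indF _ _ (adj_lf x) b)).2 p (.inr hp)) d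
    refine ⟨⟨f.1, fun g => ?_⟩, fun _ => f.2⟩
    rcases d with d | d
    exacts [g.2.1 (d ▸ c), g.2.2 (d ▸ c)]

lemma back_inj (h : Rp V K F) : Set.InjOn (back K F) {e | Own K F e} := by
  have a : ∀ e, Own K F e → ¬((e.1 ∈ F ∧ e.1 ∈ K) ∨ (tip e ∈ F ∧ tip e ∈ K)) →
      ¬(((sh e).1 ∈ F ∧ (sh e).1 ∈ K) ∨ (tip (sh e) ∈ F ∧ tip (sh e) ∈ K)) := by
    intro e ho b
    have c1 := h.indF _ _ (adj_lf e.1)
    have c2 := h.indF _ _ (adj_lf (tip e))
    have c3 := h.indK _ _ (adj_tip (sh e))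
    rw [tip_sh] at *
    unfold Own at ho
    simp only [sh] at *
    tauto
  intro e he f hf b
  unfold back at b
  split_ifs at b with c d d
  · exact b
  · exact absurd (b ▸ c) (a f hf d)
  · exact absurd (b ▸ d) (a e he c)
  · simp only [sh, lf, Prod.ext_iff] at b ⊢
    exact ⟨⟨by omega, b.1.2⟩, b.2⟩

lemma back_surj (h : Rp V K F) {e : Ed} (he : e ∈ edges V \ rest V K) :
    ∃ f ∈ edges V, Own K F f ∧ back K F f = e := by
  rw [mem_sdiff, rest, mem_filter] at he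
  by_cases a : (e.1 ∈ F ∧ e.1 ∈ K) ∨ (tip e ∈ F ∧ tip e ∈ K)
  · exact ⟨e, he.1, by unfold Own; tauto, if_pos a⟩
  set f : Ed := ((e.1.1 + 1, e.1.2), e.2) with hf
  have b : sh f = e := by simp [hf, sh, lf]
  obtain ⟨x, c, d, g⟩ : ∃ x, lf x ∈ K ∧ lf x ∉ F ∧ (f.1 = x ∨ tip f = x) := by
    by_cases c : e.1 ∈ K
    · exact ⟨f.1, by rwa [← b] at c, by have : e.1 ∉ F := by tauto
                                        rwa [← b] at this, .inl rfl⟩
    · exact ⟨tip f, by rw [← tip_sh, b]; tauto, by rw [← tip_sh, b]; tauto, .inr rfl⟩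
  obtain ⟨k, l⟩ := h.move x c d
  have m := (h.indK _ _ (adj_lf x).symm c)
  have n := h.indF _ _ (adj_tip f)
  refine ⟨f, (pl_of_cor (fun p hp => l p (.inl hp)) g).1, ?_, (if_neg ?_).trans b⟩
  · rcases g with rfl | rfl
    exacts [.inl ⟨k, .inr c⟩, .inr ⟨k, .inr c⟩]
  · rcases g with rfl | rfl <;> tauto

lemma rest_count (h : Rp V K F) {F2 : Finset Pt} (h1 : F2 ⊆ free V K F)
    (h2 : ∀ e, Inn (Pl V) e → e.1 ∉ F2 ∧ tip e ∉ F2) :
    #((rest V K).filter (Inn (Pl V))) + 4 * #F2 ≤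
      #((edges V).filter fun e => e.1 ∉ F ∧ tip e ∉ F) + 4 * #(free V K F) := by
  have a1 : #((edges V).filter fun e => Own K F e ∧ Inn (Pl V) e) ≤
      #((edges V \ rest V K).filter (Inn (Pl V))) :=
    card_le_card_of_injOn (back K F) (fun e he => by
      simp only [coe_filter, Set.mem_ofPred_eq] at he ⊢
      exact (back_spec h he.1 he.2.1).imp id fun a => a he.2.2)
      ((back_inj h).mono fun e he => (mem_filter.1 he).2.1)
  have a2 : #((rest V K).filter (Inn (Pl V))) + #((edges V \ rest V K).filter (Inn (Pl V))) =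
      #((edges V).filter (Inn (Pl V))) := by
    rw [← card_union_of_disjoint (disjoint_filter_filter disjoint_sdiff), ← filter_union,
      union_sdiff_of_subset (show rest V K ⊆ edges V from filter_subset _ _)]
  have a3 : (edges V).filter (Inn (Pl V)) ⊆ ((edges V).filter fun e => Own K F e ∧ Inn (Pl V) e) ∪
      ((edges V).filter fun e => e.1 ∉ F ∧ tip e ∉ F) ∪ (free V K F \ F2).biUnion star := by
    intro e he
    rw [mem_filter] at he
    have b := mem_edges.1 he.1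
    have c := h2 e he.2
    simp only [mem_union, mem_filter, mem_biUnion, mem_sdiff, free, mem_star]
    by_cases d : e.1 ∈ F ∧ e.1 ∉ K ∧ lf e.1 ∉ K
    · exact .inr ⟨_, ⟨⟨b.1, d⟩, c.1⟩, .inl rfl⟩
    by_cases f : tip e ∈ F ∧ tip e ∉ K ∧ lf (tip e) ∉ K
    · exact .inr ⟨_, ⟨⟨b.2, f⟩, c.2⟩, .inr rfl⟩
    exact .inl (by unfold Own; tauto)
  have a4 := (card_le_card a3).trans ((card_union_le _ _).trans (Nat.add_le_add
    (card_union_le _ _) (card_biUnion_le_card_mul _ _ 4 fun x _ => card_star x)))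
  have a5 := card_sdiff_add_card_eq_card h1
  omega

end Pool.Agent.Lib.MP_7c4eee_pr
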