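import Pool.Agent.Lib.MP_7c4eee_pr.H32Repair

/-!
The weight of all configurations with a given shape.
-/

namespace Pool.Agent.Lib.MP_7c4eee_pr

open Finset Classical

/-- The weight: a factor `w` for each vanishing edge in `A`. -/
noncomputable def wgt (w : ℝ) (A : Finset Ed) (η : Ed → ℝ) : ℝ := w ^ #(A.filter fun e => η e = 0)

lemma wgt_nonneg {w : ℝ} (h : 0 ≤ w) (A : Finset Ed) (η : Ed → ℝ) : 0 ≤ wgt w A η := pow_nonneg h _

variable {V : Finset Pt} {K F : Set Pt} {S : Finset ℝ} {τ s0 w : ℝ}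

lemma repair_sum (hS : Sidon S τ) (h0 : s0 ∈ S.erase 0) (h : Rp V K F)
    (hV : ∀ x ∈ V, ∃ e ∈ edges V, e.1 = x ∨ tip e = x) (w0 : 0 ≤ w) (w1 : w ≤ 1)
    {C : Finset (Ed → ℝ)} (hC : ∀ η ∈ C, η ∈ Om V S ∧ ∀ p, Pl V p → Cen K (ty η) p)
    {R : Finset Ed} (hR : R ⊆ edges V)
    (hd : ∀ η ∈ C, ∀ η' ∈ C, (∀ e ∈ R, η e = η' e) → ∀ e ∈ rest V K, η e = η' e) :
    (∑ η ∈ C, wgt w (edges V \ rest V K) η) * (#(S.erase 0) : ℝ) ^ #(free V K F) ≤
      (∑ η ∈ Om V S, wgt w (edges V) η) * (#S : ℝ) ^ #R := by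
  set Ψ : (Ed → ℝ) × (Pt → ℝ) → (Ed → ℝ) × (Ed → ℝ) :=
    fun y => (rpr V K F s0 y.1 y.2, fun e => if e ∈ R then y.1 e else 0) with hΨ
  set D := C ×ˢ fns (free V K F) (S.erase 0) with hD
  have a1 : Set.InjOn Ψ D := by
    rintro ⟨η, s⟩ b1 ⟨η', s'⟩ b2 b3
    simp only [hD, coe_product, Set.mem_prod, mem_coe, hΨ, Prod.mk.injEq] at b1 b2 b3
    refine Prod.ext (funext fun e => ?_) (funext fun x => ?_)
    · by_cases c1 : e ∈ rest V K
      · exact hd _ b1.1 _ b2.1 (fun f hf => by simpa [hf] using congrFun b3.2 f) e c1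
      by_cases c2 : e ∈ edges V
      · obtain ⟨f, d1, d2, rfl⟩ := back_surj h (mem_sdiff.2 ⟨c2, c1⟩)
        exact (rpr_own h s0 s d1 d2).symm.trans ((congrFun b3.1 f).trans (rpr_own h s0 s' d1 d2))
      · exact ((mem_Om.1 (hC _ b1.1).1).2.1 e c2).trans ((mem_Om.1 (hC _ b2.1).1).2.1 e c2).symm
    · by_cases c1 : x ∈ free V K F
      · obtain ⟨d1, d2, d3, d4⟩ := mem_filter.1 c1
        obtain ⟨e, d5, d6⟩ := hV x d1
        have := congrFun b3.1 e
        rcases d6 with rfl | rfl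
        · simpa [rpr, stv, d5, d2, d3, d4] using this
        · simpa [rpr, stv, d5, d2, d3, d4, h.indF _ _ (adj_tip e).symm d2] using this
      · exact ((mem_fns.1 b1.2).2 x c1).trans ((mem_fns.1 b2.2).2 x c1).symm
  have a2 : D.image Ψ ⊆ Om V S ×ˢ fns R S := by
    intro y hy
    obtain ⟨⟨η, s⟩, b1, rfl⟩ := mem_image.1 hy
    obtain ⟨b2, b3⟩ := mem_product.1 b1
    obtain ⟨b4, b5⟩ := hC η b2
    refine mem_product.2 ⟨mem_Om.2 ⟨fun e he => ?_, fun e he => if_neg he,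
      fun p hp => rpr_curl h b4 b5 s0 s hp⟩, mem_fns.2 ⟨fun e he => ?_, fun e he => if_neg he⟩⟩
    · by_cases c : Own K F e
      · exact (congrArg (· ∈ S) (rpr_own h s0 s he c)).mpr
          ((mem_Om.1 b4).1 _ (mem_sdiff.1 (back_spec h he c).1).1)
      · exact mem_of_mem_erase (rpr_not hS h0 b3 he c)
    · simpa [hΨ, he] using (mem_Om.1 b4).1 e (hR he)
  have a3 : ∀ y ∈ D, wgt w (edges V \ rest V K) y.1 ≤ wgt w (edges V) (Ψ y).1 := by
    rintro ⟨η, s⟩ b1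
    have b2 : ∀ e ∈ (edges V).filter fun e => rpr V K F s0 η s e = 0, Own K F e := fun e he =>
      by_contra fun c => (mem_erase.1 (rpr_not hS h0 (mem_product.1 b1).2 (mem_filter.1 he).1 c)).1
        (mem_filter.1 he).2
    refine pow_le_pow_of_le_one w0 w1 (card_le_card_of_injOn (back K F) (fun e he => ?_)
      ((back_inj h).mono b2))
    have c := mem_filter.1 he
    exact mem_filter.2 ⟨(back_spec h c.1 (b2 e he)).1, (rpr_own h s0 s c.1 (b2 e he)).symm.trans c.2⟩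
  calc _ = ∑ y ∈ D, wgt w (edges V \ rest V K) y.1 := by
        rw [hD, sum_product, sum_mul]
        exact sum_congr rfl fun η _ => by simp [card_fns, mul_comm]
    _ ≤ ∑ y ∈ D.image Ψ, wgt w (edges V) y.1 := by rw [sum_image a1]; exact sum_le_sum a3
    _ ≤ ∑ y ∈ Om V S ×ˢ fns R S, wgt w (edges V) y.1 :=
        sum_le_sum_of_subset_of_nonneg a2 fun _ _ _ => wgt_nonneg w0 _ _
    _ = _ := by
        rw [sum_product, sum_mul]
        exact sum_congr rfl fun η _ => by simp [card_fns, mul_comm]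

/-- The energy of a configuration away from the centres `K`. -/
noncomputable def enr (V : Finset Pt) (K : Set Pt) (A : ℕ) (η : Ed → ℝ) : ℕ :=
  #((rest V K).filter (Dfc (Pl V) (ty η))) + 8 * A * #((rest V K).filter fun e => η e = 0)

lemma shape (hS : Sidon S τ) (h0 : s0 ∈ S.erase 0) (h : Rp V K F)
    (hV : ∀ x ∈ V, ∃ e ∈ edges V, e.1 = x ∨ tip e = x) {r : ℝ} (hr : 1 ≤ r) {A c : ℕ}
    (hq : (#(S.erase 0) : ℝ) = r ^ 8) (w0 : 0 ≤ w) (hw : w * r ^ (8 * A) = 1)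
    {F2 : Finset Pt} (h1 : F2 ⊆ free V K F) (h2 : ∀ e, Inn (Pl V) e → e.1 ∉ F2 ∧ tip e ∉ F2)
    (h3 : 4 * #((rest V K ×ˢ (univ : Finset Bool)).filter fun d => ¬Pl V (plq d)) +
      2 * #((edges V).filter fun e => e.1 ∉ F ∧ tip e ∉ F) ≤ 8 * #F2 + c)
    {C : Finset (Ed → ℝ)} (hC : ∀ η ∈ C, η ∈ Om V S ∧ ∀ p, Pl V p → Cen K (ty η) p)
    {η0 : Ed → ℝ} (h4 : η0 ∈ C)
    (h5 : ∀ η ∈ C, ∀ d : Ed × Bool, d.1 ∈ rest V K → ty η (plq d) = ty η0 (plq d)) :
    ∑ η ∈ C, wgt w (edges V) η * r ^ enr V K A η ≤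
      2 ^ #(rest V K) * r ^ c * ∑ η ∈ Om V S, wgt w (edges V) η := by
  obtain ⟨R, b1, b2, b3⟩ := class_count (P := Pl V) (t := ty η0) (G := rest V K)
    fun d a b => rest_closed a b ((hC _ h4).2 _ b)
  have c1 : ∀ η ∈ C, ∀ d : Ed × Bool, d.1 ∈ rest V K → ptn (ty η) d = ptn (ty η0) d :=
    fun η a d b => by rw [ptn, ptn, h5 η a d b]
  have w1 : w ≤ 1 := by nlinarith [one_le_pow₀ hr (n := 8 * A)]
  have b4 := repair_sum hS h0 h hV w0 w1 hC (b1.trans (filter_subset _ _)) fun η a η' a' b =>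
    b3 (fun e => η e = η' e) b fun d d1 d2 d3 => by
      have e1 := ptn_val hS (hC η a).1 d2
      have e2 := ptn_val hS (hC η' a').1 d2
      rw [c1 _ a d d1, h5 _ a d d1] at e1
      rw [c1 _ a' d d1, h5 _ a' d d1] at e2
      rw [e1, e2, d3]
  have b5 := rest_count h h1 h2
  set Δ := #((rest V K).filter (Dfc (Pl V) (ty η0))) with hΔ
  have b6 : ∀ η ∈ C, wgt w (edges V) η * r ^ enr V K A η = wgt w (edges V \ rest V K) η * r ^ Δ := by
    intro η a
    have d1 : (rest V K).filter (Dfc (Pl V) (ty η)) = (rest V K).filter (Dfc (Pl V) (ty η0)) :=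
      filter_congr fun e he => by
        simp only [Dfc, Agr, h5 η a (e, _) he, c1 η a (e, _) he]
    have d2 : #((edges V).filter fun e => η e = 0) = #((edges V \ rest V K).filter fun e => η e = 0) +
        #((rest V K).filter fun e => η e = 0) := by
      rw [← card_union_of_disjoint (disjoint_filter_filter sdiff_disjoint), ← filter_union,
        sdiff_union_of_subset (show rest V K ⊆ edges V from filter_subset _ _)]
    rw [enr, d1, wgt, d2, wgt, pow_add, pow_add, pow_mul r]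
    calc _ = w ^ _ * r ^ Δ * (w * r ^ (8 * A)) ^ #((rest V K).filter fun e => η e = 0) := by
          rw [mul_pow]; ring
      _ = _ := by rw [hw, one_pow, mul_one]
  have r0 : 0 < r := by linarith
  have b7 : (#S : ℝ) ≤ 2 * r ^ 8 := by
    have := card_erase_add_one hS.zero
    have : (#S : ℝ) = #(S.erase 0) + 1 := by exact_mod_cast this.symm
    linarith [one_le_pow₀ hr (n := 8)]
  set Z := ∑ η ∈ Om V S, wgt w (edges V) η with hZ
  have Z0 : 0 ≤ Z := sum_nonneg fun _ _ => wgt_nonneg w0 _ _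
  rw [sum_congr rfl b6, ← sum_mul]
  rw [hq] at b4
  refine le_of_mul_le_mul_right ?_ (pow_pos (pow_pos r0 8) #(free V K F))
  calc _ = (∑ η ∈ C, wgt w (edges V \ rest V K) η) * (r ^ 8) ^ #(free V K F) * r ^ Δ := by ring
    _ ≤ Z * (2 * r ^ 8) ^ #R * r ^ Δ :=
      mul_le_mul_of_nonneg_right (b4.trans (by gcongr)) (by positivity)
    _ = 2 ^ #R * r ^ (8 * #R + Δ) * Z := by rw [mul_pow, pow_add, pow_mul]; ring
    _ ≤ 2 ^ #(rest V K) * r ^ (c + 8 * #(free V K F)) * Z :=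
      mul_le_mul_of_nonneg_right (mul_le_mul (pow_le_pow_right₀ one_le_two (card_le_card b1))
        (pow_le_pow_right₀ hr (by omega)) (by positivity) (by positivity)) Z0
    _ = _ := by rw [pow_add, pow_mul]; ring

end Pool.Agent.Lib.MP_7c4eee_pr
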